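import Pool.Agent.Q280.MK.HYP1
import Pool.Agent.Q280.MK.HYP2
import Pool.Agent.Q280.MK.RHO
import Pool.Agent.Q280.MK.CONT
import Pool.Agent.Q280.MK.LINK
import Pool.Agent.Q280.MK.GAP
import Pool.Agent.Q222.MK.CHEB
import Pool.Agent.Q222.MK.SLAW
import Pool.Agent.Q222.MK.TLAW
import Pool.Agent.Q210.MK.CRUDE
import Pool.Agent.Q210.MK.POIS
import Pool.Agent.Q210.MK.HI
import Pool.Agent.Q149.MK.GRP
import Pool.Agent.Q149.MK.T3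
import Pool.Agent.Q150.MK.S8
import Pool.Agent.Q150.MK.WL
import Pool.Agent.Q150.MK.EXPM
import Pool.Agent.Q150.MK.EXPA
import Pool.Agent.Q150.MK.TIGHT
import Pool.Agent.Q61.MK.EXP1
import Pool.Agent.Q61.MK.EXP2
import Pool.Agent.Q61.MK.EXP3
import Pool.Agent.Q284.MK.TM
import Pool.Agent.Q284.MK.T8
import Pool.Agent.Q146.MK.RB
import Pool.Agent.Q146.MK.ST
import Pool.Agent.Q146.MK.ORB
import Pool.Agent.Q146.MK.SIG
import Pool.Agent.Q289.MK.BETA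
import Pool.Agent.Q289.MK.LIM

/-!
# All facts of the first part, unconditionally
-/

namespace Pool.Agent.Q291.MK

theorem bHYP1 : P_HYP1 := Pool.Agent.Q280.MK.t_HYP1
theorem bHYP2 : P_HYP2 := Pool.Agent.Q280.MK.t_HYP2 bHYP1
theorem bRHO : P_RHO := Pool.Agent.Q280.MK.t_RHO
theorem bTLAW : P_TLAW := Pool.Agent.Q222.MK.t_TLAW bHYP1
theorem bSLAW : P_SLAW := Pool.Agent.Q222.MK.t_SLAW.1
theorem bSM : P_SM := Pool.Agent.Q222.MK.t_SLAW.2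
theorem bCHEB : P_CHEB := Pool.Agent.Q222.MK.t_CHEB
theorem bCRUDE : P_CRUDE := Pool.Agent.Q210.MK.t_CRUDE bHYP1 bTLAW bSLAW bCHEB
theorem bPOIS : P_POIS := Pool.Agent.Q210.MK.t_POIS
theorem bGRP : P_GRP := Pool.Agent.Q149.MK.t_GRP bHYP1
theorem bHI : P_HI := Pool.Agent.Q210.MK.t_HI bHYP1 bGRP
theorem bWL : P_WL := Pool.Agent.Q150.MK.t_WL bHYP1 bTLAW bSLAW bCHEB bHI
theorem bWW : P_WW := Pool.Agent.Q150.MK.t_WW
theorem bEXPM : P_EXPM := Pool.Agent.Q150.MK.t_EXPM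
theorem bEXPA : P_EXPA := Pool.Agent.Q150.MK.t_EXPA bRHO bEXPM
theorem bEXP1 : P_EXP1 := Pool.Agent.Q61.MK.t_EXP1 bEXPM bEXPA
theorem bEXP2 : P_EXP2 := Pool.Agent.Q61.MK.t_EXP2 bEXPM bEXPA
theorem bEXP3 : P_EXP3 := Pool.Agent.Q61.MK.t_EXP3 bEXPM bEXPA

theorem bEXP : P_EXP := by
  intro C8 h8
  obtain ⟨D1, hD1, H1⟩ := bEXP1 C8 h8
  obtain ⟨D2, hD2, H2⟩ := bEXP2 C8 h8
  obtain ⟨D3, hD3, H3⟩ := bEXP3 C8 h8
  refine ⟨D1 + D2 + D3, by positivity, fun C3 h3 => ?_⟩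
  obtain ⟨d1, m1, hd1, hm1, H1⟩ := H1 C3 h3
  obtain ⟨d2, m2, hd2, hm2, H2⟩ := H2 C3 h3
  obtain ⟨d3, m3, hd3, hm3, H3⟩ := H3 C3 h3
  refine ⟨d1 + d2 + d3, m1 + m2 + m3, by positivity, by linarith, fun a ha hm => ?_⟩
  obtain ⟨x1, x2, x3, x4⟩ := H1 a ha (by linarith)
  obtain ⟨y1, y2⟩ := H2 a ha (by linarith)
  obtain ⟨z1, z2, z3, z4, z5, z6⟩ := H3 a ha (by linarith)
  have hpos : 0 < mean a := by linarith
  have hle : ∀ d : ℝ, d ≤ d1 + d2 + d3 → d / mean a ≤ (d1 + d2 + d3) / mean a := fun d h => by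
    gcongr
  refine ⟨x1.trans (hle _ (by linarith)), x2.trans (by linarith),
    x3.trans (by gcongr; linarith), x4.trans (by gcongr; linarith),
    y1.trans (hle _ (by linarith)), z1.trans (by linarith), z2.trans (by linarith),
    y2.trans (by linarith), z3.trans (by gcongr; linarith), z4.trans (by gcongr; linarith),
    z5.trans (by gcongr; linarith), z6⟩

theorem bTM : P_TM := Pool.Agent.Q284.MK.t_TM bHYP1 bTLAW bEXP
theorem bT8 : P_T8 := Pool.Agent.Q284.MK.t_T8 bHYP1 bHYP2 bTLAW bEXP bTM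
theorem bT3 : P_T3 := Pool.Agent.Q149.MK.t_T3 bHYP1 bTLAW bEXP bTM
theorem bS8 : P_S8 := Pool.Agent.Q150.MK.t_S8 bSLAW
theorem bWEAK : P_WEAK := Pool.Agent.Q150.MK.t_WEAK bTLAW bSLAW bSM bTM bT3 bT8 bS8
theorem bCONT : P_CONT := Pool.Agent.Q280.MK.t_CONT bHYP1
theorem bTIGHT : P_TIGHT := Pool.Agent.Q150.MK.t_TIGHT
theorem bSEQ : P_SEQ := Pool.Agent.Q150.MK.t_SEQ
theorem bRB : P_RB := Pool.Agent.Q146.MK.t_RB bTLAW bSLAW bCRUDE bWL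
theorem bST : P_ST := Pool.Agent.Q146.MK.t_ST bCRUDE bWL bRB
theorem bORB : P_ORB := Pool.Agent.Q146.MK.t_ORB bRB bST bPOIS bWEAK bWW bSEQ
theorem bSIG : P_SIG := Pool.Agent.Q146.MK.t_SIG bRB bST bORB bPOIS
theorem bLINK : P_LINK := Pool.Agent.Q280.MK.t_LINK bGRP
theorem bGAP : P_GAP := Pool.Agent.Q280.MK.t_GAP
theorem bBETA : P_BETA :=
  Pool.Agent.Q291.MK.t_BETA bCRUDE bHYP1 bPOIS bRB bST bORB bCONT bWL bWW
theorem bLIM : P_LIM :=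
  Pool.Agent.Q291.MK.t_LIM bPOIS bCRUDE bWL bRB bST bCONT bTIGHT bBETA

end Pool.Agent.Q291.MK
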