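import Pool.Agent.Q291.MK.Stm2

/-!
# Statements of the third part: linear response, loss of memory, uniqueness of the scaling limit
-/

namespace Pool.Agent.Q291.MK

open Filter Topology

/-- Forward difference. -/
def dl (φ : ℕ → ℝ) (k : ℕ) : ℝ := φ (k + 1) - φ k

/-- Growth weight. -/
noncomputable def wt (e m : ℝ) (J : ℕ) : ℝ := 1 + e * (((J:ℝ) - m) ^ 10 / m ^ 5)

/-- Test functions. -/
structure Tst (e m : ℝ) (φ : ℕ → ℝ) : Prop where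
  pb : PB φ
  bd : ∀ J, |dl (dl φ) J| ≤ wt e m J

/-- Signed perturbations of total mass zero with all moments finite. -/
structure Sg (h : ℕ → ℝ) : Prop where
  mom : ∀ q : ℕ, Summable fun k => |h k| * (k:ℝ) ^ q
  zero : E h (fun _ => 1) = 0

/-- `h` is `c` times the unit shift of `a`, up to second differences of mass `ρ`. -/
structure Nr (e : ℝ) (a h : ℕ → ℝ) (c ρ : ℝ) : Prop where
  sg : Sg h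
  mn : E h (fun k => (k:ℝ)) = c
  bd : ∀ φ : ℕ → ℝ, Tst e (mean a) φ → |E h φ - c * E a (dl φ)| ≤ ρ

noncomputable def m12 (a : ℕ → ℝ) : ℝ := E a (fun k => ((k:ℝ) - mean a) ^ 12)

/-- Laws at weak coupling with control of the twelfth moment. -/
structure Cl (C3 C8 C12 : ℝ) (a : ℕ → ℝ) : Prop extends Cls C3 C8 a where
  m12_le : m12 a ≤ C12 * mean a ^ 6

/-- Sum over pairs. -/
noncomputable def EE (a h : ℕ → ℝ) (φ : ℕ → ℕ → ℝ) : ℝ :=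
  ∑' p : ℕ × ℕ, a p.1 * h p.2 * φ p.1 p.2

/-- Derivative of `T` at `a` in direction `h`. -/
noncomputable def dT (a h : ℕ → ℝ) (j : ℕ) : ℝ :=
  2 * EE a h (fun K L => I (K + L) * (hyp K L j - T a j)) / E2 a (fun K L => I (K + L))

/-- Derivative of `S`. -/
noncomputable def dS (a h : ℕ → ℝ) (k : ℕ) : ℝ :=
  2 * ∑ p ∈ Finset.HasAntidiagonal.antidiagonal k, a p.1 * h p.2

/-- Derivative of `R`. -/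
noncomputable def dR (a h : ℕ → ℝ) : ℕ → ℝ :=
  dS (S (T (T a))) (dS (T (T a)) (dT (T a) (dT a h)))

/-- The adjoint of `dT`. -/
noncomputable def TT (a φ : ℕ → ℝ) (L : ℕ) : ℝ :=
  2 * E a (fun K => I (K + L) * (H K L φ - E (T a) φ)) / E2 a (fun K L => I (K + L))

/-- The adjoint of `dS`. -/
noncomputable def SS (a φ : ℕ → ℝ) (L : ℕ) : ℝ := 2 * E a (fun K => φ (K + L))

noncomputable def kap (K L : ℕ) : ℝ :=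
  K * (K + 1/2) / (((K:ℝ) + L + 1/2) * ((K:ℝ) + L + 3/2))

/-- Job DIF: differences of hypergeometric expectations. -/
def P_DIF : Prop := ∀ (K L : ℕ) (φ : ℕ → ℝ),
  H K (L + 1) φ - H K L φ = kap K L * H (K - 1) L (dl φ) ∧ H K L φ = H L K φ ∧ ∀ t : ℝ,
  dl (fun L => I (K + L) * (H K L φ - t)) L =
    I (K + L + 1) * kap K L * H (K - 1) L (dl φ) -
      3 / 2 * (I (K + L) / (K + L + 3)) * (H K L φ - t) ∧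
  dl (dl (fun L => I (K + L) * (H K L φ - t))) L =
    I (K + L + 2) * (kap K (L + 1) * kap (K - 1) L * H (K - 1 - 1) L (dl (dl φ)) -
      2 * kap K L / (K + L + 5/2) * H (K - 1) L (dl φ)) -
    3 * (I (K + L + 1) / (K + L + 4)) * kap K L * H (K - 1) L (dl φ) +
    15 / 4 * (I (K + L) / ((K + L + 3) * (K + L + 4))) * (H K L φ - t)

/-- Job ADJ. -/
def P_ADJ : Prop := ∀ a h : ℕ → ℝ, AM a → Sg h → Sg (dT a h) ∧ Sg (dS a h) ∧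
  ∀ φ : ℕ → ℝ, PB φ → PB (TT a φ) ∧ PB (SS a φ) ∧
    E (dT a h) φ = E h (TT a φ) ∧ E (dS a h) φ = E h (SS a φ)

/-- Job HTW: twelfth central moment of the hypergeometric law. -/
def P_HTW : Prop := ∃ C : ℝ, 0 < C ∧ ∀ K L : ℕ,
  H K L (fun j => ((j:ℝ) - hm K L) ^ 12) ≤ C * (min (K:ℝ) L + 1) ^ 6

/-- Job GRO: growth of test functions. -/
def P_GRO : Prop := ∀ C3 C8 C12 : ℝ, 1 ≤ C12 → ∃ e0 : ℝ, 0 < e0 ∧ ∀ e : ℝ, 0 ≤ e → e ≤ e0 →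
  ∀ b : ℕ → ℝ, Cl C3 C8 C12 b → 10 ≤ mean b → ∀ φ : ℕ → ℝ, Tst e (mean b) φ →
  E b (dl φ) = 0 → E b φ = 0 → ∀ J : ℕ,
    |dl φ J| ≤ 2 * (|(J:ℝ) - mean b| + √(mean b)) * wt e (mean b) J ∧
    |φ J| ≤ 6 * (|(J:ℝ) - mean b| + √(mean b)) ^ 2 * wt e (mean b) J

/-- Regular laws. -/
structure Rg (C3 C8 C12 M : ℝ) (a : ℕ → ℝ) : Prop where
  cl : Cl C3 C8 C12 a
  clT : Cl C3 C8 C12 (T a)
  big : M ≤ mean a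
  near : |mean (T a) - mean a / 2| ≤ 1

/-- Job NTN: contraction of second differences, near the mean. -/
def P_NTN : Prop := ∀ C3 C8 C12 : ℝ, 1 ≤ C3 → 1 ≤ C8 → 1 ≤ C12 → ∃ e0 : ℝ, 0 < e0 ∧
  ∀ e : ℝ, 0 < e → e ≤ e0 → ∃ M : ℝ, 10 ≤ M ∧ ∀ a : ℕ → ℝ, Rg C3 C8 C12 M a →
  ∀ φ : ℕ → ℝ, Tst e (mean (T a)) φ → E (T a) (dl φ) = 0 → ∀ L : ℕ,
    |(L:ℝ) - mean a| ≤ mean a / 10000 →
    |dl (dl (TT a φ)) L| ≤ 101 / 800 * wt (64 * e) (mean a) L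

/-- Job NTF: the same far from the mean. -/
def P_NTF : Prop := ∀ C3 C8 C12 : ℝ, 1 ≤ C3 → 1 ≤ C8 → 1 ≤ C12 → ∃ e0 : ℝ, 0 < e0 ∧
  ∀ e : ℝ, 0 < e → e ≤ e0 → ∃ M : ℝ, 10 ≤ M ∧ ∀ a : ℕ → ℝ, Rg C3 C8 C12 M a →
  ∀ φ : ℕ → ℝ, Tst e (mean (T a)) φ → E (T a) (dl φ) = 0 → ∀ L : ℕ,
    mean a / 10000 < |(L:ℝ) - mean a| →
    |dl (dl (TT a φ)) L| ≤ 101 / 800 * wt (64 * e) (mean a) L

/-- Job NTB: the mean of the first difference is bounded. -/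
def P_NTB : Prop := ∀ C3 C8 C12 : ℝ, 1 ≤ C3 → 1 ≤ C8 → 1 ≤ C12 → ∃ e0 : ℝ, 0 < e0 ∧
  ∀ e : ℝ, 0 < e → e ≤ e0 → ∃ D M : ℝ, 0 < D ∧ 10 ≤ M ∧ ∀ a : ℕ → ℝ, Rg C3 C8 C12 M a →
  ∀ φ : ℕ → ℝ, Tst e (mean (T a)) φ → E (T a) (dl φ) = 0 → |E a (dl (TT a φ))| ≤ D

/-- Job NTM: the observable `k`. -/
def P_NTM : Prop := ∀ C3 C8 C12 e : ℝ, 1 ≤ C3 → 1 ≤ C8 → 1 ≤ C12 → 0 < e →
  ∃ D M : ℝ, 0 < D ∧ 10 ≤ M ∧ ∀ a : ℕ → ℝ, Rg C3 C8 C12 M a →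
  (∀ L : ℕ, |dl (dl (TT a (fun k => (k:ℝ)))) L + 5 / 4 / mean a| ≤
    D / (mean a * √(mean a)) * wt e (mean a) L) ∧
  |E a (dl (TT a (fun k => (k:ℝ)))) - (1 / 2 - 5 / 8 * (1 - vr a / mean a) / mean a)| ≤
    D / (mean a * √(mean a))

/-- Job NTV: the observable `(k - mean)^2`. -/
def P_NTV : Prop := ∀ C3 C8 C12 e : ℝ, 1 ≤ C3 → 1 ≤ C8 → 1 ≤ C12 → 0 < e →
  ∃ D M : ℝ, 0 < D ∧ 10 ≤ M ∧ ∀ a : ℕ → ℝ, Rg C3 C8 C12 M a →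
  (∀ L : ℕ, |dl (dl (TT a (fun k => ((k:ℝ) - mean (T a)) ^ 2))) L - 1 / 4| ≤
    D / √(mean a) * wt e (mean a) L) ∧
  |E a (dl (TT a (fun k => ((k:ℝ) - mean (T a)) ^ 2))) - 1 / 4| ≤ D / √(mean a)

/-- The derivative of the variance in the direction `h`. -/
noncomputable def dv (a h : ℕ → ℝ) : ℝ := E h (fun k => ((k:ℝ) - mean a) ^ 2)

/-- Job NT: response of `T`. -/
def P_NT : Prop := ∀ C3 C8 C12 : ℝ, 1 ≤ C3 → 1 ≤ C8 → 1 ≤ C12 → ∃ e0 : ℝ, 0 < e0 ∧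
  ∀ e : ℝ, 0 < e → e ≤ e0 → ∃ D M : ℝ, 0 < D ∧ 10 ≤ M ∧ ∀ a : ℕ → ℝ, Rg C3 C8 C12 M a →
  ∀ (h : ℕ → ℝ) (c ρ : ℝ), Nr (64 * e) a h c ρ → ∃ c' : ℝ,
    Nr e (T a) (dT a h) c' (101 / 800 * ρ + D * |c|) ∧
    |c' - (c / 2 - 5 / 8 * ((dv a h - vr a / mean a * c) / mean a))| ≤
      D * (|c| + ρ) / (mean a * √(mean a)) ∧
    |dv (T a) (dT a h) - (dv a h / 8 + c / 8)| ≤ D * (|c| + ρ) / √(mean a)

/-- Job NS: response of `S`. -/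
def P_NS : Prop := ∀ C3 C8 C12 : ℝ, 1 ≤ C3 → 1 ≤ C8 → 1 ≤ C12 → ∃ e0 : ℝ, 0 < e0 ∧
  ∀ e : ℝ, 0 < e → e ≤ e0 → ∀ a : ℕ → ℝ, Cl C3 C8 C12 a → 1 ≤ mean a →
  ∀ (h : ℕ → ℝ) (c ρ : ℝ), Nr (101 / 3200 * e) a h c ρ →
    Nr e (S a) (dS a h) (2 * c) (101 / 50 * ρ) ∧ dv (S a) (dS a h) = 2 * dv a h

/-- The class is preserved, with the first order flow. -/
def Pres (C3 C8 C12 M D : ℝ) : Prop := ∀ a : ℕ → ℝ, Cl C3 C8 C12 a → M ≤ mean a →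
  Cl C3 C8 C12 (T a) ∧ Cl C3 C8 C12 (S a) ∧
  |mean (T a) - (mean a / 2 - 1 / 8 - 5 / 8 * (vr a / mean a))| ≤ D / mean a ∧
  |vr (T a) - (mean a / 8 + vr a / 8)| ≤ D

/-- Job TWT: twelfth moment of `T a`. -/
def P_TWT : Prop := ∃ B : ℝ, 1 ≤ B ∧ ∀ C12 : ℝ, B ≤ C12 → ∀ C3 C8 : ℝ, 1 ≤ C3 → 1 ≤ C8 →
  ∃ M : ℝ, 10 ≤ M ∧ ∀ a : ℕ → ℝ, Cl C3 C8 C12 a → M ≤ mean a →
  m12 (T a) ≤ C12 * mean (T a) ^ 6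

/-- Job TWS: twelfth moment of `S a` and of the Poisson law. -/
def P_TWS : Prop := ∃ B : ℝ, 1 ≤ B ∧ (∀ m : ℝ, 1 ≤ m → m12 (pois m) ≤ B * m ^ 6) ∧
  ∀ C12 : ℝ, B ≤ C12 → ∀ C3 C8 : ℝ, ∀ a : ℕ → ℝ, Cl C3 C8 C12 a → 1 ≤ mean a →
  m12 (S a) ≤ C12 * mean (S a) ^ 6

/-- Job CLP. -/
def P_CLP : Prop := ∃ C3 C8 C12 M D : ℝ, 1 ≤ C3 ∧ 1 ≤ C8 ∧ 1 ≤ C12 ∧ 10 ≤ M ∧ 0 < D ∧
  Pres C3 C8 C12 M D ∧ Pres (C3 + 3) (C8 + 1) (C12 + 1) M D ∧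
  ∀ m : ℝ, M ≤ m → Cl C3 C8 C12 (pois m)

/-- Job MIX: convex combinations. -/
def P_MIX : Prop := ∀ C3 C8 C12 : ℝ, 1 ≤ C3 → 1 ≤ C8 → 1 ≤ C12 → ∃ M : ℝ, 10 ≤ M ∧
  ∀ a b : ℕ → ℝ, Cl C3 C8 C12 a → Cl C3 C8 C12 b → M ≤ mean a → |mean b - mean a| ≤ 3 →
  vr a ≤ 3 / 4 * mean a → vr b ≤ 3 / 4 * mean b → ∀ s : ℝ, 0 ≤ s → s ≤ 1 →
  Cl (C3 + 3) (C8 + 1) (C12 + 1) (fun k => (1 - s) * a k + s * b k)

/-- Job NR: response of one full step. -/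
def P_NR : Prop := ∀ C3 C8 C12 M0 D0 : ℝ, 1 ≤ C3 → 1 ≤ C8 → 1 ≤ C12 → 10 ≤ M0 → 0 < D0 →
  Pres C3 C8 C12 M0 D0 → ∃ e D M : ℝ, 0 < e ∧ 0 < D ∧ M0 ≤ M ∧ ∀ a : ℕ → ℝ,
  Cl C3 C8 C12 a → M ≤ mean a → Cl C3 C8 C12 (R a) ∧
  |(mean (R a) - 2 * (vr (R a) / mean (R a))) - (mean a - 2 * (vr a / mean a)) + 2| ≤
    D / mean a ∧
  |vr (R a) / mean (R a) - (5 / 16 + vr a / mean a / 16)| ≤ D / mean a ∧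
  ∀ (h : ℕ → ℝ) (c ρ : ℝ), Nr e a h c ρ → 0 ≤ ρ → ∃ c' : ℝ,
    Nr e (R a) (dR a h) c' (1 / 2 * ρ + D * |c|) ∧
    |c' - c + 15 / 8 * ((dv a h - vr a / mean a * c) / mean a)| ≤
      D * (|c| + ρ) / (mean a * √(mean a)) ∧
    |dv (R a) (dR a h) - (dv a h / 16 + 5 / 16 * c)| ≤ D * (|c| + ρ) / √(mean a)

/-- Job SQ2: the linear recursion of the response. -/
def P_SQ2 : Prop := ∀ D : ℝ, 1 ≤ D → ∃ M0 C : ℝ, 10 ≤ M0 ∧ 0 < C ∧ ∀ (N : ℕ)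
  (μ s c v ρ : ℕ → ℝ), (∀ n < N, M0 ≤ μ n) → (∀ n < N, μ n - 4 ≤ μ (n + 1) ∧
    μ (n + 1) ≤ μ n - 1) → 0 ≤ μ N → (∀ n ≤ N, 0 ≤ ρ n ∧ 0 ≤ s n ∧ s n ≤ 1) →
  (∀ n < N, |s (n + 1) - (5 / 16 + s n / 16)| ≤ D / μ n) →
  (∀ n < N, |c (n + 1) - c n + 15 / 8 * ((v n - s n * c n) / μ n)| ≤
    D * (|c n| + ρ n) / (μ n * √(μ n))) →
  (∀ n < N, |v (n + 1) - (v n / 16 + 5 / 16 * c n)| ≤ D * (|c n| + ρ n) / √(μ n)) →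
  (∀ n < N, ρ (n + 1) ≤ ρ n / 2 + D * |c n|) → |v 0| ≤ 3 * (|c 0| + ρ 0) →
  ∀ n ≤ N, |c n| ≤ 2 * |c 0| + C * ((|c 0| + ρ 0) / μ 0) ∧
    ρ n ≤ ρ 0 / 2 ^ n + C * (|c 0| + (|c 0| + ρ 0) / μ 0) ∧
    (ρ 0 = 0 → v 0 = s 0 * c 0 → |c n - c 0| ≤ |c 0| / 4)

/-- Curves of laws over `[0,1]` with velocity `h`. -/
structure Crv (a h : ℝ → ℕ → ℝ) : Prop where
  am : ∀ s ∈ Set.Icc (0:ℝ) 1, AM (a s)
  der : ∀ s ∈ Set.Icc (0:ℝ) 1, ∀ k,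
    HasDerivWithinAt (fun s => a s k) (h s k) (Set.Icc 0 1) s
  maj : ∃ A : ℕ → ℝ, (∀ q : ℕ, Summable fun k => A k * (k:ℝ) ^ q) ∧ (∀ k, 0 ≤ A k) ∧
    ∀ s ∈ Set.Icc (0:ℝ) 1, ∀ k, |a s k| ≤ A k ∧ |h s k| ≤ A k

/-- Job CRE: expectations along a curve. -/
def P_CRE : Prop := ∀ a h : ℝ → ℕ → ℝ, Crv a h → ∀ s ∈ Set.Icc (0:ℝ) 1, Sg (h s) ∧
  ∀ φ : ℕ → ℝ, PB φ → HasDerivWithinAt (fun s => E (a s) φ) (E (h s) φ) (Set.Icc 0 1) s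

/-- Job CRT. -/
def P_CRT : Prop := ∀ a h : ℝ → ℕ → ℝ, Crv a h →
  Crv (fun s => T (a s)) (fun s => dT (a s) (h s))

/-- Job CRS. -/
def P_CRS : Prop := ∀ a h : ℝ → ℕ → ℝ, Crv a h →
  Crv (fun s => S (a s)) (fun s => dS (a s) (h s))

/-- Job CRL: segments. -/
def P_CRL : Prop := ∀ a b : ℕ → ℝ, AM a → AM b →
  Crv (fun s k => (1 - s) * a k + s * b k) (fun _ k => b k - a k)

/-- Velocity of the Poisson laws. -/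
noncomputable def vpois (m x : ℝ) (k : ℕ) : ℝ :=
  x * ((if k = 0 then 0 else pois m (k - 1)) - pois m k)

/-- Job CRP: the Poisson laws. -/
def P_CRP : Prop := ∀ m1 m2 : ℝ, 0 < m1 → 0 < m2 →
  Crv (fun s => pois (m1 + s * (m2 - m1))) (fun s => vpois (m1 + s * (m2 - m1)) (m2 - m1)) ∧
  ∀ x e : ℝ, 0 ≤ e → Nr e (pois m1) (vpois m1 x) x 0 ∧ dv (pois m1) (vpois m1 x) = x

/-- Velocity transported along an orbit. -/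
noncomputable def hit (a h : ℕ → ℝ) : ℕ → (ℕ → ℝ)
  | 0 => h
  | n + 1 => dR (R^[n] a) (hit a h n)

end Pool.Agent.Q291.MK
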