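import Pool.Agent.Q291.MK.Stm4

/-!
# Statements of the fifth part: the next order of the flow
-/

namespace Pool.Agent.Q291.MK

open Filter Topology

/-- Taylor polynomial of `(1 + x)^(-3/2)`. -/
noncomputable def q4 (x : ℝ) : ℝ :=
  1 - 3 / 2 * x + 15 / 8 * x ^ 2 - 35 / 16 * x ^ 3 + 315 / 128 * x ^ 4

noncomputable def uu (μ n : ℝ) : ℝ := (n - 2 * μ) / (2 * μ + 7 / 4)

/-- Fourth cumulant. -/
noncomputable def k4 (a : ℕ → ℝ) : ℝ := E a (fun k => ((k:ℝ) - mean a) ^ 4) - 3 * vr a ^ 2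

/-- Job RH2: the function `I` to fourth order. -/
def P_RH2 : Prop := ∃ D : ℝ, 0 < D ∧ ∀ μ : ℝ, 10 ≤ μ → ∃ I0 : ℝ, 0 < I0 ∧
  (∀ n : ℕ, I n / I0 ≤ D * μ ^ 2) ∧
  (∀ n : ℕ, 3 / 4 * μ ≤ n → I n / I0 ≤ 9 / 2 ∧
    |I n / I0 - q4 (uu μ n)| ≤ D * (|uu μ n| ^ 5 + 1 / μ ^ 2))

/-- Job EA2: expansion of a weighted expectation to fourth order. -/
def P_EA2 : Prop := ∃ D0 : ℝ, 0 < D0 ∧ ∀ C3 C8 : ℝ, 1 ≤ C8 → ∀ a : ℕ → ℝ, Cls C3 C8 a →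
  10 ≤ mean a → ∃ Z0 : ℝ, 0 < Z0 ∧ ∀ (φ : ℕ → ℕ → ℝ) (B : ℝ), PB2 φ → 0 ≤ B →
    (∀ K L : ℕ, (K:ℝ) + L < 3 / 4 * mean a → |φ K L| ≤ B) →
    |E2 a (fun K L => I (K + L) * φ K L) / Z0 -
      E2 a (fun K L => q4 (uu (mean a) (K + L)) * φ K L)| ≤
      D0 * E2 a (fun K L => |φ K L| * (|uu (mean a) (K + L)| ^ 5 + 1 / mean a ^ 2)) +
        D0 * B * C8 ^ 2 / mean a ^ 6

/-- The variable `X`. -/
noncomputable def xx (a : ℕ → ℝ) (K L : ℕ) : ℝ := (K:ℝ) + L - 2 * mean a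
/-- The variable `g`. -/
noncomputable def gg (K L : ℕ) : ℝ := ((K:ℝ) - L) ^ 2 / (K + L + 1/2)

/-- Job EX4: first moments to the next order. -/
def P_EX4 : Prop := ∀ C3 C8 C12 C4 : ℝ, 1 ≤ C3 → 1 ≤ C8 → 1 ≤ C12 → 1 ≤ C4 → ∃ D M : ℝ,
  0 < D ∧ 10 ≤ M ∧ ∀ a : ℕ → ℝ, Cl C3 C8 C12 a → |k4 a| ≤ C4 * (mean a * √(mean a)) →
  M ≤ mean a →
  |Ew a (xx a) + 3 / 2 * (vr a / mean a) - (21 / 16 * (vr a / mean a) +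
    15 / 16 * (k3 a / mean a) - 15 / 8 * (vr a / mean a) ^ 2) / mean a| ≤
      D / (mean a * √(mean a)) ∧
  |Ew a gg - vr a / mean a - (-(1 / 4) * (vr a / mean a) - 5 / 4 * (k3 a / mean a) +
    5 / 4 * (vr a / mean a) ^ 2) / mean a| ≤ D / (mean a * √(mean a)) ∧
  |Ew a (fun K L => 1 / ((K:ℝ) + L + 1/2)) - 1 / (2 * mean a)| ≤ D / (mean a * √(mean a))

/-- Job EX5: second and third moments to the next order. -/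
def P_EX5 : Prop := ∀ C3 C8 C12 C4 : ℝ, 1 ≤ C3 → 1 ≤ C8 → 1 ≤ C12 → 1 ≤ C4 → ∃ D M : ℝ,
  0 < D ∧ 10 ≤ M ∧ ∀ a : ℕ → ℝ, Cl C3 C8 C12 a → |k4 a| ≤ C4 * (mean a * √(mean a)) →
  M ≤ mean a →
  |Ew a (fun K L => (xx a K L - Ew a (xx a)) ^ 2) - (2 * vr a - 3 / 2 * (k3 a / mean a) +
    3 / 2 * (vr a / mean a) ^ 2)| ≤ D / √(mean a) ∧
  |Ew a (fun K L => (xx a K L - Ew a (xx a)) * (gg K L - Ew a gg)) - (k3 a / mean a -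
    (vr a / mean a) ^ 2)| ≤ D / √(mean a) ∧
  |Ew a (fun K L => (gg K L - Ew a gg) ^ 2) - 2 * (vr a / mean a) ^ 2| ≤ D / √(mean a) ∧
  |Ew a (fun K L => (xx a K L - Ew a (xx a)) ^ 3) - 2 * k3 a| ≤ D * √(mean a) ∧
  |Ew a (fun K L => (xx a K L - Ew a (xx a)) ^ 2 * (gg K L - Ew a gg))| ≤ D * √(mean a)

/-- Job HF: fourth central moment of the hypergeometric law. -/
def P_HF : Prop := ∃ C : ℝ, 0 < C ∧ ∀ K L : ℕ,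
  |H K L (fun j => ((j:ℝ) - hm K L) ^ 4) - 3 * hv K L ^ 2| ≤ C * ((K:ℝ) + L + 1)

/-- Job K4: the fourth cumulant is preserved. -/
def P_K4 : Prop := ∀ C8 C12 : ℝ, 1 ≤ C8 → 1 ≤ C12 → ∃ B4 : ℝ, 1 ≤ B4 ∧ ∀ C4 : ℝ, B4 ≤ C4 →
  ∀ C3 : ℝ, 1 ≤ C3 → ∃ M : ℝ, 10 ≤ M ∧ ∀ a : ℕ → ℝ, Cl C3 C8 C12 a →
  |k4 a| ≤ C4 * (mean a * √(mean a)) → M ≤ mean a →
  |k4 (T a)| ≤ C4 * (mean (T a) * √(mean (T a))) ∧
  |k4 (S a)| ≤ C4 * (mean (S a) * √(mean (S a)))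

/-- Job TM2: mean, variance and third cumulant of `T a` to the next order. -/
def P_TM2 : Prop := ∀ C3 C8 C12 C4 : ℝ, 1 ≤ C3 → 1 ≤ C8 → 1 ≤ C12 → 1 ≤ C4 → ∃ D M : ℝ,
  0 < D ∧ 10 ≤ M ∧ ∀ a : ℕ → ℝ, Cl C3 C8 C12 a → |k4 a| ≤ C4 * (mean a * √(mean a)) →
  M ≤ mean a →
  |mean (T a) - (mean a / 2 - 1 / 8 - 5 / 8 * (vr a / mean a) + 1 / 4 * (1 / 8 +
    25 / 16 * (vr a / mean a) + 35 / 16 * (k3 a / mean a) -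
    25 / 8 * (vr a / mean a) ^ 2) / mean a)| ≤ D / (mean a * √(mean a)) ∧
  |vr (T a) - (mean a / 8 + vr a / 8 + 3 / 32 - 7 / 32 * (vr a / mean a) -
    7 / 32 * (k3 a / mean a) + 11 / 32 * (vr a / mean a) ^ 2)| ≤ D / √(mean a) ∧
  |k3 (T a) - (3 / 32 * vr a + k3 a / 32)| ≤ D * √(mean a)

/-- Job FL2: the flow to the next order. -/
def P_FL2 : Prop := ∃ C3 C8 C12 C4 M D : ℝ, 1 ≤ C3 ∧ 10 ≤ M ∧ 0 < D ∧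
  (∀ m : ℝ, M ≤ m → Cl C3 C8 C12 (pois m) ∧
    |k4 (pois m)| ≤ C4 * (mean (pois m) * √(mean (pois m)))) ∧
  ∀ a : ℕ → ℝ, Cl C3 C8 C12 a → |k4 a| ≤ C4 * (mean a * √(mean a)) → M ≤ mean a →
  Cl C3 C8 C12 (R a) ∧ |k4 (R a)| ≤ C4 * (mean (R a) * √(mean (R a))) ∧
  |(mean (R a) - 2 * (vr (R a) / mean (R a))) - (mean a - 2 * (vr a / mean a)) + 2 +
    16 / 15 / mean a| ≤ D * ((|vr a / mean a - 1 / 3| + |k3 a / mean a - 1 / 15|) / mean a +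
      1 / (mean a * √(mean a))) ∧
  |vr (R a) / mean (R a) - 1 / 3| ≤ |vr a / mean a - 1 / 3| / 16 + D / mean a ∧
  |k3 (R a) / mean (R a) - 1 / 15| ≤ |k3 a / mean a - 1 / 15| / 256 +
    |vr a / mean a - 1 / 3| / 16 + D / √(mean a)

/-- Job OR2: orbits of the Wilson action to the next order. -/
def P_OR2 : Prop := ∃ M C : ℝ, 10 ≤ M ∧ 0 < C ∧ ∀ (m : ℝ) (n : ℕ), 0 < m →
  M ≤ mean (R^[n] (pois m)) → ∀ j ≤ n,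
  |mean (R^[j] (pois m)) - mean (R^[n] (pois m)) - 2 * ((n:ℝ) - j) -
    8 / 15 * Real.log (mean (R^[j] (pois m)) / mean (R^[n] (pois m)))| ≤ C

/-- Job SG2: the string tension at weak coupling, up to constants. -/
def P_SG2 : Prop := ∃ C : ℝ, ∀ β σ : ℝ, 2 ≤ β →
  Tendsto (fun n : ℕ => -Real.log (W (R^[n] (pois (2 * β)))) / 4 ^ n) atTop (𝓝 σ) →
  |Real.log σ + 2 * Real.log 2 * β - 8 / 15 * Real.log 2 * Real.log β| ≤ C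

/-- Job PR2: the scaling limit to the next order. -/
def P_PR2 : Prop := ∀ (m : ℝ) (ν : ℕ → ℕ) (x : ℕ → ℝ) (b : ℤ → ℕ → ℝ), 0 < m →
  Tendsto ν atTop atTop → (∀ l, 0 < x l) →
  Tendsto (fun l => mean (R^[ν l] (pois (x l)))) atTop (𝓝 m) →
  (∀ k : ℤ, Tendsto (fun l => mean (R^[((ν l : ℤ) + k).toNat] (pois (x l)))) atTop
    (𝓝 (mean (b k)))) →
  ∃ C : ℝ, 0 < C ∧
  (∀ᶠ l in atTop, |x l / 2 - ν l - 4 / 15 * Real.log (ν l + 1)| ≤ C) ∧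
  ∀ j : ℕ, |mean (b (-j)) - 2 * j - 8 / 15 * Real.log (j + 1)| ≤ C

end Pool.Agent.Q291.MK
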