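import Pool.Agent.Q291.MK.Defs

/-!
# Expectations under probability laws on ℕ: toolkit
-/

namespace Pool.Agent.Q291.MK

open Finset

lemma PB.const (c : ℝ) : PB (fun _ => c) := ⟨|c|, 0, fun k => by simp⟩
lemma PB.id : PB (fun k => (k:ℝ)) := ⟨1, 1, fun k => by
  rw [abs_of_nonneg (Nat.cast_nonneg k)]; simp⟩

lemma one_le_base (K L : ℕ) : (1:ℝ) ≤ (1 + (K:ℝ)) * (1 + (L:ℝ)) := by
  have h1 : (0:ℝ) ≤ K := Nat.cast_nonneg K
  have h2 : (0:ℝ) ≤ L := Nat.cast_nonneg L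
  nlinarith [mul_nonneg h1 h2]

lemma PB.nonneg_C {φ : ℕ → ℝ} (h : PB φ) :
    ∃ (C : ℝ) (q : ℕ), 0 ≤ C ∧ ∀ k, |φ k| ≤ C * (1 + (k:ℝ)) ^ q := by
  obtain ⟨C, q, h⟩ := h
  refine ⟨C, q, ?_, h⟩
  have := h 0
  simp at this
  exact (abs_nonneg _).trans this

lemma PB2.nonneg_C {φ : ℕ → ℕ → ℝ} (h : PB2 φ) :
    ∃ (C : ℝ) (q : ℕ), 0 ≤ C ∧ ∀ K L, |φ K L| ≤ C * ((1 + (K:ℝ)) * (1 + (L:ℝ))) ^ q := by
  obtain ⟨C, q, h⟩ := h
  refine ⟨C, q, ?_, h⟩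
  have := h 0 0
  simp at this
  exact (abs_nonneg _).trans this

lemma PB.add {φ ψ : ℕ → ℝ} (h : PB φ) (h' : PB ψ) : PB (fun k => φ k + ψ k) := by
  obtain ⟨C, q, hC, h⟩ := h.nonneg_C
  obtain ⟨C', q', hC', h'⟩ := h'.nonneg_C
  refine ⟨C + C', q + q', fun k => ?_⟩
  have h0 : (1:ℝ) ≤ 1 + (k:ℝ) := by have : (0:ℝ) ≤ k := Nat.cast_nonneg k; linarith
  have h1 : (1 + (k:ℝ)) ^ q ≤ (1 + (k:ℝ)) ^ (q + q') := pow_le_pow_right₀ h0 (by omega)
  have h2 : (1 + (k:ℝ)) ^ q' ≤ (1 + (k:ℝ)) ^ (q + q') := pow_le_pow_right₀ h0 (by omega)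
  calc |φ k + ψ k| ≤ |φ k| + |ψ k| := abs_add_le _ _
    _ ≤ C * (1 + (k:ℝ)) ^ q + C' * (1 + (k:ℝ)) ^ q' := add_le_add (h k) (h' k)
    _ ≤ C * (1 + (k:ℝ)) ^ (q + q') + C' * (1 + (k:ℝ)) ^ (q + q') := by gcongr
    _ = _ := by ring

lemma PB.mul {φ ψ : ℕ → ℝ} (h : PB φ) (h' : PB ψ) : PB (fun k => φ k * ψ k) := by
  obtain ⟨C, q, hC, h⟩ := h.nonneg_C
  obtain ⟨C', q', hC', h'⟩ := h'.nonneg_C
  refine ⟨C * C', q + q', fun k => ?_⟩
  rw [abs_mul]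
  calc |φ k| * |ψ k| ≤ (C * (1 + (k:ℝ)) ^ q) * (C' * (1 + (k:ℝ)) ^ q') := by
        gcongr
        · exact h k
        · exact h' k
    _ = _ := by ring

lemma PB.neg {φ : ℕ → ℝ} (h : PB φ) : PB (fun k => -φ k) := by
  obtain ⟨C, q, h⟩ := h; exact ⟨C, q, fun k => by rw [abs_neg]; exact h k⟩
lemma PB.sub {φ ψ : ℕ → ℝ} (h : PB φ) (h' : PB ψ) : PB (fun k => φ k - ψ k) := by
  simpa [sub_eq_add_neg] using h.add h'.neg
lemma PB.abs {φ : ℕ → ℝ} (h : PB φ) : PB (fun k => |φ k|) := by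
  obtain ⟨C, q, h⟩ := h; exact ⟨C, q, fun k => by rw [abs_abs]; exact h k⟩
lemma PB.pow {φ : ℕ → ℝ} (h : PB φ) (n : ℕ) : PB (fun k => φ k ^ n) := by
  induction n with
  | zero => simpa using PB.const 1
  | succ n ih => simpa [pow_succ] using ih.mul h
lemma PB.of_le {φ ψ : ℕ → ℝ} (h : PB ψ) (h' : ∀ k, |φ k| ≤ ψ k) : PB φ := by
  obtain ⟨C, q, h⟩ := h
  exact ⟨C, q, fun k => (h' k).trans ((le_abs_self _).trans (h k))⟩

lemma PB2.const (c : ℝ) : PB2 (fun _ _ => c) := ⟨|c|, 0, fun K L => by simp⟩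
lemma PB2.of_le {φ ψ : ℕ → ℕ → ℝ} (h : PB2 ψ) (h' : ∀ K L, |φ K L| ≤ ψ K L) : PB2 φ := by
  obtain ⟨C, q, h⟩ := h
  exact ⟨C, q, fun K L => (h' K L).trans ((le_abs_self _).trans (h K L))⟩
lemma PB2.bdd {φ : ℕ → ℕ → ℝ} (c : ℝ) (h' : ∀ K L, |φ K L| ≤ c) : PB2 φ :=
  (PB2.const c).of_le h'
lemma PB2.fst {φ : ℕ → ℝ} (h : PB φ) : PB2 (fun K _ => φ K) := by
  obtain ⟨C, q, hC, h⟩ := h.nonneg_C
  refine ⟨C, q, fun K L => (h K).trans ?_⟩
  have h2 : (0:ℝ) ≤ L := Nat.cast_nonneg L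
  have h1 : (0:ℝ) ≤ K := Nat.cast_nonneg K
  gcongr
  nlinarith
lemma PB2.snd {φ : ℕ → ℝ} (h : PB φ) : PB2 (fun _ L => φ L) := by
  obtain ⟨C, q, hC, h⟩ := h.nonneg_C
  refine ⟨C, q, fun K L => (h L).trans ?_⟩
  have h2 : (0:ℝ) ≤ L := Nat.cast_nonneg L
  have h1 : (0:ℝ) ≤ K := Nat.cast_nonneg K
  gcongr
  nlinarith

lemma PB2.add {φ ψ : ℕ → ℕ → ℝ} (h : PB2 φ) (h' : PB2 ψ) : PB2 (fun K L => φ K L + ψ K L) := by
  obtain ⟨C, q, hC, h⟩ := h.nonneg_C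
  obtain ⟨C', q', hC', h'⟩ := h'.nonneg_C
  refine ⟨C + C', q + q', fun K L => ?_⟩
  have h0 := one_le_base K L
  set B := (1 + (K:ℝ)) * (1 + (L:ℝ))
  have h1 : B ^ q ≤ B ^ (q + q') := pow_le_pow_right₀ h0 (by omega)
  have h2 : B ^ q' ≤ B ^ (q + q') := pow_le_pow_right₀ h0 (by omega)
  calc |φ K L + ψ K L| ≤ |φ K L| + |ψ K L| := abs_add_le _ _
    _ ≤ C * B ^ q + C' * B ^ q' := add_le_add (h K L) (h' K L)
    _ ≤ C * B ^ (q + q') + C' * B ^ (q + q') := by gcongr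
    _ = _ := by ring

lemma PB2.mul {φ ψ : ℕ → ℕ → ℝ} (h : PB2 φ) (h' : PB2 ψ) : PB2 (fun K L => φ K L * ψ K L) := by
  obtain ⟨C, q, hC, h⟩ := h.nonneg_C
  obtain ⟨C', q', hC', h'⟩ := h'.nonneg_C
  refine ⟨C * C', q + q', fun K L => ?_⟩
  rw [abs_mul]
  have h0 := one_le_base K L
  set B := (1 + (K:ℝ)) * (1 + (L:ℝ))
  calc |φ K L| * |ψ K L| ≤ (C * B ^ q) * (C' * B ^ q') := by
        gcongr
        · exact h K L
        · exact h' K L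
    _ = _ := by ring

lemma PB2.neg {φ : ℕ → ℕ → ℝ} (h : PB2 φ) : PB2 (fun K L => -φ K L) := by
  obtain ⟨C, q, h⟩ := h; exact ⟨C, q, fun K L => by rw [abs_neg]; exact h K L⟩
lemma PB2.sub {φ ψ : ℕ → ℕ → ℝ} (h : PB2 φ) (h' : PB2 ψ) : PB2 (fun K L => φ K L - ψ K L) := by
  simpa [sub_eq_add_neg] using h.add h'.neg
lemma PB2.abs {φ : ℕ → ℕ → ℝ} (h : PB2 φ) : PB2 (fun K L => |φ K L|) := by
  obtain ⟨C, q, h⟩ := h; exact ⟨C, q, fun K L => by rw [abs_abs]; exact h K L⟩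
lemma PB2.pow {φ : ℕ → ℕ → ℝ} (h : PB2 φ) (n : ℕ) : PB2 (fun K L => φ K L ^ n) := by
  induction n with
  | zero => simpa using PB2.const 1
  | succ n ih => simpa [pow_succ] using ih.mul h
lemma PB2.div_const {φ : ℕ → ℕ → ℝ} (h : PB2 φ) (c : ℝ) : PB2 (fun K L => φ K L / c) := by
  simpa [div_eq_mul_inv] using h.mul (PB2.const c⁻¹)

/-! ### Summability and linearity -/

lemma AM.summ {a : ℕ → ℝ} (ha : AM a) {φ : ℕ → ℝ} (h : PB φ) : Summable fun k => a k * φ k := by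
  obtain ⟨C, q, hC, h⟩ := h.nonneg_C
  have h1 : Summable fun k => a k * (C * ∑ i ∈ range (q + 1), (q.choose i : ℝ) * (k:ℝ) ^ i) := by
    have : (fun k => a k * (C * ∑ i ∈ range (q + 1), (q.choose i : ℝ) * (k:ℝ) ^ i)) =
        fun k => ∑ i ∈ range (q + 1), (C * q.choose i) * (a k * (k:ℝ) ^ i) := by
      funext k
      rw [Finset.mul_sum, Finset.mul_sum]
      exact Finset.sum_congr rfl fun i _ => by ring
    rw [this]
    exact summable_sum fun i _ => (ha.mom i).mul_left _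
  refine Summable.of_norm_bounded h1 fun k => ?_
  rw [Real.norm_eq_abs, abs_mul, abs_of_nonneg (ha.nn k)]
  refine mul_le_mul_of_nonneg_left ((h k).trans (le_of_eq ?_)) (ha.nn k)
  congr 1
  rw [add_comm (1:ℝ), add_pow]
  exact Finset.sum_congr rfl fun i _ => by ring

lemma AM.summ2 {a : ℕ → ℝ} (ha : AM a) {φ : ℕ → ℕ → ℝ} (h : PB2 φ) :
    Summable fun p : ℕ × ℕ => a p.1 * a p.2 * φ p.1 p.2 := by
  obtain ⟨C, q, hC, h⟩ := h.nonneg_C
  have hs : Summable fun k => a k * (1 + (k:ℝ)) ^ q :=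
    ha.summ (((PB.const 1).add PB.id).pow q)
  have h0 : 0 ≤ fun k => a k * (1 + (k:ℝ)) ^ q := fun k =>
    mul_nonneg (ha.nn k) (by positivity)
  have h1 := (hs.mul_of_nonneg hs h0 h0).mul_left C
  refine Summable.of_norm_bounded h1 fun p => ?_
  rw [Real.norm_eq_abs, abs_mul, abs_of_nonneg (mul_nonneg (ha.nn _) (ha.nn _))]
  refine (mul_le_mul_of_nonneg_left (h p.1 p.2) (mul_nonneg (ha.nn _) (ha.nn _))).trans
    (le_of_eq ?_)
  rw [mul_pow]; ring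

section E
variable {a : ℕ → ℝ}

lemma E_const_mul (c : ℝ) (φ : ℕ → ℝ) : E a (fun k => c * φ k) = c * E a φ := by
  unfold E; rw [← tsum_mul_left]; exact tsum_congr fun k => by ring

lemma Law.E_const (ha : Law a) (c : ℝ) : E a (fun _ => c) = c := by
  unfold E; rw [tsum_mul_right, ha.one.tsum_eq, one_mul]

lemma AM.E_add (ha : AM a) {φ ψ : ℕ → ℝ} (h : PB φ) (h' : PB ψ) :
    E a (fun k => φ k + ψ k) = E a φ + E a ψ := by
  unfold E; rw [← (ha.summ h).tsum_add (ha.summ h')]; exact tsum_congr fun k => by ring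

lemma AM.E_sub (ha : AM a) {φ ψ : ℕ → ℝ} (h : PB φ) (h' : PB ψ) :
    E a (fun k => φ k - ψ k) = E a φ - E a ψ := by
  unfold E; rw [← (ha.summ h).tsum_sub (ha.summ h')]; exact tsum_congr fun k => by ring

lemma AM.E_mono (ha : AM a) {φ ψ : ℕ → ℝ} (h : PB φ) (h' : PB ψ) (hle : ∀ k, φ k ≤ ψ k) :
    E a φ ≤ E a ψ :=
  Summable.tsum_le_tsum (fun k => mul_le_mul_of_nonneg_left (hle k) (ha.nn k)) (ha.summ h) (ha.summ h')

lemma AM.abs_E_le (ha : AM a) {φ : ℕ → ℝ} (h : PB φ) : |E a φ| ≤ E a (fun k => |φ k|) := by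
  have h1 := ha.E_mono h h.abs (fun k => le_abs_self _)
  have h2 := ha.E_mono h.neg h.abs (fun k => neg_le_abs _)
  have h3 : E a (fun k => -φ k) = - E a φ := by
    have := E_const_mul (a := a) (-1) φ; simpa using this
  rw [abs_le]; constructor <;> linarith

lemma E2_const_mul (c : ℝ) (φ : ℕ → ℕ → ℝ) : E2 a (fun K L => c * φ K L) = c * E2 a φ := by
  unfold E2; rw [← tsum_mul_left]; exact tsum_congr fun k => by ring

lemma AM.E2_add (ha : AM a) {φ ψ : ℕ → ℕ → ℝ} (h : PB2 φ) (h' : PB2 ψ) :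
    E2 a (fun K L => φ K L + ψ K L) = E2 a φ + E2 a ψ := by
  unfold E2; rw [← (ha.summ2 h).tsum_add (ha.summ2 h')]; exact tsum_congr fun k => by ring

lemma AM.E2_sub (ha : AM a) {φ ψ : ℕ → ℕ → ℝ} (h : PB2 φ) (h' : PB2 ψ) :
    E2 a (fun K L => φ K L - ψ K L) = E2 a φ - E2 a ψ := by
  unfold E2; rw [← (ha.summ2 h).tsum_sub (ha.summ2 h')]; exact tsum_congr fun k => by ring

lemma AM.E2_mono (ha : AM a) {φ ψ : ℕ → ℕ → ℝ} (h : PB2 φ) (h' : PB2 ψ)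
    (hle : ∀ K L, φ K L ≤ ψ K L) : E2 a φ ≤ E2 a ψ :=
  Summable.tsum_le_tsum (fun k => mul_le_mul_of_nonneg_left (hle k.1 k.2)
    (mul_nonneg (ha.nn _) (ha.nn _))) (ha.summ2 h) (ha.summ2 h')

lemma AM.abs_E2_le (ha : AM a) {φ : ℕ → ℕ → ℝ} (h : PB2 φ) :
    |E2 a φ| ≤ E2 a (fun K L => |φ K L|) := by
  have h1 := ha.E2_mono h h.abs (fun K L => le_abs_self _)
  have h2 := ha.E2_mono h.neg h.abs (fun K L => neg_le_abs _)
  have h3 : E2 a (fun K L => -φ K L) = - E2 a φ := by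
    have := E2_const_mul (a := a) (-1) φ; simpa using this
  rw [abs_le]; constructor <;> linarith

/-- Independence. -/
lemma AM.E2_mul (ha : AM a) {φ ψ : ℕ → ℝ} (h : PB φ) (h' : PB ψ) :
    E2 a (fun K L => φ K * ψ L) = E a φ * E a ψ := by
  unfold E2 E
  have h1 : Summable (fun k => ‖a k * φ k‖) := (ha.summ h).norm
  have h2 : Summable (fun k => ‖a k * ψ k‖) := (ha.summ h').norm
  rw [tsum_mul_tsum_of_summable_norm h1 h2]
  exact tsum_congr fun p => by ring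

lemma AM.E2_fst (ha : AM a) {φ : ℕ → ℝ} (h : PB φ) : E2 a (fun K _ => φ K) = E a φ := by
  have := ha.E2_mul h (PB.const 1)
  rw [ha.toLaw.E_const, mul_one] at this
  simpa using this

lemma AM.E2_snd (ha : AM a) {φ : ℕ → ℝ} (h : PB φ) : E2 a (fun _ L => φ L) = E a φ := by
  have := ha.E2_mul (PB.const 1) h
  rw [ha.toLaw.E_const, one_mul] at this
  simpa using this

lemma AM.E2_cst (ha : AM a) (c : ℝ) : E2 a (fun _ _ => c) = c := by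
  have := ha.E2_fst (PB.const c)
  rw [ha.toLaw.E_const] at this; exact this

lemma Law.mass_pos (ha : Law a) : ∃ k, 0 < a k := by
  by_contra h
  push Not at h
  have : a = 0 := funext fun k => le_antisymm (h k) (ha.nn k)
  have h1 := ha.one
  rw [this] at h1
  exact zero_ne_one (hasSum_zero.unique h1)

lemma AM.E2_pos (ha : AM a) {φ : ℕ → ℕ → ℝ} (h : PB2 φ) (hp : ∀ K L, 0 < φ K L) : 0 < E2 a φ := by
  obtain ⟨k, hk⟩ := ha.toLaw.mass_pos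
  exact (ha.summ2 h).tsum_pos (fun p => mul_nonneg (mul_nonneg (ha.nn _) (ha.nn _)) (hp _ _).le)
    (k, k) (mul_pos (mul_pos hk hk) (hp _ _))
end E

/-! ### The function `I` -/

lemma I_pos (n : ℕ) : 0 < I n := by
  induction n with
  | zero => simp [I]
  | succ n ih => rw [I]; positivity

lemma I_succ (n : ℕ) : I (n + 1) = I n * ((2 * n + 3) / (2 * n + 6)) := by rw [I]

lemma I_anti : Antitone I := by
  refine antitone_nat_of_succ_le fun n => ?_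
  rw [I]
  refine mul_le_of_le_one_right (I_pos n).le ?_
  rw [div_le_one (by positivity)]; linarith

lemma I_le_one (n : ℕ) : I n ≤ 1 := by
  have := I_anti (Nat.zero_le n); simpa [I] using this

lemma PB2.I : PB2 (fun K L => I (K + L)) := PB2.bdd 1 fun K L => by
  rw [abs_of_pos (I_pos _)]; exact I_le_one _
lemma PB.I : PB MK.I := (PB.const 1).of_le fun k => by
  rw [abs_of_pos (I_pos _)]; exact I_le_one _

lemma AM.Z_pos {a : ℕ → ℝ} (ha : AM a) : 0 < E2 a (fun K L => I (K + L)) :=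
  ha.E2_pos PB2.I fun _ _ => I_pos _

lemma AM.Ew_add {a : ℕ → ℝ} (ha : AM a) {φ ψ : ℕ → ℕ → ℝ} (h : PB2 φ) (h' : PB2 ψ) :
    Ew a (fun K L => φ K L + ψ K L) = Ew a φ + Ew a ψ := by
  unfold Ew
  rw [← add_div, ← ha.E2_add (PB2.I.mul h) (PB2.I.mul h')]
  congr 2; funext K L; ring

lemma AM.Ew_sub {a : ℕ → ℝ} (ha : AM a) {φ ψ : ℕ → ℕ → ℝ} (h : PB2 φ) (h' : PB2 ψ) :
    Ew a (fun K L => φ K L - ψ K L) = Ew a φ - Ew a ψ := by
  unfold Ew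
  rw [← sub_div, ← ha.E2_sub (PB2.I.mul h) (PB2.I.mul h')]
  congr 2; funext K L; ring

lemma Ew_const_mul {a : ℕ → ℝ} (c : ℝ) (φ : ℕ → ℕ → ℝ) :
    Ew a (fun K L => c * φ K L) = c * Ew a φ := by
  unfold Ew
  rw [mul_div_assoc', ← E2_const_mul]
  congr 2; funext K L; ring

lemma AM.Ew_const {a : ℕ → ℝ} (ha : AM a) (c : ℝ) : Ew a (fun _ _ => c) = c := by
  have h := Ew_const_mul (a := a) c (fun _ _ => 1)
  have h1 : Ew a (fun _ _ => 1) = 1 := by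
    unfold Ew; simp only [mul_one]; exact div_self ha.Z_pos.ne'
  rw [h1] at h; simpa using h

lemma AM.Ew_mono {a : ℕ → ℝ} (ha : AM a) {φ ψ : ℕ → ℕ → ℝ} (h : PB2 φ) (h' : PB2 ψ)
    (hle : ∀ K L, φ K L ≤ ψ K L) : Ew a φ ≤ Ew a ψ := by
  unfold Ew
  refine div_le_div_of_nonneg_right ?_ ha.Z_pos.le
  exact ha.E2_mono (PB2.I.mul h) (PB2.I.mul h') fun K L =>
    mul_le_mul_of_nonneg_left (hle K L) (I_pos _).le

lemma AM.abs_Ew_le {a : ℕ → ℝ} (ha : AM a) {φ : ℕ → ℕ → ℝ} (h : PB2 φ) :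
    |Ew a φ| ≤ Ew a (fun K L => |φ K L|) := by
  have h1 := ha.Ew_mono h h.abs (fun K L => le_abs_self _)
  have h2 := ha.Ew_mono h.neg h.abs (fun K L => neg_le_abs _)
  have h3 : Ew a (fun K L => -φ K L) = - Ew a φ := by
    have := Ew_const_mul (a := a) (-1) φ; simpa using this
  rw [abs_le]; constructor <;> linarith

end Pool.Agent.Q291.MK
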