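import Pool.Agent.Q291.MK.Stm8

/-!
# Statements of the ninth part
-/

namespace Pool.Agent.Q291.MK

open Filter Topology MeasureTheory Quaternion

/-- Job ONE: conditional expectations for nearly constant densities. -/
def P_ONE : Prop := ∀ f : G → ℝ, Continuous f → (∀ x, 0 ≤ f x) → (∀ x, 0 < tt x → 0 < f x) →
  ∀ (φ : G → ℝ) (ε : ℝ), Continuous φ → (∀ x, |φ x| ≤ 1) → 0 ≤ ε →
  (∀ x, 1 - ε ≤ f x ∧ f x ≤ 1) → ∀ x, |Qop f φ x - ∫ y, φ y ∂haar| ≤ 16 * ε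

/-- Job RE0: the mean of the trace. -/
def P_RE0 : Prop := ∫ y : G, (y : ℍ[ℝ]).re ∂haar = 0

end Pool.Agent.Q291.MK
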