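import Pool.Agent.Q291.MK.Base
import Pool.Agent.Q291.MK.Stm9
import Pool.Agent.Q237.MK.DIF
import Pool.Agent.Q237.MK.HF
import Pool.Agent.Q237.MK.CRE
import Pool.Agent.Q237.MK.CRT
import Pool.Agent.Q237.MK.MEM
import Pool.Agent.Q65.MK.ADJ
import Pool.Agent.Q65.MK.HTW
import Pool.Agent.Q65.MK.GRO
import Pool.Agent.Q65.MK.NS
import Pool.Agent.Q280.MK.NT
import Pool.Agent.Q280.MK.NTM
import Pool.Agent.Q280.MK.TWT
import Pool.Agent.Q54.MK.TWS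
import Pool.Agent.Q54.MK.MG
import Pool.Agent.Q275.MK.CLP
import Pool.Agent.Q275.MK.MIX
import Pool.Agent.Q275.MK.SQ2
import Pool.Agent.Q251.MK.NR
import Pool.Agent.Q234.MK.CST
import Pool.Agent.Q234.MK.BEX
import Pool.Agent.Q52.MK.CRN
import Pool.Agent.Q224.MK.DIFF
import Pool.Agent.Q224.MK.CMP
import Pool.Agent.Q224.MK.PROP
import Pool.Agent.Q224.MK.WA
import Pool.Agent.Q224.MK.CMU
import Pool.Agent.Q224.MK.CA2
import Pool.Agent.Q224.MK.BLK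
import Pool.Agent.Q91.MK.BMON
import Pool.Agent.Q91.MK.OR2
import Pool.Agent.Q121.MK.RH2
import Pool.Agent.Q121.MK.EA2
import Pool.Agent.Q176.MK.FL2
import Pool.Agent.Q241.MK.PKG
import Pool.Agent.Q14.MK.SG2
import Pool.Agent.Q14.MK.PR2
import Pool.Agent.Q237.MK.K4
import Pool.Agent.Q237.MK.TM2
import Pool.Agent.Q237.MK.EX5
import Pool.Agent.Q176.MK.EX4
import Pool.Agent.Q299.MK.BLK4
import Pool.Agent.Q299.MK.COR
import Pool.Agent.Q299.MK.TEN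
import Pool.Agent.Q91.MK.AV
import Pool.Agent.Q150.MK.ONE
import Pool.Agent.Q280.MK.NTV
import Pool.Agent.Q2.MK.NTN
import Pool.Agent.Q2.MK.NTB

/-!
# All facts of the later parts, unconditionally
-/

namespace Pool.Agent.Q291.MK

theorem bDIF : P_DIF := Pool.Agent.Q237.MK.t_DIF
theorem bHF : P_HF := Pool.Agent.Q237.MK.t_HF
theorem bADJ : P_ADJ := Pool.Agent.Q65.MK.t_ADJ
theorem bHTW : P_HTW := Pool.Agent.Q65.MK.t_HTW
theorem bGRO : P_GRO := Pool.Agent.Q65.MK.t_GRO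
theorem bNS : P_NS := Pool.Agent.Q65.MK.t_NS bADJ
theorem bNTM : P_NTM := Pool.Agent.Q280.MK.t_NTM bDIF
theorem bTWT : P_TWT := Pool.Agent.Q280.MK.t_TWT bHTW
theorem bTWS : P_TWS := Q54.MK.t_TWS
theorem bCLP : P_CLP := Pool.Agent.Q275.MK.clp bTWT bTWS
theorem bMIX : P_MIX := Pool.Agent.Q275.MK.mix
theorem bSQ2 : P_SQ2 := Pool.Agent.Q275.MK.sq2
theorem bCRE : P_CRE := Pool.Agent.Q237.MK.t_CRE
theorem bCRT : P_CRT := Pool.Agent.Q237.MK.t_CRT'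
theorem bCRS : P_CRS := Pool.Agent.Q237.MK.t_CRS
theorem bCRL : P_CRL := Pool.Agent.Q237.MK.t_CRL.1
theorem bCRP : P_CRP := Pool.Agent.Q237.MK.t_CRL.2
theorem bMG : P_MG := Q54.MK.t_MG
theorem bCRN : P_CRN := Pool.Agent.Q52.MK.CRN.t_CRN bGRO
theorem bDIFF : P_DIFF := Pool.Agent.Q224.MK.t_DIFF bCRE bCRT bCRS bCRL bCRN
theorem bBMON : P_BMON := Pool.Agent.Q91.MK.t_BMON bCRE bCRT bCRS bCRP bCRN
theorem bBEX : P_BEX := t_BEX bBMON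
theorem bMEM : P_MEM := Pool.Agent.Q237.MK.t_MEM bCRN bDIFF
theorem bCMP : P_CMP := Pool.Agent.Q224.MK.t_CMP bMEM bBMON bBEX bCRN
theorem bPROP : P_PROP := Pool.Agent.Q224.MK.t_PROP
theorem bRH2 : P_RH2 := Pool.Agent.Q121.MK.t_RH2
theorem bEA2 : P_EA2 := Pool.Agent.Q121.MK.ea2
theorem bWA : P_WA := Pool.Agent.Q224.MK.t_WA
theorem bCMU : P_CMU := Pool.Agent.Q224.MK.t_CMU bMEM bBMON bBEX bCRN
theorem bBLK : P_BLK := Pool.Agent.Q224.MK.t_BLK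
theorem bPKG : P_PKG := Pool.Agent.Q241.MK.t_PKG bPROP bWA
theorem bNTV : P_NTV := Pool.Agent.Q280.MK.t_NTV bDIF bHTW
theorem bEX4 : P_EX4 := Pool.Agent.Q176.MK.t_EX4 bEA2
theorem bEX5 : P_EX5 := Pool.Agent.Q237.MK.t_EX5'
theorem bK4 : P_K4 := Pool.Agent.Q237.MK.t_K4'
theorem bTM2 : P_TM2 := Pool.Agent.Q237.MK.t_TM2 bEX4 bEX5
theorem bFL2 : P_FL2 := Pool.Agent.Q176.MK.t_FL2 bCLP bK4 bTM2
theorem bOR2 : P_OR2 := Pool.Agent.Q91.MK.t_OR2 bFL2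
theorem bSG2 : P_SG2 := Pool.Agent.Q14.MK.t_SG2' bRB bST bORB bPOIS bOR2
theorem bPR2 : P_PR2 := Pool.Agent.Q14.MK.t_PR2 bOR2
theorem bSG3 : P_SG3 := (Pool.Agent.Q299.MK.t_TEN bOR2 bPROP).1
theorem bMG3 : P_MG3 := (Pool.Agent.Q299.MK.t_TEN bOR2 bPROP).2
theorem bAV : P_AV := Pool.Agent.Q91.MK.t_AV
theorem bONE : P_ONE := Pool.Agent.Q150.MK.t_ONE.1 bAV
theorem bRE0 : P_RE0 := Pool.Agent.Q150.MK.t_ONE.2
theorem bCOR : P_COR := Pool.Agent.Q299.MK.t_COR bAV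
theorem bNTN : P_NTN := Pool.Agent.Q2.MK.t_NTN bDIF bHTW bGRO
theorem bNTF : P_NTF := Pool.Agent.Q2.MK.t_NTF bDIF bHTW bGRO
theorem bNTB : P_NTB := Pool.Agent.Q2.MK.t_NTB bDIF bHTW bGRO
theorem bNT : P_NT := Pool.Agent.Q280.MK.t_NT bADJ bNTN bNTF bNTB bNTM bNTV
theorem bNR : P_NR := Pool.Agent.Q251.MK.t_NR bNT bNS
theorem bCST : P_CST := t_CST bCLP bMIX bNR bSQ2
theorem bCA2 : P_CA2 := Pool.Agent.Q224.MK.t_CA2 bCST bCMP bCMU bBEX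
theorem bBLK4 : P_BLK4 := Pool.Agent.Q299.MK.t_BLK4

end Pool.Agent.Q291.MK
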