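import Pool.Agent.Q291.MK.Model

/-!
# The two theorems for the hierarchical lattice gauge theory
-/

namespace Pool.Agent.Q291.MK

open Filter Topology MeasureTheory Quaternion

lemma Wt.Z {β : ℝ} (hβ : 0 ≤ β) (n : ℕ) : Wt (Z β n) := by
  obtain ⟨c, hc, h⟩ := Z_fn β hβ n
  have hl := law_it (am_pois (m := 2 * β) (by linarith)).toLaw n
  refine ⟨Z_cont hβ n, fun x => ?_, fun x hx => ?_, Z_class hβ n⟩
  · rw [h]; exact mul_nonneg hc.le ((hl.nn 0).trans (fn_bd hl x).1)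
  · rw [h]; exact mul_pos hc (fn_pos hl hx)

/-- The integral over the interior links of a sheet depends on the boundary only through its
holonomy. -/
lemma sheet_hol {f1 f2 f3 f4 : G → ℝ} (h1 : Continuous f1) (h2 : Continuous f2)
    (h3 : Continuous f3) (h4 : Continuous f4) (c1 : Cf f1) (c2 : Cf f2) (c3 : Cf f3) (c4 : Cf f4)
    (a1 a2 a3 a4 : G) :
    sheet f1 f2 f3 f4 a1 a2 a3 a4 = sheet f1 f2 f3 f4 (a1 * a2 * a3 * a4) 1 1 1 := by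
  rw [sheet_conv h1 h2 h3 h4 c1 c2 c3 c4, sheet_conv h1 h2 h3 h4 c1 c2 c3 c4]
  simp

theorem thmA (hMG : P_MG) (hSG : P_SG2) (hAV : P_AV) (hONE : P_ONE) (hRE : P_RE0)
    (hBLK : P_BLK) :
    (∀ β : ℝ, 0 < β →
      TendstoUniformly (fun n x => part (bare β) n x / part (bare β) n 1) (fun _ => 1) atTop ∧
      (∀ n, 0 < wil (part (bare β) n) ∧ wil (part (bare β) n) < 1) ∧
      ∃ C c : ℝ, 0 < C ∧ 0 < c ∧
        (∀ (n N : ℕ) (x : G),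
          |cex (fun i => part (bare β) (n + i)) (fun y => (y : ℍ[ℝ]).re) (N + 1) x| ≤
            C * Real.exp (-c * 4 ^ n)) ∧
        ∀ φ : G → ℝ, Continuous φ → Cf φ → (∀ x, |φ x| ≤ 1) → ∀ (n : ℕ) (x y : G),
          |cex (part (bare β)) φ (n + 1) x - cex (part (bare β)) φ (n + 1) y| ≤
            C * Real.exp (-c * 4 ^ n)) ∧
    ∃ (σ : ℝ → ℝ) (C c : ℝ), 0 < C ∧ 0 < c ∧ (∀ β : ℝ, 0 < β → 0 < σ β ∧
        Tendsto (fun n : ℕ => -Real.log (wil (part (bare β) n)) / 4 ^ n) atTop (𝓝 (σ β)) ∧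
        ∀ n : ℕ, wil (part (bare β) n) ≤ Real.exp (-σ β * 4 ^ n)) ∧
      ∀ β : ℝ, 2 ≤ β →
        |Real.log (σ β) + 2 * Real.log 2 * β - 8 / 15 * Real.log 2 * Real.log β| ≤ C ∧
        (∀ (n N : ℕ) (x : G),
          |cex (fun i => part (bare β) (n + i)) (fun y => (y : ℍ[ℝ]).re) (N + 1) x| ≤
            C * Real.exp (-c * σ β * 4 ^ n)) ∧
        ∀ φ : G → ℝ, Continuous φ → Cf φ → (∀ x, |φ x| ≤ 1) → ∀ (n : ℕ) (x y : G),
          |cex (part (bare β)) φ (n + 1) x - cex (part (bare β)) φ (n + 1) y| ≤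
            C * Real.exp (-c * σ β * 4 ^ n) := by
  obtain ⟨-, h2, σ, C, c, hC, hc, h3, h4⟩ := finA hMG hSG hAV hONE hRE hBLK
  have e : ∀ β, part (bare β) = Z β := fun β => funext (part_Z β)
  have hre : Continuous (fun y : G => (y : ℍ[ℝ]).re) :=
    Quaternion.continuous_re.comp continuous_subtype_val
  have hrc : Cf (fun y : G => (y : ℍ[ℝ]).re) := fun x y => re_class x y
  simp only [e]
  refine ⟨fun β hβ => ?_, σ, C, c, hC, hc, h3, fun β hβ => ?_⟩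
  · obtain ⟨k1, k2, C', c', hC', hc', k3, k4⟩ := h2 β hβ
    refine ⟨k1, k2, C', c', hC', hc', fun n N x => ?_, fun φ hφ cφ hb n x y => ?_⟩
    · rw [(cex_cnd (f := fun i => Z β (n + i)) (fun i => Wt.Z hβ.le _) hre hrc (N + 1)).1]
      exact k3 n N x
    · rw [(cex_cnd (f := Z β) (fun i => Wt.Z hβ.le _) hφ cφ (n + 1)).1]
      exact k4 φ hφ hb n x y
  · have hβ0 : 0 ≤ β := by linarith
    obtain ⟨k1, k3, k4⟩ := h4 β hβ
    refine ⟨k1, fun n N x => ?_, fun φ hφ cφ hb n x y => ?_⟩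
    · rw [(cex_cnd (f := fun i => Z β (n + i)) (fun i => Wt.Z hβ0 _) hre hrc (N + 1)).1]
      exact k3 n N x
    · rw [(cex_cnd (f := Z β) (fun i => Wt.Z hβ0 _) hφ cφ (n + 1)).1]
      exact k4 φ hφ hb n x y

theorem thmB (hCA : P_CA2) (hPROP : P_PROP) (hPR : P_PR2) (hPKG : P_PKG) (hSG3 : P_SG3)
    (hMG3 : P_MG3) (hAV : P_AV) (hONE : P_ONE) (hRE : P_RE0) (hCOR : P_COR) :
    ∃ (M C0 c0 : ℝ) (F : ℝ → ℤ → G → ℝ) (σ : ℝ → ℝ), 0 < M ∧ 0 < C0 ∧ 0 < c0 ∧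
  (∀ m : ℝ, M ≤ m →
    (∀ N : ℕ, ∃ β : ℝ, 0 < β ∧ Ren (part (bare β) N) m ∧
      ∀ β' : ℝ, 0 < β' → Ren (part (bare β') N) m → β' = β) ∧
    (∀ (ν : ℕ → ℕ) (β b : ℕ → ℝ), Tendsto ν atTop atTop → (∀ l, 0 < β l) →
      (∀ l, Ren (part (bare (β l)) (ν l)) (b l)) → Tendsto b atTop (𝓝 m) → ∀ k : ℤ,
      TendstoUniformly (fun l x => part (bare (β l)) ((ν l + k).toNat) x /
        part (bare (β l)) ((ν l + k).toNat) 1) (F m k) atTop) ∧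
    (∀ (ν K : ℕ → ℕ) (b : ℕ → ℝ), Tendsto ν atTop atTop →
      (∀ l, Ren (part (fun x => tt x ^ K l) (ν l)) (b l)) → Tendsto b atTop (𝓝 m) → ∀ k : ℤ,
      TendstoUniformly (fun l x => part (fun x => tt x ^ K l) ((ν l + k).toNat) x /
        part (fun x => tt x ^ K l) ((ν l + k).toNat) 1) (F m k) atTop) ∧
    (∀ k : ℤ, Continuous (F m k) ∧ Cf (F m k) ∧ F m k 1 = 1 ∧
      (∀ x, 0 ≤ F m k x ∧ F m k x ≤ 1) ∧ (∀ x, 0 < tt x → 0 < F m k x) ∧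
      (∀ x, F m (k + 1) x = sheet (F m k) (F m k) (F m k) (F m k) x 1 1 1 ^ 4 /
        sheet (F m k) (F m k) (F m k) (F m k) 1 1 1 1 ^ 4) ∧
      0 < wil (F m k) ∧ wil (F m k) < 1) ∧
    (0 < σ m ∧ Tendsto (fun n : ℕ => -Real.log (wil (F m n)) / 4 ^ n) atTop (𝓝 (σ m)) ∧
      |Real.log (σ m) + 2 * Real.log 2 * m - 8 / 15 * Real.log 2 * Real.log m| ≤ C0) ∧
    (∀ (k : ℤ) (N : ℕ) (x : G),
      |cex (fun i => F m (k + i)) (fun y => (y : ℍ[ℝ]).re) (N + 1) x| ≤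
        C0 * Real.exp (-c0 * σ m * (4:ℝ) ^ k)) ∧
    (∀ φ : G → ℝ, Continuous φ → Cf φ → (∀ x, |φ x| ≤ 1) → ∀ k : ℤ, ∃ e : ℝ,
      ∀ (n : ℕ) (x : G), |cex (fun i => F m (k + i)) φ (n + 1) x - e| ≤
        C0 * Real.exp (-c0 * σ m * (4:ℝ) ^ (k + n))) ∧
    (∀ φ ψ : G → ℝ, Continuous φ → Continuous ψ → Cf φ → Cf ψ → (∀ x, |φ x| ≤ 1) →
      (∀ x, |ψ x| ≤ 1) → ∀ (k : ℤ) (n N : ℕ) (x : G),
      |tr1 (fun i => F m (k + i)) φ ψ n N x| ≤ C0 * Real.exp (-c0 * σ m * (4:ℝ) ^ (k + n)) ∧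
      |tr2 (fun i => F m (k + i)) φ ψ n N x| ≤ C0 * Real.exp (-c0 * σ m * (4:ℝ) ^ (k + n))) ∧
    ∃ (C : ℝ) (b : ℤ → ℝ), 0 < C ∧ b 0 = m ∧ (∀ k, Ren (F m k) (b k)) ∧
      (∀ (N : ℕ) (β : ℝ), 0 < β → Ren (part (bare β) N) m →
        |β - N - 4 / 15 * Real.log (N + 1)| ≤ C) ∧
      (∀ j : ℕ, |b (-j) - j - 4 / 15 * Real.log (j + 1)| ≤ C) ∧
      (∀ k j : ℤ, k ≤ 0 → F (b k) j = F m (j + k)) ∧
      (∀ (j : ℕ) (x : G), |F m (-j) x - tt x ^ (2 * b (-j))| ≤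
        C * (1 + Real.log (j + 1)) / √((j:ℝ) + 1)) ∧
      (∀ j : ℕ, |1 - wil (F m (-j)) - 3 / (2 * b (-j))| ≤ C / (((j:ℝ) + 1) * √((j:ℝ) + 1)))) ∧
  (∀ w : ℝ, 0 < w → w < 1 → (∀ N : ℕ, ∃ β : ℝ, 0 < β ∧ wil (part (bare β) N) = w) ∧
    ∀ (ν : ℕ → ℕ) (β : ℕ → ℝ), Tendsto ν atTop atTop → (∀ l, 0 < β l) →
    (∀ l, wil (part (bare (β l)) (ν l)) = w) → ∃ (θ : ℕ → ℕ) (m : ℝ) (k0 : ℤ), StrictMono θ ∧
    M ≤ m ∧ wil (F m k0) = w ∧ ∀ k : ℤ,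
      TendstoUniformly (fun l x => part (bare (β (θ l))) ((ν (θ l) + k).toNat) x /
        part (bare (β (θ l))) ((ν (θ l) + k).toNat) 1) (F m (k + k0)) atTop) := by
  obtain ⟨M, C0, c0, F, σ, hM, hC0, hc0, h1, h2⟩ :=
    finC hCA hPROP hPR hPKG hSG3 hMG3 hAV hONE hRE hCOR
  have e : ∀ β, part (bare β) = Z β := fun β => funext (part_Z β)
  have e' : ∀ K : ℕ, part (fun x => tt x ^ K) = Zp K := fun K => funext (part_Zp K)
  have hre : Continuous (fun y : G => (y : ℍ[ℝ]).re) :=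
    Quaternion.continuous_re.comp continuous_subtype_val
  have hrc : Cf (fun y : G => (y : ℍ[ℝ]).re) := fun x y => re_class x y
  simp only [e, e']
  refine ⟨M, C0, c0, F, σ, hM, hC0, hc0, fun m hm => ?_, h2⟩
  obtain ⟨k1, k2, k3, k4, k5, k6, k7, k8, k9⟩ := h1 m hm
  have hW : ∀ k : ℤ, Wt (F m k) := fun k =>
    ⟨(k4 k).1, fun x => ((k4 k).2.2.2.1 x).1, (k4 k).2.2.2.2.1, (k4 k).2.1⟩
  refine ⟨k1, k2, k3, fun k => ?_, k5, fun k N x => ?_, fun φ hφ cφ hb k => ?_,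
    fun φ ψ hφ hψ cφ cψ hb1 hb2 k n N x => ?_, k9⟩
  · obtain ⟨p1, p2, p3, p4, p5, p6, p7⟩ := k4 k
    refine ⟨p1, p2, p3, p4, p5, fun x => ?_, p7⟩
    rw [p6 x]
    have hs : ∀ x, sheet (F m k) (F m k) (F m k) (F m k) x 1 1 1 ^ 4 = step (F m k) x := by
      intro x
      have g2 := conv_ct p1 p1
      unfold step
      rw [sheet_conv p1 p1 p1 p1 p2 p2 p2 p2, Pool.Agent.Q224.MK.conv_assoc p1 p1 g2]
      simp
    rw [hs x, hs 1]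
  · rw [(cex_cnd (f := fun i => F m (k + i)) (fun i => hW _) hre hrc (N + 1)).1]
    exact k6 k N x
  · obtain ⟨v, hv⟩ := k7 φ hφ hb k
    refine ⟨v, fun n x => ?_⟩
    rw [(cex_cnd (f := fun i => F m (k + i)) (fun i => hW _) hφ cφ (n + 1)).1]
    exact hv n x
  · have q := tr1_cor (f := fun i => F m (k + i)) (fun i => hW _) hφ cφ hψ cψ n N x
    rw [q.1, q.2]
    exact k8 φ ψ hφ hψ hb1 hb2 k n N x

end Pool.Agent.Q291.MK
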