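import Pool.Agent.Q291.MK.Stm9

/-!
# Statements of the eleventh part: universality for Poisson-binomial bare laws, the Wilson loop as
# renormalised coupling
-/

namespace Pool.Agent.Q291.MK

open Filter Topology

/-- The law of the number of successes in `n` independent trials with success probabilities
`p 0, ..., p (n - 1)`. -/
noncomputable def pbl (p : ℕ → ℝ) : ℕ → ℕ → ℝ
  | 0 => fun k => if k = 0 then 1 else 0
  | n + 1 => fun k => (1 - p n) * pbl p n k + p n * (if k = 0 then 0 else pbl p n (k - 1))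

/-- Job PB: Poisson-binomial laws. -/
def P_PB : Prop := ∀ (p : ℕ → ℝ) (n : ℕ), (∀ i, 0 ≤ p i ∧ p i ≤ 1) →
  AM (pbl p n) ∧ mean (pbl p n) = ∑ i ∈ Finset.range n, p i ∧
  vr (pbl p n) ≤ mean (pbl p n) ∧ |k3 (pbl p n)| ≤ mean (pbl p n) ∧
  m8 (pbl p n) ≤ m8 (pois (mean (pbl p n))) ∧ m12 (pbl p n) ≤ m12 (pois (mean (pbl p n))) ∧
  ∀ t : ℝ, E (pbl p n) (fun k => t ^ k) = ∏ i ∈ Finset.range n, (1 - p i + p i * t)

/-- Job CA3: full convergence to a unique scaling limit, for a large class of bare actions. -/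
def P_CA3 : Prop := ∃ M1 : ℝ, 10 ≤ M1 ∧ ∀ m : ℝ, M1 ≤ m →
  (∀ N : ℕ, ∃ x : ℝ, 0 < x ∧ mean (R^[N] (pois x)) = m ∧
    ∀ y : ℝ, 0 < y → mean (R^[N] (pois y)) = m → y = x) ∧
  ∃ b : ℤ → ℕ → ℝ, (∀ (ν : ℕ → ℕ) (x : ℕ → ℝ), Tendsto ν atTop atTop → (∀ l, 0 < x l) →
    Tendsto (fun l => mean (R^[ν l] (pois (x l)))) atTop (𝓝 m) → ∀ (k : ℤ) (i : ℕ),
    Tendsto (fun l => (R^[((ν l : ℤ) + k).toNat] (pois (x l))) i) atTop (𝓝 (b k i))) ∧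
  ∀ (ν n : ℕ → ℕ) (p : ℕ → ℕ → ℝ), Tendsto ν atTop atTop →
    (∀ l i, 0 ≤ p l i ∧ p l i ≤ 1) →
    Tendsto (fun l => mean (R^[ν l] (pbl (p l) (n l)))) atTop (𝓝 m) → ∀ (k : ℤ) (i : ℕ),
    Tendsto (fun l => (R^[((ν l : ℤ) + k).toNat] (pbl (p l) (n l))) i) atTop (𝓝 (b k i))

/-- Job WMON: the Wilson loop increases with the bare coupling, quantitatively. -/
def P_WMON : Prop := ∀ C3 C8 C12 M e C : ℝ, Cst C3 C8 C12 M e C → ∃ M3 c : ℝ, M ≤ M3 ∧ 0 < c ∧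
  ∀ (N : ℕ) (x1 x2 : ℝ), 0 < x1 → x1 ≤ x2 → M3 ≤ mean (R^[N] (pois x1)) →
  c * (mean (R^[N] (pois x2)) - mean (R^[N] (pois x1))) ≤
    mean (R^[N] (pois x2)) ^ 2 * (W (R^[N] (pois x2)) - W (R^[N] (pois x1)))

/-- Job CW: a Wilson loop close to one determines the renormalised coupling. -/
def P_CW : Prop := ∀ M4 : ℝ, ∃ w0 : ℝ, w0 < 1 ∧ ∀ w : ℝ, w0 < w → w < 1 → ∃ m : ℝ, M4 ≤ m ∧
  ∀ (ν : ℕ → ℕ) (x : ℕ → ℝ), Tendsto ν atTop atTop → (∀ l, 0 < x l) →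
  Tendsto (fun l => W (R^[ν l] (pois (x l)))) atTop (𝓝 w) →
  Tendsto (fun l => mean (R^[ν l] (pois (x l)))) atTop (𝓝 m)

end Pool.Agent.Q291.MK
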