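import Pool.Agent.Q291.MK.Base2
import Pool.Agent.Q291.MK.Stm11
import Pool.Agent.Q174.MK.CC
import Pool.Agent.Q174.MK.PB
import Pool.Agent.Q52.MK.CA3
import Pool.Agent.Q52.MK.CW
import Pool.Agent.Q151.MK.WMON

/-!
# All facts of the last part, unconditionally
-/

namespace Pool.Agent.Q291.MK

theorem bCC : P_CC := Pool.Agent.Q174.MK.t_CC
theorem bPB : P_PB := Pool.Agent.Q174.MK.t_PB
theorem bCA3 : P_CA3 := Pool.Agent.Q52.MK.CA3.t_CA3 bPB
theorem bWMON : P_WMON := Pool.Agent.Q151.MK.t_WMON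
theorem bCW : P_CW := Pool.Agent.Q52.MK.CW.t_CW bWMON

end Pool.Agent.Q291.MK
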