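import Mathlib

/-!
# The Migdal-Kadanoff recursion for SU(2) as a recursion of probability laws on ℕ: definitions
-/

namespace Pool.Agent.Q291.MK

/-- The generalised binomial coefficient `x (x-1) ... (x-k+1) / k!`. -/
noncomputable def gb (x : ℝ) : ℕ → ℝ
  | 0 => 1
  | (k+1) => gb x k * (x - k) / (k + 1)

/-- `I n`: the Haar integral of `((1 + Re g) / 2) ^ n` over the unit quaternions. -/
noncomputable def I : ℕ → ℝ
  | 0 => 1
  | (n+1) => I n * ((2 * n + 3) / (2 * n + 6))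

/-- The hypergeometric weights: `K` draws without replacement from a population of size
`K + L + 1/2` with `L` marked elements. -/
noncomputable def hyp (K L j : ℕ) : ℝ :=
  if j ≤ K then (L.choose j : ℝ) * gb (K + 1/2) (K - j) / gb (K + L + 1/2) K else 0

/-- Expectation of `φ` under `hyp K L`. -/
noncomputable def H (K L : ℕ) (φ : ℕ → ℝ) : ℝ := ∑ j ∈ Finset.range (K + 1), hyp K L j * φ j

/-- Mean of `hyp K L`. -/
noncomputable def hm (K L : ℕ) : ℝ := K * L / (K + L + 1/2)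

/-- Variance of `hyp K L`. -/
noncomputable def hv (K L : ℕ) : ℝ := hm K L * (hm K L + 1/2) / (K + L - 1/2)

/-- Third central moment of `hyp K L`. -/
noncomputable def h3 (K L : ℕ) : ℝ :=
  hv K L * (1/4 - ((K:ℝ) - L) ^ 2) / ((K + L + 1/2) * (K + L - 3/2))

/-- Probability laws on `ℕ`. -/
structure Law (a : ℕ → ℝ) : Prop where
  nn : ∀ k, 0 ≤ a k
  one : HasSum a 1

/-- Laws all of whose moments are finite. -/
structure AM (a : ℕ → ℝ) : Prop extends Law a where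
  mom : ∀ q : ℕ, Summable fun k => a k * (k:ℝ) ^ q

/-- Expectation. -/
noncomputable def E (a : ℕ → ℝ) (φ : ℕ → ℝ) : ℝ := ∑' k, a k * φ k

/-- Expectation over two independent copies. -/
noncomputable def E2 (a : ℕ → ℝ) (φ : ℕ → ℕ → ℝ) : ℝ := ∑' p : ℕ × ℕ, a p.1 * a p.2 * φ p.1 p.2

/-- Expectation over two copies with the weight `I (K + L)`. -/
noncomputable def Ew (a : ℕ → ℝ) (φ : ℕ → ℕ → ℝ) : ℝ :=
  E2 a (fun K L => I (K + L) * φ K L) / E2 a (fun K L => I (K + L))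

/-- The law of the convolution square. -/
noncomputable def T (a : ℕ → ℝ) (j : ℕ) : ℝ := Ew a (fun K L => hyp K L j)

/-- The law of the square. -/
noncomputable def S (a : ℕ → ℝ) (k : ℕ) : ℝ := ∑ p ∈ Finset.HasAntidiagonal.antidiagonal k, a p.1 * a p.2

/-- One Migdal-Kadanoff step (scale factor 2, dimension 4). -/
noncomputable def R (a : ℕ → ℝ) : ℕ → ℝ := S (S (T (T a)))

noncomputable def mean (a : ℕ → ℝ) : ℝ := E a (fun k => k)
noncomputable def vr (a : ℕ → ℝ) : ℝ := E a (fun k => ((k:ℝ) - mean a) ^ 2)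
noncomputable def k3 (a : ℕ → ℝ) : ℝ := E a (fun k => ((k:ℝ) - mean a) ^ 3)
noncomputable def m8 (a : ℕ → ℝ) : ℝ := E a (fun k => ((k:ℝ) - mean a) ^ 8)
/-- Second moment. -/
noncomputable def q2 (a : ℕ → ℝ) : ℝ := E a (fun k => (k:ℝ) ^ 2)

/-- The Wilson loop. -/
noncomputable def W (a : ℕ → ℝ) : ℝ := E a (fun k => I k * (k / (k + 3))) / E a I

/-- The class of laws which is preserved at weak coupling. -/
structure Cls (C3 C8 : ℝ) (a : ℕ → ℝ) : Prop extends AM a where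
  vr_le : vr a ≤ mean a
  k3_le : |k3 a| ≤ C3 * mean a
  m8_le : m8 a ≤ C8 * mean a ^ 4

/-- Polynomially bounded functions. -/
def PB (φ : ℕ → ℝ) : Prop := ∃ (C : ℝ) (q : ℕ), ∀ k, |φ k| ≤ C * (1 + (k:ℝ)) ^ q
def PB2 (φ : ℕ → ℕ → ℝ) : Prop :=
  ∃ (C : ℝ) (q : ℕ), ∀ K L, |φ K L| ≤ C * ((1 + (K:ℝ)) * (1 + (L:ℝ))) ^ q

end Pool.Agent.Q291.MK
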