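import Pool.Agent.Q280.MK.LINK
import Pool.Agent.Q280.MK.GAP
import Pool.Agent.Q280.MK.CONT
import Pool.Agent.Q210.MK.POIS
import Pool.Agent.Q149.MK.GRP

/-!
# Densities on the group and laws
-/

namespace Pool.Agent.Q291.MK

open Filter Topology MeasureTheory Quaternion

/-- The Wilson weight of an elementary cell (one plaquette), as a function of its holonomy. -/
noncomputable def bare (β : ℝ) (x : G) : ℝ := Real.exp (β * (x : ℍ[ℝ]).re)

/-- The partition function of a cell of level `n`, as a function of its boundary holonomy. -/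
noncomputable def Z (β : ℝ) (n : ℕ) : G → ℝ := step^[n] (bare β)

/-- The conditional expectation of an observable `φ` of a plaquette of level `0`, as a function of
the boundary holonomy of the cell of level `n` which contains it, if `f n` is the density of level
`n`. -/
noncomputable def cnd (f : ℕ → G → ℝ) (φ : G → ℝ) : ℕ → G → ℝ
  | 0 => φ
  | n + 1 => Qop (f n) (cnd f φ n)

theorem hHYP1 : P_HYP1 := Pool.Agent.Q280.MK.t_HYP1
theorem hGRP : P_GRP := Pool.Agent.Q149.MK.t_GRP hHYP1
theorem hLINK : P_LINK := Pool.Agent.Q280.MK.t_LINK hGRP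
theorem hPOIS : P_POIS := Pool.Agent.Q210.MK.t_POIS
theorem hCONT : P_CONT := Pool.Agent.Q280.MK.t_CONT hHYP1
theorem hGAP : P_GAP := Pool.Agent.Q280.MK.t_GAP

lemma law_T {a : ℕ → ℝ} (ha : Law a) : Law (T a) :=
  (hCONT (fun _ => a) a (fun _ => ha) ha (fun _ => tendsto_const_nhds)).2.2.2.2.1
lemma law_S {a : ℕ → ℝ} (ha : Law a) : Law (S a) :=
  (hCONT (fun _ => a) a (fun _ => ha) ha (fun _ => tendsto_const_nhds)).2.2.2.2.2.1
lemma law_R {a : ℕ → ℝ} (ha : Law a) : Law (R a) := law_S (law_S (law_T (law_T ha)))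
lemma law_it {a : ℕ → ℝ} (ha : Law a) (n : ℕ) : Law (R^[n] a) := by
  induction n with
  | zero => exact ha
  | succ n ih => rw [Function.iterate_succ_apply']; exact law_R ih

lemma conv_smul (c d : ℝ) (f g : G → ℝ) (x : G) :
    conv (fun y => c * f y) (fun y => d * g y) x = c * d * conv f g x := by
  unfold conv
  rw [← integral_const_mul]
  congr 1; funext y; ring

lemma step_smul (c : ℝ) (f : G → ℝ) (x : G) :
    step (fun y => c * f y) x = c ^ 16 * step f x := by
  unfold step
  have h1 : conv (fun y => c * f y) (fun y => c * f y) = fun x => (c * c) * conv f f x := by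
    funext x; exact conv_smul c c f f x
  rw [h1, conv_smul]; ring

/-- One step for densities of laws. -/
lemma step_fn {a : ℕ → ℝ} (ha : Law a) : ∃ c : ℝ, 0 < c ∧ ∀ x, step (fn a) x = c * fn (R a) x := by
  obtain ⟨h1, -, -, h1p, -⟩ := hLINK a ha
  obtain ⟨h2, -, -, h2p, -⟩ := hLINK (T a) (law_T ha)
  obtain ⟨-, h3, -⟩ := hLINK (T (T a)) (law_T (law_T ha))
  obtain ⟨-, h4, -⟩ := hLINK (S (T (T a))) (law_S (law_T (law_T ha)))
  set z1 := E2 a (fun K L => I (K + L)) with hz1
  set z2 := E2 (T a) (fun K L => I (K + L)) with hz2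
  refine ⟨(z1 * z1 * z2) ^ 4, by positivity, fun x => ?_⟩
  have h5 : conv (fn a) (fn a) = fun x => z1 * fn (T a) x := funext h1
  unfold step
  rw [h5, conv_smul, h2]
  have h6 : fn (R a) x = fn (T (T a)) x ^ 4 := by
    rw [show R a = S (S (T (T a))) from rfl, ← h4, ← h3]; ring
  rw [h6]; ring

lemma bare_fn (β : ℝ) (hβ : 0 ≤ β) (x : G) : bare β x = Real.exp β * fn (pois (2 * β)) x := by
  obtain ⟨-, -, -, -, -, h⟩ := hPOIS (2 * β) (by linarith)
  unfold fn
  rw [h (tt x), ← Real.exp_add]
  unfold bare tt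
  congr 1; ring

/-- The partition function of a cell of level `n` in terms of laws. -/
theorem Z_fn (β : ℝ) (hβ : 0 ≤ β) (n : ℕ) :
    ∃ c : ℝ, 0 < c ∧ ∀ x, Z β n x = c * fn (R^[n] (pois (2 * β))) x := by
  induction n with
  | zero => exact ⟨Real.exp β, Real.exp_pos _, fun x => bare_fn β hβ x⟩
  | succ n ih =>
    obtain ⟨c, hc, h⟩ := ih
    have hl : Law (R^[n] (pois (2 * β))) := law_it (hPOIS _ (by linarith)).1.toLaw n
    obtain ⟨d, hd, h'⟩ := step_fn hl
    refine ⟨c ^ 16 * d, by positivity, fun x => ?_⟩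
    have e : Z β n = fun x => c * fn (R^[n] (pois (2 * β))) x := funext h
    have e2 : Z β (n + 1) = step (Z β n) := by unfold Z; rw [Function.iterate_succ_apply']
    rw [e2, e, step_smul, h', Function.iterate_succ_apply']
    ring

lemma wil_smul (c : ℝ) (hc : c ≠ 0) (f : G → ℝ) : wil (fun x => c * f x) = wil f := by
  unfold wil
  have h1 : ∫ x, ((x : ℍ[ℝ]).re) * (c * f x) ∂haar = c * ∫ x, ((x : ℍ[ℝ]).re) * f x ∂haar := by
    rw [← integral_const_mul]; congr 1; funext y; ring
  rw [h1, integral_const_mul, mul_div_mul_left _ _ hc]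

/-- The Wilson loop of level `n`. -/
theorem wil_Z (β : ℝ) (hβ : 0 ≤ β) (n : ℕ) : wil (Z β n) = W (R^[n] (pois (2 * β))) := by
  obtain ⟨c, hc, h⟩ := Z_fn β hβ n
  rw [show Z β n = fun x => c * fn (R^[n] (pois (2 * β))) x from funext h, wil_smul c hc.ne']
  exact (hLINK _ (law_it (hPOIS _ (by linarith)).1.toLaw n)).2.2.1

/-- The normalised partition function. -/
theorem Z_div (β : ℝ) (hβ : 0 ≤ β) (n : ℕ) (x : G) :
    Z β n x / Z β n 1 = fn (R^[n] (pois (2 * β))) x := by
  obtain ⟨c, hc, h⟩ := Z_fn β hβ n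
  have h1 := (hLINK _ (law_it (hPOIS (2 * β) (by linarith)).1.toLaw n)).2.2.2.2.2.2.1
  rw [h x, h 1, h1, mul_one, mul_div_cancel_left₀ _ hc.ne']

lemma Qop_smul (c : ℝ) (hc : c ≠ 0) (f φ : G → ℝ) (x : G) :
    Qop (fun y => c * f y) φ x = Qop f φ x := by
  unfold Qop
  have h1 : conv (fun y => c * f y) (fun y => c * f y) = fun x => (c * c) * conv f f x := by
    funext x; exact conv_smul c c f f x
  have h2 : conv (fun y => c * f y) (conv (fun y => c * f y) (fun y => c * f y)) =
      fun x => (c * (c * c)) * conv f (conv f f) x := by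
    funext x; rw [h1, conv_smul]
  have h3 : conv (fun y => c * f y) (conv (fun y => c * f y) (conv (fun y => c * f y)
      (fun y => c * f y))) x = (c * (c * (c * c))) * conv f (conv f (conv f f)) x := by
    rw [h2, conv_smul]
  have h4 : conv (fun y => φ y * (c * f y)) (conv (fun y => c * f y) (conv (fun y => c * f y)
      (fun y => c * f y))) x = (c * (c * (c * c))) * conv (fun y => φ y * f y)
        (conv f (conv f f)) x := by
    rw [h2]
    have : (fun y => φ y * (c * f y)) = fun y => c * (φ y * f y) := by funext y; ring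
    rw [this, conv_smul]
  rw [h3, h4, mul_div_mul_left]
  positivity

end Pool.Agent.Q291.MK
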