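import Pool.Agent.Q291.MK.Fin

/-!
# Conditional expectations, uniform convergence, the neighbourhood of the identity
-/

namespace Pool.Agent.Q291.MK

open Filter Topology MeasureTheory Quaternion

lemma tt_nonneg (x : G) : 0 ≤ tt x := by
  unfold tt
  have h : ‖(x : ℍ[ℝ])‖ = 1 := by simpa using x.2
  have h1 : (x : ℍ[ℝ]).re ^ 2 ≤ 1 := by
    have h2 : Quaternion.normSq (x : ℍ[ℝ]) = 1 := by
      rw [Quaternion.normSq_eq_norm_mul_self, h]; norm_num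
    rw [Quaternion.normSq_def'] at h2
    nlinarith [sq_nonneg (x : ℍ[ℝ]).imI, sq_nonneg (x : ℍ[ℝ]).imJ, sq_nonneg (x : ℍ[ℝ]).imK]
  nlinarith [sq_nonneg ((x : ℍ[ℝ]).re + 1), sq_nonneg ((x : ℍ[ℝ]).re - 1), abs_le_of_sq_le_sq' (by simpa using h1 : (x : ℍ[ℝ]).re ^ 2 ≤ 1 ^ 2) (by norm_num)]

lemma tt_le_one (x : G) : tt x ≤ 1 := by
  unfold tt
  have h : ‖(x : ℍ[ℝ])‖ = 1 := by simpa using x.2
  have h1 : (x : ℍ[ℝ]).re ^ 2 ≤ 1 := by
    have h2 : Quaternion.normSq (x : ℍ[ℝ]) = 1 := by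
      rw [Quaternion.normSq_eq_norm_mul_self, h]; norm_num
    rw [Quaternion.normSq_def'] at h2
    nlinarith [sq_nonneg (x : ℍ[ℝ]).imI, sq_nonneg (x : ℍ[ℝ]).imJ, sq_nonneg (x : ℍ[ℝ]).imK]
  have h2 := abs_le_of_sq_le_sq' (by simpa using h1 : (x : ℍ[ℝ]).re ^ 2 ≤ 1 ^ 2) (by norm_num)
  linarith [h2.2]

lemma Law.le_one {a : ℕ → ℝ} (ha : Law a) (k : ℕ) : a k ≤ 1 := by
  have := ha.one.summable.sum_le_tsum {k} (fun i _ => ha.nn i)
  rw [ha.one.tsum_eq] at this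
  simpa using this

lemma Law.summ_bdd {a : ℕ → ℝ} (ha : Law a) {φ : ℕ → ℝ} {c : ℝ} (h : ∀ k, |φ k| ≤ c) :
    Summable fun k => a k * φ k := by
  refine Summable.of_norm_bounded (ha.one.summable.mul_right c) fun k => ?_
  rw [Real.norm_eq_abs, abs_mul, abs_of_nonneg (ha.nn k)]
  exact mul_le_mul_of_nonneg_left (h k) (ha.nn k)

lemma pow_tt_abs (x : G) (k : ℕ) : |tt x ^ k| ≤ 1 := by
  rw [abs_of_nonneg (pow_nonneg (tt_nonneg x) k)]
  exact pow_le_one₀ (tt_nonneg x) (tt_le_one x)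

lemma fn_pos {a : ℕ → ℝ} (ha : Law a) {x : G} (hx : 0 < tt x) : 0 < fn a x := by
  obtain ⟨k, hk⟩ := ha.mass_pos
  unfold fn E
  exact (ha.summ_bdd (pow_tt_abs x)).tsum_pos
    (fun i => mul_nonneg (ha.nn i) (pow_nonneg hx.le i)) k (mul_pos hk (pow_pos hx k))

lemma fn_cont {a : ℕ → ℝ} (ha : Law a) : Continuous (fn a) := (hLINK a ha).2.2.2.2.1
lemma fn_bd {a : ℕ → ℝ} (ha : Law a) (x : G) : a 0 ≤ fn a x ∧ fn a x ≤ 1 :=
  (hLINK a ha).2.2.2.2.2.1 x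
lemma fn_one {a : ℕ → ℝ} (ha : Law a) : fn a 1 = 1 := (hLINK a ha).2.2.2.2.2.2.1

lemma Qop_const_smul {f g : G → ℝ} {c : ℝ} (hc : c ≠ 0) (h : ∀ x, f x = c * g x) (φ : G → ℝ) :
    Qop f φ = Qop g φ := by
  funext x
  rw [show f = fun y => c * g y from funext h]
  exact Qop_smul c hc g φ x

/-- Oscillation of conditional expectations. -/
theorem cnd_osc {a : ℕ → ℕ → ℝ} (ha : ∀ n, Law (a n)) {f : ℕ → G → ℝ}
    (hf : ∀ n, ∃ c : ℝ, c ≠ 0 ∧ ∀ x, f n x = c * fn (a n) x) {φ : G → ℝ} (hφ : Continuous φ)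
    {δ : ℝ} (hδ : ∀ x y, |φ x - φ y| ≤ δ) (n : ℕ) :
    (Continuous (cnd f φ n) ∧ ∀ x y, |cnd f φ n x - cnd f φ n y| ≤ δ) ∧
    ∀ x y, |cnd f φ (n + 1) x - cnd f φ (n + 1) y| ≤ 4 * (1 - a n 0) * δ := by
  have key : ∀ n, (Continuous (cnd f φ n) ∧ ∀ x y, |cnd f φ n x - cnd f φ n y| ≤ δ) →
      (Continuous (cnd f φ (n + 1)) ∧ ∀ x y, |cnd f φ (n + 1) x - cnd f φ (n + 1) y| ≤ δ) ∧
      ∀ x y, |cnd f φ (n + 1) x - cnd f φ (n + 1) y| ≤ 4 * (1 - a n 0) * δ := by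
    intro n ⟨h1, h2⟩
    obtain ⟨c, hc, h⟩ := hf n
    have e : cnd f φ (n + 1) = Qop (fn (a n)) (cnd f φ n) := Qop_const_smul hc h _
    obtain ⟨g1, g2, g3⟩ := hGAP (fn (a n)) (fn_cont (ha n))
      (fun x => ((ha n).nn 0).trans (fn_bd (ha n) x).1) (fun x hx => fn_pos (ha n) hx)
      (cnd f φ n) δ h1 h2
    rw [e]
    exact ⟨⟨g1, g2⟩, g3 (1 - a n 0) (by linarith [(ha n).le_one 0]) fun x =>
      ⟨by linarith [(fn_bd (ha n) x).1], (fn_bd (ha n) x).2⟩⟩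
  have hall : ∀ n, Continuous (cnd f φ n) ∧ ∀ x y, |cnd f φ n x - cnd f φ n y| ≤ δ := by
    intro n
    induction n with
    | zero => exact ⟨hφ, hδ⟩
    | succ n ih => exact (key n ih).1
  exact ⟨hall n, (key n (hall n)).2⟩

/-- Uniform distance of densities. -/
lemma fn_dist {a b : ℕ → ℝ} (ha : Law a) (hb : Law b) (x : G) :
    |fn a x - fn b x| ≤ ∑' k, |a k - b k| := by
  have hs : Summable fun k => |a k - b k| :=
    Summable.of_nonneg_of_le (fun _ => abs_nonneg _) (fun k => (abs_sub _ _).trans (by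
      rw [abs_of_nonneg (ha.nn k), abs_of_nonneg (hb.nn k)]))
      (ha.one.summable.add hb.one.summable)
  unfold fn E
  rw [← (ha.summ_bdd (pow_tt_abs x)).tsum_sub (hb.summ_bdd (pow_tt_abs x))]
  have h1 : ∀ k, ‖a k * tt x ^ k - b k * tt x ^ k‖ ≤ |a k - b k| := fun k => by
    rw [← sub_mul, Real.norm_eq_abs, abs_mul]
    exact mul_le_of_le_one_right (abs_nonneg _) (pow_tt_abs x k)
  exact (norm_tsum_le_tsum_norm (Summable.of_nonneg_of_le (fun _ => norm_nonneg _) h1 hs)).trans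
    (Summable.tsum_le_tsum h1 (Summable.of_nonneg_of_le (fun _ => norm_nonneg _) h1 hs) hs)

/-- Pointwise convergence of laws gives uniform convergence of densities. -/
theorem fn_unif {a : ℕ → ℕ → ℝ} {b : ℕ → ℝ} (ha : ∀ n, Law (a n)) (hb : Law b)
    (h : ∀ k, Tendsto (fun n => a n k) atTop (𝓝 (b k))) :
    TendstoUniformly (fun n => fn (a n)) (fn b) atTop := by
  have h1 := (hCONT a b ha hb h).1
  rw [Metric.tendstoUniformly_iff]
  intro ε hε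
  filter_upwards [h1.eventually (gt_mem_nhds hε)] with n hn x
  rw [Real.dist_eq, abs_sub_comm]
  exact (fn_dist (ha n) hb x).trans_lt hn

end Pool.Agent.Q291.MK
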