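import Pool.Agent.Q291.MK.Fin2
import Pool.Agent.Q291.MK.Base

/-!
# Renormalised coupling, assembly on the group
-/

namespace Pool.Agent.Q291.MK

open Filter Topology MeasureTheory Quaternion

/-- The density `f` has renormalised inverse coupling `b`:
`f x / f 1 = 1 - b (1 - Re x) + o(1 - Re x)` at the identity. -/
def Ren (f : G → ℝ) (b : ℝ) : Prop :=
  Tendsto (fun x : G => (1 - f x / f 1) / (1 - (x : ℍ[ℝ]).re)) (𝓝[≠] 1) (𝓝 b)

/-- An imaginary unit. -/
def qi : ℍ[ℝ] := ⟨0, 1, 0, 0⟩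

/-- Points of the group near the identity. -/
noncomputable def ptq (s : ℝ) : ℍ[ℝ] := ((Real.cos s : ℝ) : ℍ[ℝ]) + Real.sin s • qi

lemma qi_re : qi.re = 0 := rfl
lemma qi_i : qi.imI = 1 := rfl
lemma qi_j : qi.imJ = 0 := rfl
lemma qi_k : qi.imK = 0 := rfl
lemma ptq_re (s : ℝ) : (ptq s).re = Real.cos s := by simp [ptq, qi_re]
lemma ptq_i (s : ℝ) : (ptq s).imI = Real.sin s := by simp [ptq, qi_i]
lemma ptq_j (s : ℝ) : (ptq s).imJ = 0 := by simp [ptq, qi_j]
lemma ptq_k (s : ℝ) : (ptq s).imK = 0 := by simp [ptq, qi_k]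

lemma ptq_norm (s : ℝ) : ‖ptq s‖ = 1 := by
  have h : Quaternion.normSq (ptq s) = 1 := by
    rw [Quaternion.normSq_def', ptq_re, ptq_i, ptq_j, ptq_k]; simp
  rw [Quaternion.normSq_eq_norm_mul_self] at h
  nlinarith [norm_nonneg (ptq s), h]

noncomputable def pt (s : ℝ) : G := ⟨ptq s, by
    rw [mem_sphere_zero_iff_norm]; exact ptq_norm s⟩

lemma pt_re (s : ℝ) : ((pt s : G) : ℍ[ℝ]).re = Real.cos s := ptq_re s

lemma pt_cont : Continuous pt := by
  refine Continuous.subtype_mk ?_ _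
  exact (Quaternion.continuous_coe.comp Real.continuous_cos).add
    (Real.continuous_sin.smul continuous_const)

lemma pt_zero : pt 0 = 1 := by
  apply Subtype.ext
  show ptq 0 = (1 : ℍ[ℝ])
  ext
  · rw [ptq_re]; simp
  · rw [ptq_i]; simp
  · rw [ptq_j]; simp
  · rw [ptq_k]; simp

instance nebot_one : (𝓝[≠] (1 : G)).NeBot := by
  have h1 : Tendsto pt (𝓝[>] 0) (𝓝[≠] (1 : G)) := by
    rw [tendsto_nhdsWithin_iff]
    refine ⟨?_, ?_⟩
    · have := (pt_cont.tendsto 0).mono_left (nhdsWithin_le_nhds (s := Set.Ioi 0))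
      rwa [pt_zero] at this
    · have hpi : (0:ℝ) < Real.pi := Real.pi_pos
      filter_upwards [Ioo_mem_nhdsGT hpi] with s hs
      intro h
      have h2 : Real.cos s = 1 := by
        rw [← pt_re, h]; simp
      have h3 : Real.cos s < 1 := by
        have := Real.cos_lt_cos_of_nonneg_of_le_pi le_rfl hs.2.le hs.1
        simpa using this
      linarith
  exact h1.neBot

lemma Ren.unique {f : G → ℝ} {b b' : ℝ} (h : Ren f b) (h' : Ren f b') : b = b' :=
  tendsto_nhds_unique h h'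

lemma Ren_fn {a : ℕ → ℝ} (ha : Law a) (hs : Summable fun k => a k * (k:ℝ) ^ 2) :
    Ren (fn a) (mean a / 2) := by
  have h := (hLINK a ha).2.2.2.2.2.2.2 hs
  unfold Ren
  simpa [fn_one ha] using h

lemma Ren_congr {f g : G → ℝ} {c : ℝ} (hc : c ≠ 0) (h : ∀ x, f x = c * g x) (b : ℝ) :
    Ren f b ↔ Ren g b := by
  unfold Ren
  have : (fun x : G => (1 - f x / f 1) / (1 - (x : ℍ[ℝ]).re)) =
      fun x : G => (1 - g x / g 1) / (1 - (x : ℍ[ℝ]).re) := by
    funext x; rw [h x, h 1, mul_div_mul_left _ _ hc]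
  rw [this]

lemma am_pois {m : ℝ} (hm : 0 ≤ m) : AM (pois m) := (hPOIS m hm).1

lemma am_it {a : ℕ → ℝ} (ha : AM a) (n : ℕ) : AM (R^[n] a) := by
  induction n with
  | zero => exact ha
  | succ n ih => rw [Function.iterate_succ_apply']; exact (bRB _ ih).1

lemma Ren_Z {β : ℝ} (hβ : 0 ≤ β) (n : ℕ) (b : ℝ) :
    Ren (Z β n) b ↔ b = mean (R^[n] (pois (2 * β))) / 2 := by
  obtain ⟨c, hc, h⟩ := Z_fn β hβ n
  rw [Ren_congr hc.ne' h]
  have ham := am_it (am_pois (by linarith : (0:ℝ) ≤ 2 * β)) n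
  have h1 := Ren_fn ham.toLaw (ham.mom 2)
  exact ⟨fun h => h.unique h1, fun h => h ▸ h1⟩

end Pool.Agent.Q291.MK
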