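import Pool.Agent.Q291.MK.Stm6

/-!
# Statements of the seventh part
-/

namespace Pool.Agent.Q291.MK

open Filter Topology

/-- Job PKG: quantitative properties of every scaling limit. -/
def P_PKG : Prop := ∀ (m : ℝ) (ν : ℕ → ℕ) (x : ℕ → ℝ) (b : ℤ → ℕ → ℝ), 10 ≤ m →
  Tendsto ν atTop atTop → (∀ l, 0 < x l) →
  Tendsto (fun l => mean (R^[ν l] (pois (x l)))) atTop (𝓝 m) →
  (∀ (k : ℤ) (i : ℕ),
    Tendsto (fun l => (R^[((ν l : ℤ) + k).toNat] (pois (x l))) i) atTop (𝓝 (b k i))) →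
  ∃ C c : ℝ, 0 < C ∧ 0 < c ∧
  (∀ (j : ℕ) (t : ℝ), 0 ≤ t → t ≤ 1 →
    |E (b (-j)) (fun k => t ^ k) - t ^ (mean (b (-j)))| ≤
      C * (1 + Real.log (j + 1)) / √((j:ℝ) + 1)) ∧
  (∀ j : ℕ, |1 - W (b (-j)) - 3 / mean (b (-j))| ≤ C / (((j:ℝ) + 1) * √((j:ℝ) + 1))) ∧
  ∀ k : ℤ, 1 - b k 0 ≤ C * Real.exp (-c * (4:ℝ) ^ k)

end Pool.Agent.Q291.MK
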