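import Pool.Agent.Q291.MK.Fin3
import Pool.Agent.Q291.MK.Stm7

/-!
# Assembly of the scaling limit on the group
-/

namespace Pool.Agent.Q291.MK

open Filter Topology MeasureTheory Quaternion

/-- The partition function of a cell of level `n` for the bare action
`K * log ((1 + Re x) / 2)` per plaquette. -/
noncomputable def Zp (K n : ℕ) : G → ℝ := step^[n] (fun x => tt x ^ K)

lemma am_pw (K : ℕ) : AM (pw K) := by
  have h : ∀ φ : ℕ → ℝ, HasSum (fun k => pw K k * φ k) (φ K) := fun φ => by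
    have := hasSum_single (f := fun k => pw K k * φ k) K (fun k hk => by simp [pw, hk])
    simpa [pw] using this
  refine ⟨⟨fun k => ?_, ?_⟩, fun q => (h _).summable⟩
  · unfold pw; split_ifs <;> norm_num
  · simpa using h (fun _ => 1)

lemma fn_pw (K : ℕ) (x : G) : fn (pw K) x = tt x ^ K := by
  unfold fn E
  rw [tsum_eq_single K (fun k hk => by simp [pw, hk])]
  simp [pw]

theorem Zp_fn (K n : ℕ) :
    ∃ c : ℝ, 0 < c ∧ ∀ x, Zp K n x = c * fn (R^[n] (pw K)) x := by
  induction n with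
  | zero => exact ⟨1, one_pos, fun x => by
      show tt x ^ K = 1 * fn (pw K) x
      rw [fn_pw, one_mul]⟩
  | succ n ih =>
    obtain ⟨c, hc, h⟩ := ih
    have hl : Law (R^[n] (pw K)) := law_it (am_pw K).toLaw n
    obtain ⟨d, hd, h'⟩ := step_fn hl
    refine ⟨c ^ 16 * d, by positivity, fun x => ?_⟩
    have e : Zp K n = fun x => c * fn (R^[n] (pw K)) x := funext h
    have e2 : Zp K (n + 1) = step (Zp K n) := by unfold Zp; rw [Function.iterate_succ_apply']
    rw [e2, e, step_smul, h', Function.iterate_succ_apply']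
    ring

theorem Zp_div (K n : ℕ) (x : G) : Zp K n x / Zp K n 1 = fn (R^[n] (pw K)) x := by
  obtain ⟨c, hc, h⟩ := Zp_fn K n
  rw [h x, h 1, fn_one (law_it (am_pw K).toLaw n), mul_one, mul_div_cancel_left₀ _ hc.ne']

lemma Ren_Zp (K n : ℕ) (b : ℝ) : Ren (Zp K n) b ↔ b = mean (R^[n] (pw K)) / 2 := by
  obtain ⟨c, hc, h⟩ := Zp_fn K n
  rw [Ren_congr hc.ne' h]
  have ham := am_it (am_pw K) n
  have h1 := Ren_fn ham.toLaw (ham.mom 2)
  exact ⟨fun h => h.unique h1, fun h => h ▸ h1⟩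

/-- A finite set of values is bounded. -/
lemma bdd_small (f : ℕ → ℝ) (N : ℕ) : ∃ C : ℝ, 0 < C ∧ ∀ n < N, f n ≤ C := by
  induction N with
  | zero => exact ⟨1, one_pos, fun n hn => absurd hn (Nat.not_lt_zero n)⟩
  | succ N ih =>
    obtain ⟨C, hC, h⟩ := ih
    refine ⟨C + |f N|, by positivity, fun n hn => ?_⟩
    rcases Nat.lt_succ_iff_lt_or_eq.mp hn with h1 | rfl
    · exact (h n h1).trans (by linarith [abs_nonneg (f N)])
    · linarith [le_abs_self (f n)]

theorem finB (hCA : P_CA2) (hPROP : P_PROP) (hPR : P_PR2) (hPKG : P_PKG) :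
    ∃ (M : ℝ) (F : ℝ → ℤ → G → ℝ), 0 < M ∧
  (∀ m : ℝ, M ≤ m →
    (∀ N : ℕ, ∃ β : ℝ, 0 < β ∧ Ren (Z β N) m ∧
      ∀ β' : ℝ, 0 < β' → Ren (Z β' N) m → β' = β) ∧
    (∀ (ν : ℕ → ℕ) (β b : ℕ → ℝ), Tendsto ν atTop atTop → (∀ l, 0 < β l) →
      (∀ l, Ren (Z (β l) (ν l)) (b l)) → Tendsto b atTop (𝓝 m) → ∀ k : ℤ,
      TendstoUniformly (fun l x => Z (β l) ((ν l + k).toNat) x / Z (β l) ((ν l + k).toNat) 1)
        (F m k) atTop) ∧
    (∀ (ν K : ℕ → ℕ) (b : ℕ → ℝ), Tendsto ν atTop atTop →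
      (∀ l, Ren (Zp (K l) (ν l)) (b l)) → Tendsto b atTop (𝓝 m) → ∀ k : ℤ,
      TendstoUniformly (fun l x => Zp (K l) ((ν l + k).toNat) x / Zp (K l) ((ν l + k).toNat) 1)
        (F m k) atTop) ∧
    (∀ k : ℤ, Continuous (F m k) ∧ F m k 1 = 1 ∧ (∀ x, 0 ≤ F m k x ∧ F m k x ≤ 1) ∧
      (∀ x, F m (k + 1) x = step (F m k) x / step (F m k) 1) ∧
      0 < wil (F m k) ∧ wil (F m k) < 1) ∧
    ∃ (C c σ : ℝ) (b : ℤ → ℝ), 0 < C ∧ 0 < c ∧ 0 < σ ∧ b 0 = m ∧ (∀ k, Ren (F m k) (b k)) ∧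
      (∀ (N : ℕ) (β : ℝ), 0 < β → Ren (Z β N) m →
        |β - N - 4 / 15 * Real.log (N + 1)| ≤ C) ∧
      (∀ j : ℕ, |b (-j) - j - 4 / 15 * Real.log (j + 1)| ≤ C) ∧
      (∀ k j : ℤ, k ≤ 0 → F (b k) j = F m (j + k)) ∧
      (∀ (j : ℕ) (x : G), |F m (-j) x - tt x ^ (2 * b (-j))| ≤
        C * (1 + Real.log (j + 1)) / √((j:ℝ) + 1)) ∧
      (∀ j : ℕ, |1 - wil (F m (-j)) - 3 / (2 * b (-j))| ≤ C / (((j:ℝ) + 1) * √((j:ℝ) + 1))) ∧
      Tendsto (fun n : ℕ => -Real.log (wil (F m n)) / 4 ^ n) atTop (𝓝 σ) ∧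
      ∀ φ : G → ℝ, Continuous φ → (∀ x y, |φ x - φ y| ≤ 1) → ∀ (k : ℤ) (n : ℕ) (x y : G),
        |cnd (fun i => F m (k + i)) φ (n + 1) x - cnd (fun i => F m (k + i)) φ (n + 1) y| ≤
          C * Real.exp (-c * (4:ℝ) ^ (k + n))) ∧
  (∀ w : ℝ, 0 < w → w < 1 → (∀ N : ℕ, ∃ β : ℝ, 0 < β ∧ wil (Z β N) = w) ∧
    ∀ (ν : ℕ → ℕ) (β : ℕ → ℝ), Tendsto ν atTop atTop → (∀ l, 0 < β l) →
    (∀ l, wil (Z (β l) (ν l)) = w) → ∃ (θ : ℕ → ℕ) (m : ℝ) (k0 : ℤ), StrictMono θ ∧ M ≤ m ∧
    wil (F m k0) = w ∧ ∀ k : ℤ,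
      TendstoUniformly (fun l x => Z (β (θ l)) ((ν (θ l) + k).toNat) x /
        Z (β (θ l)) ((ν (θ l) + k).toNat) 1) (F m (k + k0)) atTop) := by
  obtain ⟨M1, hM1, hA⟩ := hCA
  have hex : ∀ m : ℝ, ∃ b : ℤ → ℕ → ℝ, M1 ≤ m →
      (∀ (ν : ℕ → ℕ) (x : ℕ → ℝ), Tendsto ν atTop atTop → (∀ l, 0 < x l) →
        Tendsto (fun l => mean (R^[ν l] (pois (x l)))) atTop (𝓝 m) → ∀ (k : ℤ) (i : ℕ),
        Tendsto (fun l => (R^[((ν l : ℤ) + k).toNat] (pois (x l))) i) atTop (𝓝 (b k i))) ∧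
      ∀ (ν K : ℕ → ℕ), Tendsto ν atTop atTop →
        Tendsto (fun l => mean (R^[ν l] (pw (K l)))) atTop (𝓝 m) → ∀ (k : ℤ) (i : ℕ),
        Tendsto (fun l => (R^[((ν l : ℤ) + k).toNat] (pw (K l))) i) atTop (𝓝 (b k i)) := by
    intro m
    by_cases h : M1 ≤ m
    · obtain ⟨b, hb⟩ := (hA m h).2
      exact ⟨b, fun _ => hb⟩
    · exact ⟨fun _ _ => 0, fun h' => absurd h' h⟩
  choose B hB using hex
  have hbare : ∀ m : ℝ, M1 ≤ m → ∃ x : ℕ → ℝ, (∀ N, 0 < x N) ∧
      (∀ N, mean (R^[N] (pois (x N))) = m) ∧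
      ∀ N (y : ℝ), 0 < y → mean (R^[N] (pois y)) = m → y = x N := by
    intro m hm
    choose x h1 h2 h3 using (hA m hm).1
    exact ⟨x, h1, h2, h3⟩
  -- everything about the limit with parameter `m`
  have hmain : ∀ m : ℝ, M1 ≤ m → ∃ C0 : ℝ, (∀ k : ℤ, Law (B m k)) ∧
      (∀ k : ℤ, Summable fun i => B m k i * (i:ℝ) ^ 2) ∧
      (∀ k, B m (k + 1) = R (B m k)) ∧ mean (B m 0) = m ∧
      (∀ k, 0 < W (B m k) ∧ W (B m k) < 1) ∧
      (∀ (ν : ℕ → ℕ) (x : ℕ → ℝ), Tendsto ν atTop atTop → (∀ l, 0 < x l) →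
        Tendsto (fun l => mean (R^[ν l] (pois (x l)))) atTop (𝓝 m) → ∀ k : ℤ,
        Tendsto (fun l => mean (R^[((ν l : ℤ) + k).toNat] (pois (x l)))) atTop
          (𝓝 (mean (B m k)))) ∧
      (∃ σ : ℝ, 0 < σ ∧ Tendsto (fun n : ℕ => -Real.log (W (B m n)) / 4 ^ n) atTop (𝓝 σ)) ∧
      0 < C0 ∧ (∀ (N : ℕ) (y : ℝ), 0 < y → mean (R^[N] (pois y)) = m →
        |y / 2 - N - 4 / 15 * Real.log (N + 1)| ≤ C0) ∧
      (∀ j : ℕ, |mean (B m (-j)) - 2 * j - 8 / 15 * Real.log (j + 1)| ≤ C0) ∧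
      ∃ c : ℝ, 0 < c ∧ (∀ (j : ℕ) (t : ℝ), 0 ≤ t → t ≤ 1 →
        |E (B m (-j)) (fun k => t ^ k) - t ^ (mean (B m (-j)))| ≤
          C0 * (1 + Real.log (j + 1)) / √((j:ℝ) + 1)) ∧
      (∀ j : ℕ, |1 - W (B m (-j)) - 3 / mean (B m (-j))| ≤
        C0 / (((j:ℝ) + 1) * √((j:ℝ) + 1))) ∧
      ∀ k : ℤ, 1 - B m k 0 ≤ C0 * Real.exp (-c * (4:ℝ) ^ k) := by
    intro m hm
    obtain ⟨x, hx1, hx2, hx3⟩ := hbare m hm
    have ht : Tendsto (fun l => mean (R^[(id l : ℕ)] (pois (x l)))) atTop (𝓝 m) := by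
      simp only [id_eq, hx2]; exact tendsto_const_nhds
    have hm0 : 0 < m := by linarith
    have hconv := (hB m hm).1 id x tendsto_id hx1 ht
    obtain ⟨C1, hC1, -, p1, p2, p3, p4, p5, p6, -, -, -, -, -, p7⟩ :=
      hPROP m id x (B m) hm0 tendsto_id hx1 ht hconv
    obtain ⟨C2, c, hC2, hc, q1, q2, q3⟩ := hPKG m id x (B m) (by linarith) tendsto_id hx1 ht hconv
    obtain ⟨C3, hC3, r1, r2⟩ := hPR m id x (B m) hm0 tendsto_id hx1 ht p3
    obtain ⟨N0, hN0⟩ := eventually_atTop.mp r1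
    obtain ⟨C4, hC4, s1⟩ := bdd_small (fun N => |x N / 2 - N - 4 / 15 * Real.log (N + 1)|) N0
    have hpk : ∀ (ν : ℕ → ℕ) (x : ℕ → ℝ), Tendsto ν atTop atTop → (∀ l, 0 < x l) →
        Tendsto (fun l => mean (R^[ν l] (pois (x l)))) atTop (𝓝 m) → ∀ k : ℤ,
        Tendsto (fun l => mean (R^[((ν l : ℤ) + k).toNat] (pois (x l)))) atTop
          (𝓝 (mean (B m k))) := by
      intro ν y h1 h2 h3
      obtain ⟨_, _, -, -, -, p3', -⟩ := hPROP m ν y (B m) hm0 h1 h2 h3 ((hB m hm).1 ν y h1 h2 h3)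
      exact p3'
    refine ⟨C1 + C2 + C3 + C4, p1, p2, p4, p5, p6, hpk, p7, by positivity, ?_, ?_,
      c, hc, ?_, ?_, ?_⟩
    · intro N y hy hyN
      have e := hx3 N y hy hyN
      subst e
      rcases lt_or_ge N N0 with h | h
      · exact (s1 N h).trans (by linarith)
      · exact (hN0 N h).trans (by linarith)
    · intro j; exact (r2 j).trans (by linarith)
    · intro j t h0 h1
      refine (q1 j t h0 h1).trans ?_
      have hl : 0 ≤ Real.log ((j:ℝ) + 1) := Real.log_nonneg (by linarith [Nat.cast_nonneg (α := ℝ) j])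
      gcongr; linarith
    · intro j
      refine (q2 j).trans ?_
      gcongr; linarith
    · intro k
      refine (q3 k).trans ?_
      gcongr; linarith
  -- monotonicity of the means towards short distances
  have hmono : ∀ m : ℝ, M1 ≤ m → ∀ k : ℤ, k ≤ 0 → m ≤ mean (B m k) := by
    intro m hm k hk
    obtain ⟨x, hx1, hx2, hx3⟩ := hbare m hm
    obtain ⟨C0, -, -, -, -, -, hpk, -⟩ := hmain m hm
    have ht : Tendsto (fun l => mean (R^[(id l : ℕ)] (pois (x l)))) atTop (𝓝 m) := by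
      simp only [id_eq, hx2]; exact tendsto_const_nhds
    refine ge_of_tendsto (hpk id x tendsto_id hx1 ht k) ?_
    refine Eventually.of_forall fun l => ?_
    have hle : (((id l : ℕ) : ℤ) + k).toNat ≤ l := by
      simp only [id_eq]; omega
    have hanti : ∀ i j : ℕ, i ≤ j → mean (R^[j] (pois (x l))) ≤ mean (R^[i] (pois (x l))) := by
      intro i j hij
      induction j, hij using Nat.le_induction with
      | base => exact le_rfl
      | succ j _ ih =>
        have ham := am_it (am_pois (hx1 l).le) j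
        have h2 := (bRB _ ham).2.1
        have h3 := ham.toLaw.le_one 0
        rw [Function.iterate_succ_apply']
        linarith
    have := hanti _ _ hle
    rw [hx2 l] at this
    exact this
  refine ⟨M1 / 2, fun m k => fn (B (2 * m) k), by linarith, ?_, ?_⟩
  · intro m hm
    have hm2 : M1 ≤ 2 * m := by linarith
    obtain ⟨C0, p1, p2, p4, p5, p6, hpk, ⟨σ, hσ, p7⟩, hC0, p8, p9, c, hc, q1, q2, q3⟩ :=
      hmain (2 * m) hm2
    refine ⟨?_, ?_, ?_, ?_, ?_⟩
    · intro N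
      obtain ⟨x, hx1, hx2, hx3⟩ := hbare (2 * m) hm2
      refine ⟨x N / 2, by linarith [hx1 N], ?_, ?_⟩
      · rw [Ren_Z (by linarith [hx1 N])]
        rw [show 2 * (x N / 2) = x N by ring, hx2]; ring
      · intro β' hβ' h
        rw [Ren_Z hβ'.le] at h
        have := hx3 N (2 * β') (by linarith) (by linarith)
        linarith
    · intro ν β b hν hβ hR hb k
      have hm' : Tendsto (fun l => mean (R^[ν l] (pois (2 * β l)))) atTop (𝓝 (2 * m)) := by
        have e : (fun l => mean (R^[ν l] (pois (2 * β l)))) = fun l => 2 * b l := by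
          funext l
          have := (Ren_Z (hβ l).le (ν l) (b l)).mp (hR l)
          linarith
        rw [e]; exact hb.const_mul 2
      have h1 := (hB (2 * m) hm2).1 ν (fun l => 2 * β l) hν (fun l => by linarith [hβ l]) hm' k
      have h2 := fn_unif (a := fun l => R^[((ν l : ℤ) + k).toNat] (pois (2 * β l)))
        (fun l => law_it (am_pois (by linarith [hβ l])).toLaw _) (p1 k) h1
      have e2 : (fun l x => Z (β l) ((ν l : ℤ) + k).toNat x / Z (β l) ((ν l : ℤ) + k).toNat 1)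
          = fun l => fn (R^[((ν l : ℤ) + k).toNat] (pois (2 * β l))) := by
        funext l x; exact Z_div (β l) (hβ l).le _ x
      rw [e2]; exact h2
    · intro ν K b hν hR hb k
      have hm' : Tendsto (fun l => mean (R^[ν l] (pw (K l)))) atTop (𝓝 (2 * m)) := by
        have e : (fun l => mean (R^[ν l] (pw (K l)))) = fun l => 2 * b l := by
          funext l
          have := (Ren_Zp (K l) (ν l) (b l)).mp (hR l)
          linarith
        rw [e]; exact hb.const_mul 2
      have h1 := (hB (2 * m) hm2).2 ν K hν hm' k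
      have h2 := fn_unif (a := fun l => R^[((ν l : ℤ) + k).toNat] (pw (K l)))
        (fun l => law_it (am_pw (K l)).toLaw _) (p1 k) h1
      have e2 : (fun l x => Zp (K l) ((ν l : ℤ) + k).toNat x / Zp (K l) ((ν l : ℤ) + k).toNat 1)
          = fun l => fn (R^[((ν l : ℤ) + k).toNat] (pw (K l))) := by
        funext l x; exact Zp_div (K l) _ x
      rw [e2]; exact h2
    · intro k
      refine ⟨fn_cont (p1 k), fn_one (p1 k), fun x => ⟨((p1 k).nn 0).trans (fn_bd (p1 k) x).1,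
        (fn_bd (p1 k) x).2⟩, fun x => ?_, ?_⟩
      · obtain ⟨d, hd, h'⟩ := step_fn (p1 k)
        have e : fn (B (2 * m) (k + 1)) x = fn (R (B (2 * m) k)) x := by rw [p4 k]
        show fn (B (2 * m) (k + 1)) x = step (fn (B (2 * m) k)) x / step (fn (B (2 * m) k)) 1
        rw [h' x, h' 1, e, fn_one (law_R (p1 k)), mul_one, mul_div_cancel_left₀ _ hd.ne']
      · have e := (hLINK _ (p1 k)).2.2.1
        rw [e]; exact p6 k
    · refine ⟨4 * C0 + 1, c, σ, fun k => mean (B (2 * m) k) / 2, by positivity, hc, hσ,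
        by simp only; rw [p5]; ring, fun k => Ren_fn (p1 k) (p2 k), ?_, ?_, ?_, ?_, ?_, ?_, ?_⟩
      · intro N β hβ h
        rw [Ren_Z hβ.le] at h
        have := p8 N (2 * β) (by linarith) (by linarith)
        rw [show 2 * β / 2 = β by ring] at this
        exact this.trans (by linarith)
      · intro j
        have := p9 j
        rw [abs_le] at this ⊢
        constructor <;> linarith [this.1, this.2]
      · intro k j hk
        have hmk : M1 ≤ mean (B (2 * m) k) := hm2.trans (hmono (2 * m) hm2 k hk)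
        show fn (B (2 * (mean (B (2 * m) k) / 2)) j) = fn (B (2 * m) (j + k))
        rw [show 2 * (mean (B (2 * m) k) / 2) = mean (B (2 * m) k) by ring]
        congr 1
        funext i
        obtain ⟨x, hx1, hx2, hx3⟩ := hbare (2 * m) hm2
        have ht : Tendsto (fun l => mean (R^[(id l : ℕ)] (pois (x l)))) atTop (𝓝 (2 * m)) := by
          simp only [id_eq, hx2]; exact tendsto_const_nhds
        have h1 := (hB (2 * m) hm2).1 id x tendsto_id hx1 ht (j + k) i
        have hmk' := hpk id x tendsto_id hx1 ht k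
        have hν' : Tendsto (fun l : ℕ => ((l : ℤ) + k).toNat) atTop atTop := by
          rw [tendsto_atTop_atTop]
          intro b
          exact ⟨b + k.natAbs, fun a ha => by omega⟩
        have h2 := (hB _ hmk).1 (fun l : ℕ => ((l : ℤ) + k).toNat) x hν' hx1 (by simpa using hmk')
          j i
        refine tendsto_nhds_unique h2 (h1.congr' ?_)
        filter_upwards [eventually_ge_atTop (k.natAbs)] with l hl
        have e : ((((l : ℤ) + k).toNat : ℤ) + j).toNat = (((id l : ℕ) : ℤ) + (j + k)).toNat := by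
          simp only [id_eq]
          rw [Int.toNat_of_nonneg (by omega)]
          congr 1; ring
        show _ = _
        rw [e]
      · intro j x
        have := q1 j (tt x) (tt_nonneg x) (tt_le_one x)
        rw [show 2 * (mean (B (2 * m) (-(j:ℤ))) / 2) = mean (B (2 * m) (-(j:ℤ))) by ring]
        refine this.trans ?_
        have hl : 0 ≤ Real.log ((j:ℝ) + 1) :=
          Real.log_nonneg (by linarith [Nat.cast_nonneg (α := ℝ) j])
        gcongr; linarith
      · intro j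
        have e := (hLINK _ (p1 (-(j:ℤ)))).2.2.1
        show |1 - wil (fn (B (2 * m) (-(j:ℤ)))) - _| ≤ _
        rw [e, show 2 * (mean (B (2 * m) (-(j:ℤ))) / 2) = mean (B (2 * m) (-(j:ℤ))) by ring]
        refine (q2 j).trans ?_
        gcongr; linarith
      · refine p7.congr fun n => ?_
        show _ = -Real.log (wil (fn (B (2 * m) n))) / 4 ^ n
        rw [(hLINK _ (p1 n)).2.2.1]
      · intro φ hφ hosc k n x y
        have h1 := (cnd_osc (a := fun i : ℕ => B (2 * m) (k + i)) (fun i => p1 _)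
          (f := fun i : ℕ => fn (B (2 * m) (k + i))) (fun i => ⟨1, one_ne_zero, fun x => by simp⟩)
          hφ hosc n).2 x y
        refine h1.trans ?_
        have h2 := q3 (k + n)
        have h3 : 0 < Real.exp (-c * (4:ℝ) ^ (k + n)) := Real.exp_pos _
        nlinarith
  · intro w hw0 hw1
    obtain ⟨C, hC, hN⟩ := bBETA w hw0 hw1
    refine ⟨fun N => ?_, ?_⟩
    · obtain ⟨β, hβ, h⟩ := (hN N).1
      exact ⟨β, hβ, by rw [wil_Z β hβ.le]; exact h⟩
    · intro ν β hν hβ hW
      have hW' : ∀ l, W (R^[ν l] (pois (2 * β l))) = w := fun l => by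
        rw [← wil_Z (β l) (hβ l).le]; exact hW l
      have hb := fun l => (hN (ν l)).2 (β l) (hβ l) (hW' l)
      -- a level with large mean
      obtain ⟨j0, hj0⟩ : ∃ j0 : ℕ, M1 ≤ 2 * (j0:ℝ) - C * (1 + Real.log (j0 + 1)) := by
        have h1 : Tendsto (fun j : ℕ => 2 * (j:ℝ) - C * (1 + Real.log (j + 1))) atTop atTop := by
          have h2 : Tendsto (fun j : ℕ => Real.log ((j:ℝ) + 1) / ((j:ℝ) + 1)) atTop (𝓝 0) := by
            have h3 : Tendsto (fun x : ℝ => Real.log x / x) atTop (𝓝 0) := by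
              simpa using Real.isLittleO_log_id_atTop.tendsto_div_nhds_zero
            exact h3.comp (tendsto_atTop_add_const_right _ 1 tendsto_natCast_atTop_atTop)
          have h4 : Tendsto (fun j : ℕ => (j:ℝ) - (1 + C)) atTop atTop :=
            tendsto_atTop_add_const_right _ _ tendsto_natCast_atTop_atTop
          refine tendsto_atTop_mono' _ ?_ h4
          have h5 := h2.eventually (gt_mem_nhds (show (0:ℝ) < 1 / C by positivity))
          filter_upwards [h5] with j hj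
          have hj1 : (0:ℝ) < (j:ℝ) + 1 := by positivity
          rw [div_lt_div_iff₀ hj1 hC] at hj
          nlinarith
        exact (h1.eventually (eventually_ge_atTop M1)).exists
      set g : ℕ → ℝ := fun l => mean (R^[ν l - j0] (pois (2 * β l))) with hg
      have hgb : ∀ᶠ l in atTop, g l ∈ Set.Icc M1 (2 * j0 + C * (1 + Real.log (j0 + 1))) := by
        filter_upwards [hν.eventually (eventually_ge_atTop j0)] with l hl
        have := (hb l).2.1 j0 hl
        rw [abs_le] at this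
        constructor <;> simp only [hg] <;> linarith [this.1, this.2]
      obtain ⟨m, hmI, θ, hθ, hlim⟩ := isCompact_Icc.tendsto_subseq'
        (x := g) (s := Set.Icc M1 (2 * j0 + C * (1 + Real.log (j0 + 1)))) hgb.frequently
      have hm2 : M1 ≤ 2 * (m / 2) := by rw [show 2 * (m / 2) = m by ring]; exact hmI.1
      have hνθ : Tendsto (fun l => ν (θ l)) atTop atTop := hν.comp hθ.tendsto_atTop
      have hν' : Tendsto (fun l => ν (θ l) - j0) atTop atTop := by
        rw [tendsto_atTop_atTop] at hνθ ⊢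
        intro b
        obtain ⟨i, hi⟩ := hνθ (b + j0)
        exact ⟨i, fun a ha => by have := hi a ha; omega⟩
      have hconv := (hB (2 * (m / 2)) hm2).1 (fun l => ν (θ l) - j0) (fun l => 2 * β (θ l)) hν'
        (fun l => by linarith [hβ (θ l)])
        (by rw [show 2 * (m / 2) = m by ring]; exact hlim)
      obtain ⟨C0, p1, -⟩ := hmain _ hm2
      have hlaw : ∀ (k : ℤ) (i : ℕ), Tendsto
          (fun l => (R^[((ν (θ l) : ℤ) + k).toNat] (pois (2 * β (θ l)))) i) atTop
          (𝓝 (B (2 * (m / 2)) (k + j0) i)) := by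
        intro k i
        refine (hconv (k + j0) i).congr' ?_
        filter_upwards [hνθ.eventually (eventually_ge_atTop j0)] with l hl
        have e : (((ν (θ l) - j0 : ℕ) : ℤ) + (k + j0)).toNat = ((ν (θ l) : ℤ) + k).toNat := by
          rw [Nat.cast_sub hl]; congr 1; ring
        rw [e]
      have hlaws : ∀ l n, Law (R^[n] (pois (2 * β (θ l)))) := fun l n =>
        law_it (am_pois (by linarith [hβ (θ l)])).toLaw _
      refine ⟨θ, m / 2, j0, hθ, by linarith [hmI.1], ?_, ?_⟩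
      · have h1 := hlaw 0
        simp only [zero_add] at h1
        have h2 := (hCONT (fun l => R^[((ν (θ l) : ℤ) + 0).toNat] (pois (2 * β (θ l))))
          (B (2 * (m / 2)) j0) (fun l => hlaws l _) (p1 _) (by simpa using h1)).2.2.2.2.2.2
        have h3 : (fun l => W (R^[((ν (θ l) : ℤ) + 0).toNat] (pois (2 * β (θ l))))) =
            fun _ => w := by
          funext l
          have : ((ν (θ l) : ℤ) + 0).toNat = ν (θ l) := by simp
          rw [this]; exact hW' (θ l)
        rw [h3] at h2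
        have e := (hLINK _ (p1 (j0:ℤ))).2.2.1
        show wil (fn (B (2 * (m / 2)) (j0:ℤ))) = w
        rw [e]
        exact tendsto_nhds_unique h2 tendsto_const_nhds
      · intro k
        have h2 := fn_unif (a := fun l => R^[((ν (θ l) : ℤ) + k).toNat] (pois (2 * β (θ l))))
          (fun l => hlaws l _) (p1 _) (hlaw k)
        have e2 : (fun l x => Z (β (θ l)) ((ν (θ l) : ℤ) + k).toNat x /
              Z (β (θ l)) ((ν (θ l) : ℤ) + k).toNat 1)
            = fun l => fn (R^[((ν (θ l) : ℤ) + k).toNat] (pois (2 * β (θ l)))) := by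
          funext l x; exact Z_div (β (θ l)) (hβ (θ l)).le _ x
        rw [e2]; exact h2

end Pool.Agent.Q291.MK
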