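import Pool.Agent.Q291.MK.Fin4
import Pool.Agent.Q291.MK.Stm9

/-!
# Assembly: class functions, the area law at every bare coupling
-/

namespace Pool.Agent.Q291.MK

open Filter Topology MeasureTheory Quaternion

lemma pois_lt {m : ℝ} (hm : 0 < m) : pois m 0 < 1 := by
  unfold pois
  simp only [pow_zero, mul_one, Nat.factorial_zero, Nat.cast_one, div_one]
  rw [Real.exp_lt_one_iff]; linarith

lemma tt_class (x y : G) : tt (x * y) = tt (y * x) := by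
  unfold tt
  have : ((x * y : G) : ℍ[ℝ]).re = ((y * x : G) : ℍ[ℝ]).re := by
    show ((x : ℍ[ℝ]) * (y : ℍ[ℝ])).re = ((y : ℍ[ℝ]) * (x : ℍ[ℝ])).re
    rw [Quaternion.re_mul, Quaternion.re_mul]; ring
  rw [this]

lemma fn_class (a : ℕ → ℝ) (x y : G) : fn a (x * y) = fn a (y * x) := by
  unfold fn; rw [tt_class]

lemma Z_cont {β : ℝ} (hβ : 0 ≤ β) (n : ℕ) : Continuous (Z β n) := by
  obtain ⟨c, -, h⟩ := Z_fn β hβ n
  rw [show Z β n = fun x => c * fn (R^[n] (pois (2 * β))) x from funext h]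
  exact (fn_cont (law_it (am_pois (by linarith)).toLaw n)).const_mul c |>.congr fun _ => rfl

lemma Z_class {β : ℝ} (hβ : 0 ≤ β) (n : ℕ) (x y : G) : Z β n (x * y) = Z β n (y * x) := by
  obtain ⟨c, -, h⟩ := Z_fn β hβ n
  rw [h, h, fn_class]

/-- Iterated conditional expectations of a bounded observable. -/
lemma cnd_bd (hAV : P_AV) {a : ℕ → ℕ → ℝ} (ha : ∀ n, Law (a n)) {f : ℕ → G → ℝ}
    (hf : ∀ n, ∃ c : ℝ, c ≠ 0 ∧ ∀ x, f n x = c * fn (a n) x) {φ : G → ℝ} (hφ : Continuous φ)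
    {u v : ℝ} (h1 : ∀ x, u ≤ cnd f φ 1 x ∧ cnd f φ 1 x ≤ v) (hb : ∀ x, |φ x| ≤ 1) (N : ℕ) (x : G) :
    u ≤ cnd f φ (N + 1) x ∧ cnd f φ (N + 1) x ≤ v := by
  have hosc : ∀ x y, |φ x - φ y| ≤ 2 := fun x y => by
    rw [abs_le]
    have p := abs_le.mp (hb x)
    have q := abs_le.mp (hb y)
    constructor <;> linarith [p.1, p.2, q.1, q.2]
  induction N generalizing x with
  | zero => exact h1 x
  | succ N ih =>
    obtain ⟨c, hc, h⟩ := hf (N + 1)
    have e : cnd f φ (N + 1 + 1) = Qop (fn (a (N + 1))) (cnd f φ (N + 1)) := Qop_const_smul hc h _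
    rw [e]
    exact hAV (fn (a (N + 1))) (fn_cont (ha _)) (fun x => ((ha _).nn 0).trans (fn_bd (ha _) x).1)
      (fun x hx => fn_pos (ha _) hx) _ u v (cnd_osc ha hf hφ hosc (N + 1)).1.1 ih x

/-- The Wilson loop of the lowest cell inside a cell of any higher level. -/
lemma cnd_one (hAV : P_AV) (hONE : P_ONE) {a : ℕ → ℕ → ℝ} (ha : ∀ n, Law (a n))
    {f : ℕ → G → ℝ} (hf : ∀ n, ∃ c : ℝ, c ≠ 0 ∧ ∀ x, f n x = c * fn (a n) x) {φ : G → ℝ}
    (hφ : Continuous φ) (hb : ∀ x, |φ x| ≤ 1) (N : ℕ) (x : G) :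
    |cnd f φ (N + 1) x - ∫ y, φ y ∂haar| ≤ 16 * (1 - a 0 0) := by
  have h1 : ∀ x, |cnd f φ 1 x - ∫ y, φ y ∂haar| ≤ 16 * (1 - a 0 0) := by
    intro x
    obtain ⟨c, hc, h⟩ := hf 0
    have e : cnd f φ 1 = Qop (fn (a 0)) φ := Qop_const_smul hc h _
    rw [e]
    exact hONE (fn (a 0)) (fn_cont (ha _)) (fun x => ((ha _).nn 0).trans (fn_bd (ha _) x).1)
      (fun x hx => fn_pos (ha _) hx) φ (1 - a 0 0) hφ hb (by linarith [(ha 0).le_one 0])
      (fun x => ⟨by linarith [(fn_bd (ha 0) x).1], (fn_bd (ha 0) x).2⟩) x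
  have h2 := cnd_bd hAV ha hf hφ (u := (∫ y, φ y ∂haar) - 16 * (1 - a 0 0))
    (v := (∫ y, φ y ∂haar) + 16 * (1 - a 0 0)) (fun x => by
      have := abs_le.mp (h1 x)
      constructor <;> linarith [this.1, this.2]) hb N x
  rw [abs_le]
  constructor <;> linarith [h2.1, h2.2]

lemma Z_laws {β : ℝ} (hβ : 0 ≤ β) (n : ℕ) : (∀ i, Law (R^[n + i] (pois (2 * β)))) ∧
    ∀ i, ∃ c : ℝ, c ≠ 0 ∧ ∀ x, Z β (n + i) x = c * fn (R^[n + i] (pois (2 * β))) x := by
  refine ⟨fun i => law_it (am_pois (by linarith)).toLaw _, fun i => ?_⟩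
  obtain ⟨c, hc, h⟩ := Z_fn β hβ (n + i)
  exact ⟨c, hc.ne', h⟩

theorem finA (hMG : P_MG) (hSG : P_SG2) (hAV : P_AV) (hONE : P_ONE) (hRE : P_RE0)
    (hBLK : P_BLK) :
    (∀ (β : ℝ) (n : ℕ) (a1 a2 a3 a4 : G), 0 < β → Z β (n + 1) (a1 * a2 * a3 * a4) =
      (∫ v1, ∫ v2, ∫ v3, ∫ v4, Z β n (v1 * a1 * v2⁻¹) * Z β n (v2 * a2 * v3⁻¹) *
        Z β n (v3 * a3 * v4⁻¹) * Z β n (v4 * a4 * v1⁻¹) ∂haar ∂haar ∂haar ∂haar) ^ 4) ∧
    (∀ β : ℝ, 0 < β →
      TendstoUniformly (fun n x => Z β n x / Z β n 1) (fun _ => 1) atTop ∧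
      (∀ n, 0 < wil (Z β n) ∧ wil (Z β n) < 1) ∧
      ∃ C c : ℝ, 0 < C ∧ 0 < c ∧
        (∀ (n N : ℕ) (x : G), |cnd (fun i => Z β (n + i)) (fun y => (y : ℍ[ℝ]).re) (N + 1) x| ≤
          C * Real.exp (-c * 4 ^ n)) ∧
        ∀ φ : G → ℝ, Continuous φ → (∀ x, |φ x| ≤ 1) → ∀ (n : ℕ) (x y : G),
          |cnd (Z β) φ (n + 1) x - cnd (Z β) φ (n + 1) y| ≤ C * Real.exp (-c * 4 ^ n)) ∧
    ∃ (σ : ℝ → ℝ) (C c : ℝ), 0 < C ∧ 0 < c ∧ (∀ β : ℝ, 0 < β → 0 < σ β ∧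
        Tendsto (fun n : ℕ => -Real.log (wil (Z β n)) / 4 ^ n) atTop (𝓝 (σ β)) ∧
        ∀ n : ℕ, wil (Z β n) ≤ Real.exp (-σ β * 4 ^ n)) ∧
      ∀ β : ℝ, 2 ≤ β →
        |Real.log (σ β) + 2 * Real.log 2 * β - 8 / 15 * Real.log 2 * Real.log β| ≤ C ∧
        (∀ (n N : ℕ) (x : G), |cnd (fun i => Z β (n + i)) (fun y => (y : ℍ[ℝ]).re) (N + 1) x| ≤
          C * Real.exp (-c * σ β * 4 ^ n)) ∧
        ∀ φ : G → ℝ, Continuous φ → (∀ x, |φ x| ≤ 1) → ∀ (n : ℕ) (x y : G),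
          |cnd (Z β) φ (n + 1) x - cnd (Z β) φ (n + 1) y| ≤ C * Real.exp (-c * σ β * 4 ^ n) := by
  obtain ⟨hMG1, C1, c1, hC1, hc1, hMG2⟩ := hMG
  obtain ⟨C2, hSG⟩ := hSG
  have hre : Continuous (fun y : G => (y : ℍ[ℝ]).re) :=
    Quaternion.continuous_re.comp continuous_subtype_val
  have hreb : ∀ x : G, |(x : ℍ[ℝ]).re| ≤ 1 := by
    intro x
    have h1 := tt_nonneg x
    have h2 := tt_le_one x
    unfold tt at h1 h2
    rw [abs_le]; constructor <;> linarith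
  -- consequences of the decay of the non-constant part
  have key : ∀ (β : ℝ), 0 < β → ∀ (g : ℕ → ℝ), (∀ n, 1 - (R^[n] (pois (2 * β))) 0 ≤ g n) →
      (∀ (n N : ℕ) (x : G), |cnd (fun i => Z β (n + i)) (fun y => (y : ℍ[ℝ]).re) (N + 1) x| ≤
          16 * g n) ∧
      ∀ φ : G → ℝ, Continuous φ → (∀ x, |φ x| ≤ 1) → ∀ (n : ℕ) (x y : G),
          |cnd (Z β) φ (n + 1) x - cnd (Z β) φ (n + 1) y| ≤ 8 * g n := by
    intro β hβ g hg
    refine ⟨fun n N x => ?_, fun φ hφ hb n x y => ?_⟩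
    · obtain ⟨h1, h2⟩ := Z_laws hβ.le n
      have := cnd_one hAV hONE h1 h2 hre hreb N x
      rw [show ∫ y : G, (y : ℍ[ℝ]).re ∂haar = 0 from hRE, sub_zero] at this
      refine this.trans ?_
      have := hg n
      simp only [add_zero]
      linarith
    · obtain ⟨h1, h2⟩ := Z_laws hβ.le 0
      simp only [zero_add] at h1 h2
      have hosc : ∀ x y, |φ x - φ y| ≤ 2 := fun x y => by
        rw [abs_le]
        have p := abs_le.mp (hb x)
        have q := abs_le.mp (hb y)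
        constructor <;> linarith [p.1, p.2, q.1, q.2]
      have := (cnd_osc h1 h2 hφ hosc n).2 x y
      refine this.trans ?_
      have := hg n
      linarith
  have hst : ∀ β : ℝ, 0 < β → _ := fun β hβ =>
    bST (pois (2 * β)) (am_pois (by linarith)) (pois_lt (by linarith))
  have hsig : ∀ β : ℝ, ∃ s : ℝ, 0 < β → 0 < s ∧
      Tendsto (fun n : ℕ => -Real.log (wil (Z β n)) / 4 ^ n) atTop (𝓝 s) ∧
      ∀ n : ℕ, wil (Z β n) ≤ Real.exp (-s * 4 ^ n) := by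
    intro β
    by_cases hβ : 0 < β
    · obtain ⟨-, -, -, -, hW, -, -, s, hs, hs1, hs2, -⟩ := hst β hβ
      refine ⟨s, fun _ => ⟨hs, ?_, fun n => ?_⟩⟩
      · simpa only [wil_Z β hβ.le] using hs1
      · have h4 : (0:ℝ) < 4 ^ n := by positivity
        have h5 := hs2 n
        rw [le_div_iff₀ h4] at h5
        rw [wil_Z β hβ.le, ← Real.log_le_iff_le_exp (hW n).1]
        linarith
    · exact ⟨0, fun h => absurd h hβ⟩
  choose σ hσ using hsig
  refine ⟨?_, ?_, σ, |C2| + 16 * C1, c1, by positivity, hc1, hσ, ?_⟩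
  · intro β n a1 a2 a3 a4 hβ
    rw [hBLK (Z β n) (Z_cont hβ.le n) (Z_class hβ.le n)]
    unfold Z
    rw [Function.iterate_succ_apply']
    rfl
  · intro β hβ
    obtain ⟨C, c, hC, hc, hg⟩ := hMG1 (pois (2 * β)) (am_pois (by linarith)) (pois_lt (by linarith))
    obtain ⟨-, -, -, -, hW, -, -, -⟩ := hst β hβ
    refine ⟨?_, fun n => by rw [wil_Z β hβ.le]; exact hW n, 16 * C, c, by positivity, hc, ?_, ?_⟩
    · rw [Metric.tendstoUniformly_iff]
      intro ε hε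
      have h0 : Tendsto (fun n : ℕ => C * Real.exp (-c * 4 ^ n)) atTop (𝓝 0) := by
        rw [← mul_zero C]
        refine Tendsto.const_mul C (Real.tendsto_exp_atBot.comp ?_)
        refine Tendsto.const_mul_atTop_of_neg (by linarith) ?_
        exact tendsto_pow_atTop_atTop_of_one_lt (by norm_num)
      filter_upwards [h0.eventually (gt_mem_nhds hε)] with n hn x
      rw [Z_div β hβ.le, Real.dist_eq]
      have hl := law_it (am_pois (m := 2 * β) (by linarith)).toLaw n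
      have h1 := fn_bd hl x
      rw [abs_of_nonneg (by linarith [h1.2])]
      linarith [hg n, h1.1]
    · intro n N x
      have := (key β hβ _ hg).1 n N x
      linarith
    · intro φ hφ hb n x y
      have := (key β hβ _ hg).2 φ hφ hb n x y
      have h2 : 0 < C * Real.exp (-c * 4 ^ n) := by positivity
      linarith
  · intro β hβ
    have hβ0 : 0 < β := by linarith
    obtain ⟨hs, hs1, -⟩ := hσ β hβ0
    have hs1' : Tendsto (fun n : ℕ => -Real.log (W (R^[n] (pois (2 * β)))) / 4 ^ n) atTop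
        (𝓝 (σ β)) := by
      simpa only [wil_Z β hβ0.le] using hs1
    obtain ⟨-, hg⟩ := hMG2 β (σ β) hβ hs1'
    refine ⟨?_, ?_, ?_⟩
    · refine (hSG β (σ β) hβ hs1').trans ?_
      linarith [le_abs_self C2]
    · intro n N x
      have := (key β hβ0 _ hg).1 n N x
      have h2 : 0 ≤ |C2| * Real.exp (-c1 * σ β * 4 ^ n) := by positivity
      linarith
    · intro φ hφ hb n x y
      have := (key β hβ0 _ hg).2 φ hφ hb n x y
      have h2 : 0 ≤ |C2| * Real.exp (-c1 * σ β * 4 ^ n) := by positivity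
      have h3 : 0 < C1 * Real.exp (-c1 * σ β * 4 ^ n) := by positivity
      linarith

end Pool.Agent.Q291.MK
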