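import Pool.Agent.Q291.MK.Stm9

/-!
# Statements of the tenth part
-/

namespace Pool.Agent.Q291.MK

open Filter Topology MeasureTheory Quaternion

/-- Job CC: convergence of conditional expectations. -/
def P_CC : Prop := ∀ (f : ℕ → ℕ → G → ℝ) (g : ℕ → G → ℝ) (φ : G → ℝ), Continuous φ →
  (∀ l i, Continuous (f l i)) → (∀ l i x, 0 ≤ f l i x) → (∀ l i x, 0 < tt x → 0 < f l i x) →
  (∀ i, Continuous (g i)) → (∀ i x, 0 ≤ g i x) → (∀ i x, 0 < tt x → 0 < g i x) →
  (∀ i, TendstoUniformly (fun l x => f l i x / f l i 1) (g i) atTop) →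
  ∀ n, TendstoUniformly (fun l => cnd (f l) φ n) (cnd g φ n) atTop

end Pool.Agent.Q291.MK
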