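import Pool.Agent.Q291.MK.Fin6
import Pool.Agent.Q291.MK.Stm10
import Pool.Agent.Q291.MK.Stm11

/-!
# Assembly of the scaling limit: universality for a large class of bare actions, convergence of
# conditional expectations, the Wilson loop as renormalised coupling
-/

namespace Pool.Agent.Q291.MK

open Filter Topology MeasureTheory Quaternion

/-- The partition function of a cell of level `N` for a polynomial bare weight whose zeros are real
and at most `-1`. -/
noncomputable def Zq (p : ℕ → ℝ) (n N : ℕ) : G → ℝ :=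
  step^[N] (fun x => ∏ i ∈ Finset.range n, (1 - p i + p i * tt x))

theorem Zq_fn (hPB : P_PB) {p : ℕ → ℝ} (hp : ∀ i, 0 ≤ p i ∧ p i ≤ 1) (n N : ℕ) :
    ∃ c : ℝ, 0 < c ∧ ∀ x, Zq p n N x = c * fn (R^[N] (pbl p n)) x := by
  obtain ⟨ham, -, -, -, -, -, hg⟩ := hPB p n hp
  induction N with
  | zero => exact ⟨1, one_pos, fun x => by
      show ∏ i ∈ Finset.range n, (1 - p i + p i * tt x) = 1 * fn (pbl p n) x
      rw [one_mul, ← hg]; rfl⟩
  | succ N ih =>
    obtain ⟨c, hc, h⟩ := ih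
    have hl : Law (R^[N] (pbl p n)) := law_it ham.toLaw N
    obtain ⟨d, hd, h'⟩ := step_fn hl
    refine ⟨c ^ 16 * d, by positivity, fun x => ?_⟩
    have e : Zq p n N = fun x => c * fn (R^[N] (pbl p n)) x := funext h
    have e2 : Zq p n (N + 1) = step (Zq p n N) := by unfold Zq; rw [Function.iterate_succ_apply']
    rw [e2, e, step_smul, h', Function.iterate_succ_apply']
    ring

theorem Zq_div (hPB : P_PB) {p : ℕ → ℝ} (hp : ∀ i, 0 ≤ p i ∧ p i ≤ 1) (n N : ℕ) (x : G) :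
    Zq p n N x / Zq p n N 1 = fn (R^[N] (pbl p n)) x := by
  obtain ⟨c, hc, h⟩ := Zq_fn hPB hp n N
  rw [h x, h 1, fn_one (law_it (hPB p n hp).1.toLaw N), mul_one, mul_div_cancel_left₀ _ hc.ne']

lemma Ren_Zq (hPB : P_PB) {p : ℕ → ℝ} (hp : ∀ i, 0 ≤ p i ∧ p i ≤ 1) (n N : ℕ) (b : ℝ) :
    Ren (Zq p n N) b ↔ b = mean (R^[N] (pbl p n)) / 2 := by
  obtain ⟨c, hc, h⟩ := Zq_fn hPB hp n N
  rw [Ren_congr hc.ne' h]
  have ham := am_it (hPB p n hp).1 N
  have h1 := Ren_fn ham.toLaw (ham.mom 2)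
  exact ⟨fun h => h.unique h1, fun h => h ▸ h1⟩

theorem finD (hCA : P_CA3) (hPROP : P_PROP) (hPR : P_PR2) (hPKG : P_PKG) (hSG3 : P_SG3)
    (hMG3 : P_MG3) (hAV : P_AV) (hONE : P_ONE) (hRE : P_RE0) (hCOR : P_COR) (hPB : P_PB)
    (hCC : P_CC) (hCW : P_CW) :
    ∃ (M C0 c0 : ℝ) (F : ℝ → ℤ → G → ℝ) (σ : ℝ → ℝ), 0 < M ∧ 0 < C0 ∧ 0 < c0 ∧
  (∀ m : ℝ, M ≤ m →
    (∀ N : ℕ, ∃ β : ℝ, 0 < β ∧ Ren (Z β N) m ∧
      ∀ β' : ℝ, 0 < β' → Ren (Z β' N) m → β' = β) ∧
    (∀ (ν : ℕ → ℕ) (β b : ℕ → ℝ), Tendsto ν atTop atTop → (∀ l, 0 < β l) →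
      (∀ l, Ren (Z (β l) (ν l)) (b l)) → Tendsto b atTop (𝓝 m) → ∀ k : ℤ,
      TendstoUniformly (fun l x => Z (β l) ((ν l + k).toNat) x / Z (β l) ((ν l + k).toNat) 1)
        (F m k) atTop) ∧
    (∀ (ν : ℕ → ℕ) (β b : ℕ → ℝ), Tendsto ν atTop atTop → (∀ l, 0 < β l) →
      (∀ l, Ren (Z (β l) (ν l)) (b l)) → Tendsto b atTop (𝓝 m) → ∀ φ : G → ℝ, Continuous φ →
      ∀ (k : ℤ) (n : ℕ),
      TendstoUniformly (fun l => cnd (fun i => Z (β l) ((ν l + (k + i)).toNat)) φ n)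
        (cnd (fun i => F m (k + i)) φ n) atTop) ∧
    (∀ (ν n : ℕ → ℕ) (p : ℕ → ℕ → ℝ) (b : ℕ → ℝ), Tendsto ν atTop atTop →
      (∀ l i, 0 ≤ p l i ∧ p l i ≤ 1) →
      (∀ l, Ren (Zq (p l) (n l) (ν l)) (b l)) → Tendsto b atTop (𝓝 m) → ∀ k : ℤ,
      TendstoUniformly (fun l x => Zq (p l) (n l) ((ν l + k).toNat) x /
        Zq (p l) (n l) ((ν l + k).toNat) 1) (F m k) atTop) ∧
    (∀ k : ℤ, Continuous (F m k) ∧ (∀ x y, F m k (x * y) = F m k (y * x)) ∧ F m k 1 = 1 ∧
      (∀ x, 0 ≤ F m k x ∧ F m k x ≤ 1) ∧ (∀ x, 0 < tt x → 0 < F m k x) ∧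
      (∀ x, F m (k + 1) x = step (F m k) x / step (F m k) 1) ∧
      0 < wil (F m k) ∧ wil (F m k) < 1) ∧
    (0 < σ m ∧ Tendsto (fun n : ℕ => -Real.log (wil (F m n)) / 4 ^ n) atTop (𝓝 (σ m)) ∧
      |Real.log (σ m) + 2 * Real.log 2 * m - 8 / 15 * Real.log 2 * Real.log m| ≤ C0) ∧
    (∀ (k : ℤ) (N : ℕ) (x : G),
      |cnd (fun i => F m (k + i)) (fun y => (y : ℍ[ℝ]).re) (N + 1) x| ≤
        C0 * Real.exp (-c0 * σ m * (4:ℝ) ^ k)) ∧
    (∀ φ : G → ℝ, Continuous φ → (∀ x, |φ x| ≤ 1) → ∀ k : ℤ, ∃ e : ℝ, ∀ (n : ℕ) (x : G),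
      |cnd (fun i => F m (k + i)) φ (n + 1) x - e| ≤
        C0 * Real.exp (-c0 * σ m * (4:ℝ) ^ (k + n))) ∧
    (∀ φ ψ : G → ℝ, Continuous φ → Continuous ψ → (∀ x, |φ x| ≤ 1) → (∀ x, |ψ x| ≤ 1) →
      ∀ (k : ℤ) (n N : ℕ) (x : G),
      |cor1 (fun i => F m (k + i)) φ ψ n N x| ≤ C0 * Real.exp (-c0 * σ m * (4:ℝ) ^ (k + n)) ∧
      |cor2 (fun i => F m (k + i)) φ ψ n N x| ≤ C0 * Real.exp (-c0 * σ m * (4:ℝ) ^ (k + n))) ∧
    ∃ (C : ℝ) (b : ℤ → ℝ), 0 < C ∧ b 0 = m ∧ (∀ k, Ren (F m k) (b k)) ∧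
      (∀ (N : ℕ) (β : ℝ), 0 < β → Ren (Z β N) m →
        |β - N - 4 / 15 * Real.log (N + 1)| ≤ C) ∧
      (∀ j : ℕ, |b (-j) - j - 4 / 15 * Real.log (j + 1)| ≤ C) ∧
      (∀ k j : ℤ, k ≤ 0 → F (b k) j = F m (j + k)) ∧
      (∀ (j : ℕ) (x : G), |F m (-j) x - tt x ^ (2 * b (-j))| ≤
        C * (1 + Real.log (j + 1)) / √((j:ℝ) + 1)) ∧
      (∀ j : ℕ, |1 - wil (F m (-j)) - 3 / (2 * b (-j))| ≤ C / (((j:ℝ) + 1) * √((j:ℝ) + 1)))) ∧
  (∀ w : ℝ, 0 < w → w < 1 → (∀ N : ℕ, ∃ β : ℝ, 0 < β ∧ wil (Z β N) = w) ∧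
    ∀ (ν : ℕ → ℕ) (β : ℕ → ℝ), Tendsto ν atTop atTop → (∀ l, 0 < β l) →
    (∀ l, wil (Z (β l) (ν l)) = w) → ∃ (θ : ℕ → ℕ) (m : ℝ) (k0 : ℤ), StrictMono θ ∧ M ≤ m ∧
    wil (F m k0) = w ∧ ∀ k : ℤ,
      TendstoUniformly (fun l x => Z (β (θ l)) ((ν (θ l) + k).toNat) x /
        Z (β (θ l)) ((ν (θ l) + k).toNat) 1) (F m (k + k0)) atTop) ∧
  (∃ w0 : ℝ, w0 < 1 ∧ ∀ w : ℝ, w0 < w → w < 1 → ∃ m : ℝ, M ≤ m ∧ wil (F m 0) = w ∧
    ∀ (ν : ℕ → ℕ) (β : ℕ → ℝ), Tendsto ν atTop atTop → (∀ l, 0 < β l) →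
    Tendsto (fun l => wil (Z (β l) (ν l))) atTop (𝓝 w) → ∀ k : ℤ,
      TendstoUniformly (fun l x => Z (β l) ((ν l + k).toNat) x /
        Z (β l) ((ν l + k).toNat) 1) (F m k) atTop) := by
  obtain ⟨M1', hM1', hA'⟩ := hCA
  obtain ⟨C5, M5, hSG⟩ := hSG3
  obtain ⟨C6, c6, M6, hC6, hc6, hMG⟩ := hMG3
  obtain ⟨M1, hM1, hM5, hM6, hM7⟩ : ∃ M1 : ℝ, 10 ≤ M1 ∧ M5 ≤ M1 ∧ M6 ≤ M1 ∧ M1' ≤ M1 :=
    ⟨max M1' (max M5 M6), hM1'.trans (le_max_left _ _),
      (le_max_left _ _).trans (le_max_right _ _), (le_max_right _ _).trans (le_max_right _ _),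
      le_max_left _ _⟩
  have hA := fun (m : ℝ) (hm : M1 ≤ m) => hA' m (hM7.trans hm)
  have hex : ∀ m : ℝ, ∃ b : ℤ → ℕ → ℝ, M1 ≤ m →
      (∀ (ν : ℕ → ℕ) (x : ℕ → ℝ), Tendsto ν atTop atTop → (∀ l, 0 < x l) →
        Tendsto (fun l => mean (R^[ν l] (pois (x l)))) atTop (𝓝 m) → ∀ (k : ℤ) (i : ℕ),
        Tendsto (fun l => (R^[((ν l : ℤ) + k).toNat] (pois (x l))) i) atTop (𝓝 (b k i))) ∧
      ∀ (ν n : ℕ → ℕ) (p : ℕ → ℕ → ℝ), Tendsto ν atTop atTop →
        (∀ l i, 0 ≤ p l i ∧ p l i ≤ 1) →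
        Tendsto (fun l => mean (R^[ν l] (pbl (p l) (n l)))) atTop (𝓝 m) → ∀ (k : ℤ) (i : ℕ),
        Tendsto (fun l => (R^[((ν l : ℤ) + k).toNat] (pbl (p l) (n l))) i) atTop
          (𝓝 (b k i)) := by
    intro m
    by_cases h : M1 ≤ m
    · obtain ⟨b, hb⟩ := (hA m h).2
      exact ⟨b, fun _ => hb⟩
    · exact ⟨fun _ _ => 0, fun h' => absurd h' h⟩
  choose B hB using hex
  have hbare : ∀ m : ℝ, M1 ≤ m → ∃ x : ℕ → ℝ, (∀ N, 0 < x N) ∧
      (∀ N, mean (R^[N] (pois (x N))) = m) ∧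
      ∀ N (y : ℝ), 0 < y → mean (R^[N] (pois y)) = m → y = x N := by
    intro m hm
    choose x h1 h2 h3 using (hA m hm).1
    exact ⟨x, h1, h2, h3⟩
  -- everything about the limit with parameter `m`
  have hmain : ∀ m : ℝ, M1 ≤ m → ∃ C0 : ℝ, (∀ k : ℤ, Law (B m k)) ∧
      (∀ k : ℤ, Summable fun i => B m k i * (i:ℝ) ^ 2) ∧
      (∀ k, B m (k + 1) = R (B m k)) ∧ mean (B m 0) = m ∧
      (∀ k, 0 < W (B m k) ∧ W (B m k) < 1) ∧
      (∀ (ν : ℕ → ℕ) (x : ℕ → ℝ), Tendsto ν atTop atTop → (∀ l, 0 < x l) →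
        Tendsto (fun l => mean (R^[ν l] (pois (x l)))) atTop (𝓝 m) → ∀ k : ℤ,
        Tendsto (fun l => mean (R^[((ν l : ℤ) + k).toNat] (pois (x l)))) atTop
          (𝓝 (mean (B m k)))) ∧
      (∃ σ : ℝ, 0 < σ ∧ Tendsto (fun n : ℕ => -Real.log (W (B m n)) / 4 ^ n) atTop (𝓝 σ) ∧
        |Real.log σ + Real.log 2 * m - 8 / 15 * Real.log 2 * Real.log m| ≤ C5 ∧
        ∀ k : ℤ, 1 - B m k 0 ≤ C6 * Real.exp (-c6 * σ * (4:ℝ) ^ k)) ∧
      0 < C0 ∧ (∀ (N : ℕ) (y : ℝ), 0 < y → mean (R^[N] (pois y)) = m →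
        |y / 2 - N - 4 / 15 * Real.log (N + 1)| ≤ C0) ∧
      (∀ j : ℕ, |mean (B m (-j)) - 2 * j - 8 / 15 * Real.log (j + 1)| ≤ C0) ∧
      (∀ (j : ℕ) (t : ℝ), 0 ≤ t → t ≤ 1 →
        |E (B m (-j)) (fun k => t ^ k) - t ^ (mean (B m (-j)))| ≤
          C0 * (1 + Real.log (j + 1)) / √((j:ℝ) + 1)) ∧
      (∀ j : ℕ, |1 - W (B m (-j)) - 3 / mean (B m (-j))| ≤
        C0 / (((j:ℝ) + 1) * √((j:ℝ) + 1))) := by
    intro m hm
    obtain ⟨x, hx1, hx2, hx3⟩ := hbare m hm
    have ht : Tendsto (fun l => mean (R^[(id l : ℕ)] (pois (x l)))) atTop (𝓝 m) := by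
      simp only [id_eq, hx2]; exact tendsto_const_nhds
    have hm0 : 0 < m := by linarith
    have hconv := (hB m hm).1 id x tendsto_id hx1 ht
    obtain ⟨C1, hC1, -, p1, p2, p3, p4, p5, p6, -, -, -, -, -, σ, hσ, p7⟩ :=
      hPROP m id x (B m) hm0 tendsto_id hx1 ht hconv
    have p7a := hSG m σ id x (B m) (hM5.trans hm) tendsto_id hx1 ht hconv p7
    have p7b := (hMG m σ id x (B m) (hM6.trans hm) tendsto_id hx1 ht hconv p7).2
    obtain ⟨C2, c, hC2, hc, q1, q2, q3⟩ := hPKG m id x (B m) (by linarith) tendsto_id hx1 ht hconv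
    obtain ⟨C3, hC3, r1, r2⟩ := hPR m id x (B m) hm0 tendsto_id hx1 ht p3
    obtain ⟨N0, hN0⟩ := eventually_atTop.mp r1
    obtain ⟨C4, hC4, s1⟩ := bdd_small (fun N => |x N / 2 - N - 4 / 15 * Real.log (N + 1)|) N0
    have hpk : ∀ (ν : ℕ → ℕ) (x : ℕ → ℝ), Tendsto ν atTop atTop → (∀ l, 0 < x l) →
        Tendsto (fun l => mean (R^[ν l] (pois (x l)))) atTop (𝓝 m) → ∀ k : ℤ,
        Tendsto (fun l => mean (R^[((ν l : ℤ) + k).toNat] (pois (x l)))) atTop
          (𝓝 (mean (B m k))) := by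
      intro ν y h1 h2 h3
      obtain ⟨_, _, -, -, -, p3', -⟩ := hPROP m ν y (B m) hm0 h1 h2 h3 ((hB m hm).1 ν y h1 h2 h3)
      exact p3'
    refine ⟨C1 + C2 + C3 + C4, p1, p2, p4, p5, p6, hpk, ⟨σ, hσ, p7, p7a, p7b⟩, by positivity,
      ?_, ?_, ?_, ?_⟩
    · intro N y hy hyN
      have e := hx3 N y hy hyN
      subst e
      rcases lt_or_ge N N0 with h | h
      · exact (s1 N h).trans (by linarith)
      · exact (hN0 N h).trans (by linarith)
    · intro j; exact (r2 j).trans (by linarith)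
    · intro j t h0 h1
      refine (q1 j t h0 h1).trans ?_
      have hl : 0 ≤ Real.log ((j:ℝ) + 1) := Real.log_nonneg (by linarith [Nat.cast_nonneg (α := ℝ) j])
      gcongr; linarith
    · intro j
      refine (q2 j).trans ?_
      gcongr; linarith
  -- monotonicity of the means towards short distances
  have hmono : ∀ m : ℝ, M1 ≤ m → ∀ k : ℤ, k ≤ 0 → m ≤ mean (B m k) := by
    intro m hm k hk
    obtain ⟨x, hx1, hx2, hx3⟩ := hbare m hm
    obtain ⟨C0, -, -, -, -, -, hpk, -⟩ := hmain m hm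
    have ht : Tendsto (fun l => mean (R^[(id l : ℕ)] (pois (x l)))) atTop (𝓝 m) := by
      simp only [id_eq, hx2]; exact tendsto_const_nhds
    refine ge_of_tendsto (hpk id x tendsto_id hx1 ht k) ?_
    refine Eventually.of_forall fun l => ?_
    have hle : (((id l : ℕ) : ℤ) + k).toNat ≤ l := by
      simp only [id_eq]; omega
    have hanti : ∀ i j : ℕ, i ≤ j → mean (R^[j] (pois (x l))) ≤ mean (R^[i] (pois (x l))) := by
      intro i j hij
      induction j, hij using Nat.le_induction with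
      | base => exact le_rfl
      | succ j _ ih =>
        have ham := am_it (am_pois (hx1 l).le) j
        have h2 := (bRB _ ham).2.1
        have h3 := ham.toLaw.le_one 0
        rw [Function.iterate_succ_apply']
        linarith
    have := hanti _ _ hle
    rw [hx2 l] at this
    exact this
  have hsig : ∀ m : ℝ, ∃ s : ℝ, M1 / 2 ≤ m → 0 < s ∧
      Tendsto (fun n : ℕ => -Real.log (W (B (2 * m) n)) / 4 ^ n) atTop (𝓝 s) ∧
      |Real.log s + Real.log 2 * (2 * m) - 8 / 15 * Real.log 2 * Real.log (2 * m)| ≤ C5 ∧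
      ∀ k : ℤ, 1 - B (2 * m) k 0 ≤ C6 * Real.exp (-c6 * s * (4:ℝ) ^ k) := by
    intro m
    by_cases hm : M1 / 2 ≤ m
    · obtain ⟨C0, -, -, -, -, -, -, ⟨s, hs⟩, -⟩ := hmain (2 * m) (by linarith)
      exact ⟨s, fun _ => hs⟩
    · exact ⟨0, fun h => absurd h hm⟩
  choose σ hσa using hsig
  have hcnv : ∀ m : ℝ, M1 ≤ 2 * m → ∀ (ν : ℕ → ℕ) (β b : ℕ → ℝ), Tendsto ν atTop atTop →
      (∀ l, 0 < β l) → (∀ l, Ren (Z (β l) (ν l)) (b l)) → Tendsto b atTop (𝓝 m) → ∀ k : ℤ,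
      TendstoUniformly (fun l x => Z (β l) ((ν l + k).toNat) x / Z (β l) ((ν l + k).toNat) 1)
        (fn (B (2 * m) k)) atTop := by
    intro m hm2 ν β b hν hβ hR hb k
    obtain ⟨C0, p1, -⟩ := hmain (2 * m) hm2
    have hm' : Tendsto (fun l => mean (R^[ν l] (pois (2 * β l)))) atTop (𝓝 (2 * m)) := by
      have e : (fun l => mean (R^[ν l] (pois (2 * β l)))) = fun l => 2 * b l := by
        funext l
        have := (Ren_Z (hβ l).le (ν l) (b l)).mp (hR l)
        linarith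
      rw [e]; exact hb.const_mul 2
    have h1 := (hB (2 * m) hm2).1 ν (fun l => 2 * β l) hν (fun l => by linarith [hβ l]) hm' k
    have h2 := fn_unif (a := fun l => R^[((ν l : ℤ) + k).toNat] (pois (2 * β l)))
      (fun l => law_it (am_pois (by linarith [hβ l])).toLaw _) (p1 k) h1
    have e2 : (fun l x => Z (β l) ((ν l : ℤ) + k).toNat x / Z (β l) ((ν l : ℤ) + k).toNat 1)
        = fun l => fn (R^[((ν l : ℤ) + k).toNat] (pois (2 * β l))) := by
      funext l x; exact Z_div (β l) (hβ l).le _ x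
    rw [e2]; exact h2
  refine ⟨M1 / 2, |C5| + 1 + 300 * C6, c6, fun m k => fn (B (2 * m) k), σ, by linarith,
    by positivity, hc6, ?_, ?_, ?_⟩
  · intro m hm
    have hm2 : M1 ≤ 2 * m := by linarith
    obtain ⟨C0, p1, p2, p4, p5, p6, hpk, -, hC0, p8, p9, q1, q2⟩ :=
      hmain (2 * m) hm2
    obtain ⟨hσ, p7, p7a, q3⟩ := hσa m hm
    have hlaws : ∀ k : ℤ, (∀ i : ℕ, Law (B (2 * m) (k + i))) ∧ ∀ i : ℕ, ∃ c : ℝ, c ≠ 0 ∧
        ∀ x, fn (B (2 * m) (k + i)) x = c * fn (B (2 * m) (k + i)) x := fun k =>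
      ⟨fun i => p1 _, fun i => ⟨1, one_ne_zero, fun x => by simp⟩⟩
    have hbig : ∀ (y : ℝ) (k : ℤ), y ≤ 300 * (1 - B (2 * m) k 0) →
        y ≤ (|C5| + 1 + 300 * C6) * Real.exp (-c6 * σ m * (4:ℝ) ^ k) := by
      intro y k hy
      have h1 := q3 k
      have h2 : 0 ≤ (|C5| + 1) * Real.exp (-c6 * σ m * (4:ℝ) ^ k) := by positivity
      linarith
    refine ⟨?_, ?_, ?_, ?_, ?_, ?_, ?_, ?_, ?_, ?_⟩
    · intro N
      obtain ⟨x, hx1, hx2, hx3⟩ := hbare (2 * m) hm2
      refine ⟨x N / 2, by linarith [hx1 N], ?_, ?_⟩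
      · rw [Ren_Z (by linarith [hx1 N])]
        rw [show 2 * (x N / 2) = x N by ring, hx2]; ring
      · intro β' hβ' h
        rw [Ren_Z hβ'.le] at h
        have := hx3 N (2 * β') (by linarith) (by linarith)
        linarith
    · intro ν β b hν hβ hR hb k
      exact hcnv m hm2 ν β b hν hβ hR hb k
    · intro ν β b hν hβ hR hb φ hφ k n
      refine hCC (fun l i => Z (β l) ((ν l + (k + i)).toNat)) (fun i => fn (B (2 * m) (k + i)))
        φ hφ (fun l i => Z_cont (hβ l).le _) (fun l i x => ?_) (fun l i x hx => ?_)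
        (fun i => fn_cont (p1 _)) (fun i x => ((p1 _).nn 0).trans (fn_bd (p1 _) x).1)
        (fun i x hx => fn_pos (p1 _) hx) (fun i => hcnv m hm2 ν β b hν hβ hR hb (k + i)) n
      · obtain ⟨c, hc, h⟩ := Z_fn (β l) (hβ l).le (((ν l : ℤ) + (k + i)).toNat)
        have hl := law_it (am_pois (m := 2 * β l) (by linarith [hβ l])).toLaw
          (((ν l : ℤ) + (k + i)).toNat)
        rw [h]; exact mul_nonneg hc.le ((hl.nn 0).trans (fn_bd hl x).1)
      · obtain ⟨c, hc, h⟩ := Z_fn (β l) (hβ l).le (((ν l : ℤ) + (k + i)).toNat)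
        have hl := law_it (am_pois (m := 2 * β l) (by linarith [hβ l])).toLaw
          (((ν l : ℤ) + (k + i)).toNat)
        rw [h]; exact mul_pos hc (fn_pos hl hx)
    · intro ν n p b hν hp hR hb k
      have hm' : Tendsto (fun l => mean (R^[ν l] (pbl (p l) (n l)))) atTop (𝓝 (2 * m)) := by
        have e : (fun l => mean (R^[ν l] (pbl (p l) (n l)))) = fun l => 2 * b l := by
          funext l
          have := (Ren_Zq hPB (hp l) (n l) (ν l) (b l)).mp (hR l)
          linarith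
        rw [e]; exact hb.const_mul 2
      have h1 := (hB (2 * m) hm2).2 ν n p hν hp hm' k
      have h2 := fn_unif (a := fun l => R^[((ν l : ℤ) + k).toNat] (pbl (p l) (n l)))
        (fun l => law_it (hPB (p l) (n l) (hp l)).1.toLaw _) (p1 k) h1
      have e2 : (fun l x => Zq (p l) (n l) ((ν l : ℤ) + k).toNat x /
            Zq (p l) (n l) ((ν l : ℤ) + k).toNat 1)
          = fun l => fn (R^[((ν l : ℤ) + k).toNat] (pbl (p l) (n l))) := by
        funext l x; exact Zq_div hPB (hp l) (n l) _ x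
      rw [e2]; exact h2
    · intro k
      refine ⟨fn_cont (p1 k), fn_class _, fn_one (p1 k),
        fun x => ⟨((p1 k).nn 0).trans (fn_bd (p1 k) x).1,
        (fn_bd (p1 k) x).2⟩, fun x hx => fn_pos (p1 k) hx, fun x => ?_, ?_⟩
      · obtain ⟨d, hd, h'⟩ := step_fn (p1 k)
        have e : fn (B (2 * m) (k + 1)) x = fn (R (B (2 * m) k)) x := by rw [p4 k]
        show fn (B (2 * m) (k + 1)) x = step (fn (B (2 * m) k)) x / step (fn (B (2 * m) k)) 1
        rw [h' x, h' 1, e, fn_one (law_R (p1 k)), mul_one, mul_div_cancel_left₀ _ hd.ne']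
      · have e := (hLINK _ (p1 k)).2.2.1
        rw [e]; exact p6 k
    · refine ⟨hσ, ?_, ?_⟩
      · refine p7.congr fun n => ?_
        show _ = -Real.log (wil (fn (B (2 * m) n))) / 4 ^ n
        rw [(hLINK _ (p1 n)).2.2.1]
      · have hm0 : 0 < m := by linarith
        rw [Real.log_mul (by norm_num) hm0.ne'] at p7a
        have hl : 0 ≤ Real.log 2 := Real.log_nonneg (by norm_num)
        have hl2 : Real.log 2 ≤ 1 := by
          have := Real.log_two_lt_d9
          linarith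
        have hl3 : Real.log 2 * Real.log 2 ≤ 1 := by nlinarith
        have hl4 : 0 ≤ Real.log 2 * Real.log 2 := by positivity
        have p := abs_le.mp p7a
        have h5 := le_abs_self C5
        rw [abs_le]
        constructor <;> linarith [p.1, p.2]
    · intro k N x
      obtain ⟨h1, h2⟩ := hlaws k
      have h3 := cnd_one hAV hONE h1 h2 (φ := fun y : G => (y : ℍ[ℝ]).re)
        (Quaternion.continuous_re.comp continuous_subtype_val) (fun x => by
          have h1 := tt_nonneg x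
          have h2 := tt_le_one x
          unfold tt at h1 h2
          rw [abs_le]; constructor <;> linarith) N x
      rw [show ∫ y : G, (y : ℍ[ℝ]).re ∂haar = 0 from hRE, sub_zero] at h3
      simp only [Nat.cast_zero, add_zero] at h3
      refine hbig _ k (h3.trans ?_)
      linarith [(p1 k).le_one 0]
    · intro φ hφ hb k
      obtain ⟨h1, h2⟩ := hlaws k
      refine inf_vol hAV h1 h2 hφ hb (fun n => hbig _ (k + n) ?_) ?_
      · linarith [(p1 (k + n)).le_one 0]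
      · have h4 : Tendsto (fun n : ℕ => (4:ℝ) ^ (k + n)) atTop atTop := by
          have h5 : Tendsto (fun n : ℕ => (4:ℝ) ^ k * (4:ℝ) ^ n) atTop atTop :=
            Tendsto.const_mul_atTop (by positivity)
              (tendsto_pow_atTop_atTop_of_one_lt (by norm_num))
          refine h5.congr fun n => ?_
          rw [zpow_add₀ (by norm_num), zpow_natCast]
        rw [← mul_zero (|C5| + 1 + 300 * C6)]
        refine Tendsto.const_mul _ (Real.tendsto_exp_atBot.comp ?_)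
        exact Tendsto.const_mul_atTop_of_neg (by have := mul_pos hc6 hσ; linarith) h4
    · intro φ ψ hφ hψ hb1 hb2 k n N x
      obtain ⟨h1, h2⟩ := hlaws k
      have h3 := hCOR (fun i => fn (B (2 * m) (k + i))) (fun i => fn_cont (p1 _))
        (fun i x => ((p1 _).nn 0).trans (fn_bd (p1 _) x).1) (fun i x hx => fn_pos (p1 _) hx)
        (fun i x y => fn_class _ x y) φ ψ hφ hψ n (1 - B (2 * m) (k + n) 0) 2
        (by linarith [(p1 (k + n)).le_one 0])
        (fun x => ⟨by linarith [(fn_bd (p1 (k + n)) x).1], (fn_bd (p1 (k + n)) x).2⟩)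
        (cnd_osc h1 h2 hφ (osc_two hb1) n).1.2 (cnd_osc h1 h2 hψ (osc_two hb2) n).1.2 N x
      exact ⟨hbig _ (k + n) (h3.1.trans (by linarith [(p1 (k + n)).le_one 0])),
        hbig _ (k + n) (h3.2.trans (by linarith [(p1 (k + n)).le_one 0]))⟩
    · refine ⟨4 * C0 + 1, fun k => mean (B (2 * m) k) / 2, by positivity,
        by simp only; rw [p5]; ring, fun k => Ren_fn (p1 k) (p2 k), ?_, ?_, ?_, ?_, ?_⟩
      · intro N β hβ h
        rw [Ren_Z hβ.le] at h
        have := p8 N (2 * β) (by linarith) (by linarith)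
        rw [show 2 * β / 2 = β by ring] at this
        exact this.trans (by linarith)
      · intro j
        have := p9 j
        rw [abs_le] at this ⊢
        constructor <;> linarith [this.1, this.2]
      · intro k j hk
        have hmk : M1 ≤ mean (B (2 * m) k) := hm2.trans (hmono (2 * m) hm2 k hk)
        show fn (B (2 * (mean (B (2 * m) k) / 2)) j) = fn (B (2 * m) (j + k))
        rw [show 2 * (mean (B (2 * m) k) / 2) = mean (B (2 * m) k) by ring]
        congr 1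
        funext i
        obtain ⟨x, hx1, hx2, hx3⟩ := hbare (2 * m) hm2
        have ht : Tendsto (fun l => mean (R^[(id l : ℕ)] (pois (x l)))) atTop (𝓝 (2 * m)) := by
          simp only [id_eq, hx2]; exact tendsto_const_nhds
        have h1 := (hB (2 * m) hm2).1 id x tendsto_id hx1 ht (j + k) i
        have hmk' := hpk id x tendsto_id hx1 ht k
        have hν' : Tendsto (fun l : ℕ => ((l : ℤ) + k).toNat) atTop atTop := by
          rw [tendsto_atTop_atTop]
          intro b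
          exact ⟨b + k.natAbs, fun a ha => by omega⟩
        have h2 := (hB _ hmk).1 (fun l : ℕ => ((l : ℤ) + k).toNat) x hν' hx1 (by simpa using hmk')
          j i
        refine tendsto_nhds_unique h2 (h1.congr' ?_)
        filter_upwards [eventually_ge_atTop (k.natAbs)] with l hl
        have e : ((((l : ℤ) + k).toNat : ℤ) + j).toNat = (((id l : ℕ) : ℤ) + (j + k)).toNat := by
          simp only [id_eq]
          rw [Int.toNat_of_nonneg (by omega)]
          congr 1; ring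
        show _ = _
        rw [e]
      · intro j x
        have := q1 j (tt x) (tt_nonneg x) (tt_le_one x)
        rw [show 2 * (mean (B (2 * m) (-(j:ℤ))) / 2) = mean (B (2 * m) (-(j:ℤ))) by ring]
        refine this.trans ?_
        have hl : 0 ≤ Real.log ((j:ℝ) + 1) :=
          Real.log_nonneg (by linarith [Nat.cast_nonneg (α := ℝ) j])
        gcongr; linarith
      · intro j
        have e := (hLINK _ (p1 (-(j:ℤ)))).2.2.1
        show |1 - wil (fn (B (2 * m) (-(j:ℤ)))) - _| ≤ _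
        rw [e, show 2 * (mean (B (2 * m) (-(j:ℤ))) / 2) = mean (B (2 * m) (-(j:ℤ))) by ring]
        refine (q2 j).trans ?_
        gcongr; linarith
  · intro w hw0 hw1
    obtain ⟨C, hC, hN⟩ := bBETA w hw0 hw1
    refine ⟨fun N => ?_, ?_⟩
    · obtain ⟨β, hβ, h⟩ := (hN N).1
      exact ⟨β, hβ, by rw [wil_Z β hβ.le]; exact h⟩
    · intro ν β hν hβ hW
      have hW' : ∀ l, W (R^[ν l] (pois (2 * β l))) = w := fun l => by
        rw [← wil_Z (β l) (hβ l).le]; exact hW l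
      have hb := fun l => (hN (ν l)).2 (β l) (hβ l) (hW' l)
      -- a level with large mean
      obtain ⟨j0, hj0⟩ : ∃ j0 : ℕ, M1 ≤ 2 * (j0:ℝ) - C * (1 + Real.log (j0 + 1)) := by
        have h1 : Tendsto (fun j : ℕ => 2 * (j:ℝ) - C * (1 + Real.log (j + 1))) atTop atTop := by
          have h2 : Tendsto (fun j : ℕ => Real.log ((j:ℝ) + 1) / ((j:ℝ) + 1)) atTop (𝓝 0) := by
            have h3 : Tendsto (fun x : ℝ => Real.log x / x) atTop (𝓝 0) := by
              simpa using Real.isLittleO_log_id_atTop.tendsto_div_nhds_zero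
            exact h3.comp (tendsto_atTop_add_const_right _ 1 tendsto_natCast_atTop_atTop)
          have h4 : Tendsto (fun j : ℕ => (j:ℝ) - (1 + C)) atTop atTop :=
            tendsto_atTop_add_const_right _ _ tendsto_natCast_atTop_atTop
          refine tendsto_atTop_mono' _ ?_ h4
          have h5 := h2.eventually (gt_mem_nhds (show (0:ℝ) < 1 / C by positivity))
          filter_upwards [h5] with j hj
          have hj1 : (0:ℝ) < (j:ℝ) + 1 := by positivity
          rw [div_lt_div_iff₀ hj1 hC] at hj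
          nlinarith
        exact (h1.eventually (eventually_ge_atTop M1)).exists
      set g : ℕ → ℝ := fun l => mean (R^[ν l - j0] (pois (2 * β l))) with hg
      have hgb : ∀ᶠ l in atTop, g l ∈ Set.Icc M1 (2 * j0 + C * (1 + Real.log (j0 + 1))) := by
        filter_upwards [hν.eventually (eventually_ge_atTop j0)] with l hl
        have := (hb l).2.1 j0 hl
        rw [abs_le] at this
        constructor <;> simp only [hg] <;> linarith [this.1, this.2]
      obtain ⟨m, hmI, θ, hθ, hlim⟩ := isCompact_Icc.tendsto_subseq'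
        (x := g) (s := Set.Icc M1 (2 * j0 + C * (1 + Real.log (j0 + 1)))) hgb.frequently
      have hm2 : M1 ≤ 2 * (m / 2) := by rw [show 2 * (m / 2) = m by ring]; exact hmI.1
      have hνθ : Tendsto (fun l => ν (θ l)) atTop atTop := hν.comp hθ.tendsto_atTop
      have hν' : Tendsto (fun l => ν (θ l) - j0) atTop atTop := by
        rw [tendsto_atTop_atTop] at hνθ ⊢
        intro b
        obtain ⟨i, hi⟩ := hνθ (b + j0)
        exact ⟨i, fun a ha => by have := hi a ha; omega⟩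
      have hconv := (hB (2 * (m / 2)) hm2).1 (fun l => ν (θ l) - j0) (fun l => 2 * β (θ l)) hν'
        (fun l => by linarith [hβ (θ l)])
        (by rw [show 2 * (m / 2) = m by ring]; exact hlim)
      obtain ⟨C0, p1, -⟩ := hmain _ hm2
      have hlaw : ∀ (k : ℤ) (i : ℕ), Tendsto
          (fun l => (R^[((ν (θ l) : ℤ) + k).toNat] (pois (2 * β (θ l)))) i) atTop
          (𝓝 (B (2 * (m / 2)) (k + j0) i)) := by
        intro k i
        refine (hconv (k + j0) i).congr' ?_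
        filter_upwards [hνθ.eventually (eventually_ge_atTop j0)] with l hl
        have e : (((ν (θ l) - j0 : ℕ) : ℤ) + (k + j0)).toNat = ((ν (θ l) : ℤ) + k).toNat := by
          rw [Nat.cast_sub hl]; congr 1; ring
        rw [e]
      have hlaws : ∀ l n, Law (R^[n] (pois (2 * β (θ l)))) := fun l n =>
        law_it (am_pois (by linarith [hβ (θ l)])).toLaw _
      refine ⟨θ, m / 2, j0, hθ, by linarith [hmI.1], ?_, ?_⟩
      · have h1 := hlaw 0
        simp only [zero_add] at h1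
        have h2 := (hCONT (fun l => R^[((ν (θ l) : ℤ) + 0).toNat] (pois (2 * β (θ l))))
          (B (2 * (m / 2)) j0) (fun l => hlaws l _) (p1 _) (by simpa using h1)).2.2.2.2.2.2
        have h3 : (fun l => W (R^[((ν (θ l) : ℤ) + 0).toNat] (pois (2 * β (θ l))))) =
            fun _ => w := by
          funext l
          have : ((ν (θ l) : ℤ) + 0).toNat = ν (θ l) := by simp
          rw [this]; exact hW' (θ l)
        rw [h3] at h2
        have e := (hLINK _ (p1 (j0:ℤ))).2.2.1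
        show wil (fn (B (2 * (m / 2)) (j0:ℤ))) = w
        rw [e]
        exact tendsto_nhds_unique h2 tendsto_const_nhds
      · intro k
        have h2 := fn_unif (a := fun l => R^[((ν (θ l) : ℤ) + k).toNat] (pois (2 * β (θ l))))
          (fun l => hlaws l _) (p1 _) (hlaw k)
        have e2 : (fun l x => Z (β (θ l)) ((ν (θ l) : ℤ) + k).toNat x /
              Z (β (θ l)) ((ν (θ l) : ℤ) + k).toNat 1)
            = fun l => fn (R^[((ν (θ l) : ℤ) + k).toNat] (pois (2 * β (θ l)))) := by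
          funext l x; exact Z_div (β (θ l)) (hβ (θ l)).le _ x
        rw [e2]; exact h2
  · obtain ⟨w0, hw0, hw⟩ := hCW M1
    obtain ⟨w1, hw1, hw1'⟩ : ∃ w1 : ℝ, w1 < 1 ∧ w0 ≤ w1 ∧ 0 ≤ w1 :=
      ⟨max w0 0, max_lt hw0 one_pos, le_max_left _ _, le_max_right _ _⟩
    refine ⟨w1, hw1, fun w h1 h2 => ?_⟩
    obtain ⟨m, hm, hconv⟩ := hw w (by linarith) h2
    have hm2 : M1 ≤ 2 * (m / 2) := by rw [show 2 * (m / 2) = m by ring]; exact hm
    obtain ⟨C0, p1, -⟩ := hmain _ hm2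
    have hall : ∀ (ν : ℕ → ℕ) (β : ℕ → ℝ), Tendsto ν atTop atTop → (∀ l, 0 < β l) →
        Tendsto (fun l => wil (Z (β l) (ν l))) atTop (𝓝 w) →
        Tendsto (fun l => mean (R^[ν l] (pois (2 * β l)))) atTop (𝓝 m) := by
      intro ν β hν hβ hW
      refine hconv ν (fun l => 2 * β l) hν (fun l => by linarith [hβ l]) ?_
      simpa only [wil_Z _ (hβ _).le] using hW
    refine ⟨m / 2, by linarith, ?_, ?_⟩
    · have hN := fun N => (bBETA w (by linarith) h2).choose_spec.2 N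
      have hex : ∀ N : ℕ, ∃ β : ℝ, 0 < β ∧ W (R^[N] (pois (2 * β))) = w := fun N => (hN N).1
      choose β hβ hβw using hex
      have hW : Tendsto (fun l => wil (Z (β l) (id l))) atTop (𝓝 w) := by
        have : (fun l => wil (Z (β l) (id l))) = fun _ => w := by
          funext l; rw [wil_Z _ (hβ l).le]; exact hβw l
        rw [this]; exact tendsto_const_nhds
      have h3 := hall id β tendsto_id hβ hW
      have h4 := (hB (2 * (m / 2)) hm2).1 id (fun l => 2 * β l) tendsto_id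
        (fun l => by linarith [hβ l]) (by rw [show 2 * (m / 2) = m by ring]; exact h3) 0
      have h5 := (hCONT (fun l => R^[((id l : ℕ) + (0:ℤ)).toNat] (pois (2 * β l)))
        (B (2 * (m / 2)) 0) (fun l => law_it (am_pois (by linarith [hβ l])).toLaw _) (p1 _)
        h4).2.2.2.2.2.2
      have h6 : (fun l => W (R^[(((id l : ℕ) : ℤ) + 0).toNat] (pois (2 * β l)))) =
          fun _ => w := by
        funext l
        have : (((id l : ℕ) : ℤ) + 0).toNat = l := by simp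
        rw [this]; exact hβw l
      rw [h6] at h5
      show wil (fn (B (2 * (m / 2)) 0)) = w
      rw [(hLINK _ (p1 0)).2.2.1]
      exact tendsto_nhds_unique h5 tendsto_const_nhds
    · intro ν β hν hβ hW k
      have h3 := hall ν β hν hβ hW
      refine hcnv (m / 2) hm2 ν β (fun l => mean (R^[ν l] (pois (2 * β l))) / 2) hν hβ
        (fun l => (Ren_Z (hβ l).le _ _).mpr rfl) (h3.div_const 2) k

end Pool.Agent.Q291.MK
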