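import Pool.Agent.Q291.MK.Fin6
import Pool.Agent.Q299.MK.BLK4
import Pool.Agent.Q299.MK.COR

/-!
# The hierarchical lattice gauge theory

A cell of level `0` is a plaquette. A cell of level `n + 1` has the boundary of a square of side
`2 ^ (n + 1)` and consists of four sheets with this common boundary; each sheet is a square of
`2 × 2` cells of level `n`, which share the four interior links of the sheet. This is the
hierarchical lattice on which the Migdal-Kadanoff recursion with scale factor `2` in dimension `4`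
is exact.
-/

namespace Pool.Agent.Q291.MK

open Filter Topology MeasureTheory Quaternion

/-- The integral over the four interior links `v1, v2, v3, v4` of a sheet, which join its centre to
the midpoints of its sides, of the product of the weights `f1, f2, f3, f4` of its four cells. The
group elements `a1, a2, a3, a4` are the holonomies of the four arcs between the midpoints of the
sides. -/
noncomputable def sheet (f1 f2 f3 f4 : G → ℝ) (a1 a2 a3 a4 : G) : ℝ :=
  ∫ v1, ∫ v2, ∫ v3, ∫ v4, f1 (v1 * a1 * v2⁻¹) * f2 (v2 * a2 * v3⁻¹) * f3 (v3 * a3 * v4⁻¹) *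
    f4 (v4 * a4 * v1⁻¹) ∂haar ∂haar ∂haar ∂haar

/-- The partition function of a cell of level `n` as a function of its boundary holonomy, if each
plaquette has the weight `w`. -/
noncomputable def part (w : G → ℝ) : ℕ → G → ℝ
  | 0 => w
  | n + 1 => fun x => sheet (part w n) (part w n) (part w n) (part w n) x 1 1 1 ^ 4

/-- The conditional expectation of the observable `φ` of one of the four cells of a sheet, given
the boundary holonomy `x` of the sheet, if each cell has the weight `f`. -/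
noncomputable def ex1 (f φ : G → ℝ) (x : G) : ℝ :=
  sheet (fun y => φ y * f y) f f f x 1 1 1 / sheet f f f f x 1 1 1

/-- The same for the product of observables `φ` and `ψ` of two of the four cells. -/
noncomputable def ex2 (f φ ψ : G → ℝ) (x : G) : ℝ :=
  sheet (fun y => φ y * f y) (fun y => ψ y * f y) f f x 1 1 1 / sheet f f f f x 1 1 1

/-- The conditional expectation of an observable `φ` of a cell of level `0` given the boundary
holonomy of the cell of level `n` which contains it, if the cells of level `n` have the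
weight `f n`. -/
noncomputable def cex (f : ℕ → G → ℝ) (φ : G → ℝ) : ℕ → G → ℝ
  | 0 => φ
  | n + 1 => ex1 (f n) (cex f φ n)

/-- Truncated correlation, given the boundary holonomy `x` of a cell of level `n + 1 + N`, of two
observables `φ` and `ψ` of cells of level `0` which lie in two different cells of level `n` of the
same sheet of a cell of level `n + 1`. -/
noncomputable def tr1 (f : ℕ → G → ℝ) (φ ψ : G → ℝ) (n N : ℕ) (x : G) : ℝ :=
  cex (fun i => f (n + 1 + i)) (ex2 (f n) (cex f φ n) (cex f ψ n)) N x -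
    cex f φ (n + 1 + N) x * cex f ψ (n + 1 + N) x

/-- The same for two cells which lie in different sheets of a cell of level `n + 1`. -/
noncomputable def tr2 (f : ℕ → G → ℝ) (φ ψ : G → ℝ) (n N : ℕ) (x : G) : ℝ :=
  cex (fun i => f (n + 1 + i)) (fun y => cex f φ (n + 1) y * cex f ψ (n + 1) y) N x -
    cex f φ (n + 1 + N) x * cex f ψ (n + 1 + N) x

/-- Class functions. -/
def Cf (f : G → ℝ) : Prop := ∀ x y, f (x * y) = f (y * x)

lemma Cf.conj {f : G → ℝ} (h : Cf f) (v z : G) : f (v * z * v⁻¹) = f z := by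
  rw [mul_assoc, h, mul_assoc, inv_mul_cancel, mul_one]

lemma Cf.of_conj {f : G → ℝ} (h : ∀ v z, f (v * z * v⁻¹) = f z) : Cf f := fun x y => by
  have := h x (y * x)
  rw [← this]; congr 1; group

lemma Cf.conv {f g : G → ℝ} (hf : Cf f) (hg : Cf g) : Cf (Pool.Agent.Q291.MK.conv f g) :=
  Cf.of_conj (Pool.Agent.Q224.MK.conv_class hf.conj hg.conj)

lemma Cf.mul {f g : G → ℝ} (hf : Cf f) (hg : Cf g) : Cf (fun y => f y * g y) := fun x y => by
  show f _ * g _ = f _ * g _
  rw [hf, hg]

lemma sheet_conv {f1 f2 f3 f4 : G → ℝ} (h1 : Continuous f1) (h2 : Continuous f2)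
    (h3 : Continuous f3) (h4 : Continuous f4) (c1 : Cf f1) (c2 : Cf f2) (c3 : Cf f3) (c4 : Cf f4)
    (a1 a2 a3 a4 : G) :
    sheet f1 f2 f3 f4 a1 a2 a3 a4 = conv f1 (conv f2 (conv f3 f4)) (a1 * a2 * a3 * a4) :=
  Pool.Agent.Q299.MK.t_BLK4 f1 f2 f3 f4 h1 h2 h3 h4 c1 c2 c3 c4 a1 a2 a3 a4

lemma conv_ct {f g : G → ℝ} (hf : Continuous f) (hg : Continuous g) : Continuous (conv f g) :=
  Pool.Agent.Q280.MK.conv_cont hf hg

/-- The weights of the cells. -/
lemma part_step {w : G → ℝ} (hw : Continuous w) (cw : Cf w) (n : ℕ) :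
    part w n = step^[n] w ∧ Continuous (part w n) ∧ Cf (part w n) := by
  induction n with
  | zero => exact ⟨rfl, hw, cw⟩
  | succ n ih =>
    obtain ⟨e, h, c⟩ := ih
    have h2 := conv_ct h h
    have h3 := conv_ct h h2
    have h4 := conv_ct h h3
    have c2 := c.conv c
    have c3 := c.conv c2
    have c4 := c.conv c3
    have e1 : part w (n + 1) = fun x => conv (part w n) (conv (part w n) (conv (part w n)
        (part w n))) x ^ 4 := by
      funext x
      show sheet (part w n) (part w n) (part w n) (part w n) x 1 1 1 ^ 4 = _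
      rw [sheet_conv h h h h c c c c]; simp
    refine ⟨?_, ?_, ?_⟩
    · rw [Function.iterate_succ_apply', e1, ← e]
      funext x
      unfold step
      rw [Pool.Agent.Q224.MK.conv_assoc h h h2]
    · rw [e1]; exact h4.pow 4
    · rw [e1]; intro x y; show _ ^ 4 = _ ^ 4; rw [c4]

lemma bare_ct (β : ℝ) : Continuous (bare β) := by
  unfold bare
  exact Real.continuous_exp.comp
    ((Quaternion.continuous_re.comp continuous_subtype_val).const_mul β |>.congr fun _ => rfl)

lemma re_class (x y : G) : ((x * y : G) : ℍ[ℝ]).re = ((y * x : G) : ℍ[ℝ]).re := by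
  show ((x : ℍ[ℝ]) * (y : ℍ[ℝ])).re = ((y : ℍ[ℝ]) * (x : ℍ[ℝ])).re
  rw [Quaternion.re_mul, Quaternion.re_mul]; ring

lemma bare_class (β : ℝ) : Cf (bare β) := fun x y => by
  unfold bare; rw [re_class]

lemma part_Z (β : ℝ) (n : ℕ) : part (bare β) n = Z β n := (part_step (bare_ct β) (bare_class β) n).1

lemma ttp_ct (K : ℕ) : Continuous (fun x : G => tt x ^ K) := by
  unfold tt
  exact ((((Quaternion.continuous_re.comp continuous_subtype_val).const_add 1).div_const 2).pow K)
    |>.congr fun _ => rfl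

lemma part_Zp (K n : ℕ) : part (fun x => tt x ^ K) n = Zp K n :=
  (part_step (ttp_ct K) (fun x y => by show _ ^ K = _ ^ K; rw [tt_class]) n).1

/-- Admissible weights. -/
structure Wt (f : G → ℝ) : Prop where
  ct : Continuous f
  nn : ∀ x, 0 ≤ f x
  pos : ∀ x, 0 < tt x → 0 < f x
  cls : Cf f

lemma ex1_Q {f φ : G → ℝ} (h : Wt f) (hφ : Continuous φ) (cφ : Cf φ) :
    ex1 f φ = Qop f φ ∧ Continuous (Qop f φ) ∧ Cf (Qop f φ) := by
  have m : Continuous (fun y => φ y * f y) := hφ.mul h.ct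
  have cm := cφ.mul h.cls
  refine ⟨?_, Pool.Agent.Q299.MK.Qop_cont h.ct h.nn h.pos hφ, ?_⟩
  · funext x
    unfold ex1 Qop
    rw [sheet_conv m h.ct h.ct h.ct cm h.cls h.cls h.cls,
      sheet_conv h.ct h.ct h.ct h.ct h.cls h.cls h.cls h.cls]
    simp
  · intro x y
    unfold Qop
    have c2 := h.cls.conv h.cls
    have c3 := h.cls.conv c2
    rw [(cm.conv c3) x y, (h.cls.conv c3) x y]

lemma ex2_Q {f φ ψ : G → ℝ} (h : Wt f) (hφ : Continuous φ) (cφ : Cf φ) (hψ : Continuous ψ)
    (cψ : Cf ψ) : ex2 f φ ψ = Q2 f φ ψ ∧ Cf (Q2 f φ ψ) := by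
  have m : Continuous (fun y => φ y * f y) := hφ.mul h.ct
  have cm := cφ.mul h.cls
  have m' : Continuous (fun y => ψ y * f y) := hψ.mul h.ct
  have cm' := cψ.mul h.cls
  refine ⟨?_, ?_⟩
  · funext x
    unfold ex2 Q2
    rw [sheet_conv m m' h.ct h.ct cm cm' h.cls h.cls,
      sheet_conv h.ct h.ct h.ct h.ct h.cls h.cls h.cls h.cls]
    simp
  · intro x y
    unfold Q2
    have c2 := h.cls.conv h.cls
    have c3 := h.cls.conv c2
    rw [(cm.conv (cm'.conv c2)) x y, (h.cls.conv c3) x y]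

lemma cex_cnd {f : ℕ → G → ℝ} (h : ∀ n, Wt (f n)) {φ : G → ℝ} (hφ : Continuous φ) (cφ : Cf φ)
    (n : ℕ) : cex f φ n = cnd f φ n ∧ Continuous (cnd f φ n) ∧ Cf (cnd f φ n) := by
  induction n with
  | zero => exact ⟨rfl, hφ, cφ⟩
  | succ n ih =>
    obtain ⟨e, h1, c1⟩ := ih
    show ex1 (f n) (cex f φ n) = Qop (f n) (cnd f φ n) ∧ Continuous (Qop (f n) (cnd f φ n)) ∧
      Cf (Qop (f n) (cnd f φ n))
    rw [e]
    exact ex1_Q (h n) h1 c1

lemma tr1_cor {f : ℕ → G → ℝ} (h : ∀ n, Wt (f n)) {φ ψ : G → ℝ} (hφ : Continuous φ) (cφ : Cf φ)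
    (hψ : Continuous ψ) (cψ : Cf ψ) (n N : ℕ) (x : G) :
    tr1 f φ ψ n N x = cor1 f φ ψ n N x ∧ tr2 f φ ψ n N x = cor2 f φ ψ n N x := by
  obtain ⟨e1, h1, c1⟩ := cex_cnd h hφ cφ n
  obtain ⟨e2, h2, c2⟩ := cex_cnd h hψ cψ n
  obtain ⟨e3, h3, c3⟩ := cex_cnd h hφ cφ (n + 1)
  obtain ⟨e4, h4, c4⟩ := cex_cnd h hψ cψ (n + 1)
  obtain ⟨e5, -, -⟩ := cex_cnd h hφ cφ (n + 1 + N)
  obtain ⟨e6, -, -⟩ := cex_cnd h hψ cψ (n + 1 + N)
  have g1 := ex2_Q (h n) h1 c1 h2 c2
  have g2 : Continuous (Q2 (f n) (cnd f φ n) (cnd f ψ n)) :=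
    Pool.Agent.Q299.MK.Q2_cont (h n).ct (h n).nn (h n).pos h1 h2
  have k1 := (cex_cnd (f := fun i => f (n + 1 + i)) (fun i => h _) g2 g1.2 N).1
  have k2 := (cex_cnd (f := fun i => f (n + 1 + i)) (fun i => h _)
    (show Continuous (fun y => cnd f φ (n + 1) y * cnd f ψ (n + 1) y) from h3.mul h4)
    (c3.mul c4) N).1
  unfold tr1 cor1 tr2 cor2
  constructor
  · rw [e1, e2, e5, e6, g1.1, k1]
  · rw [e3, e4, e5, e6, k2]

end Pool.Agent.Q291.MK
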