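import Pool.Agent.Q291.MK.Law

/-!
# Statements of the lemmas
-/

namespace Pool.Agent.Q291.MK

open Filter Topology MeasureTheory Quaternion

/-- Job HYP1: the hypergeometric law, exact moments. -/
def P_HYP1 : Prop := ∀ K L : ℕ,
  (∀ j, 0 ≤ hyp K L j) ∧ (∀ j, K < j → hyp K L j = 0) ∧ (∀ j, L < j → hyp K L j = 0) ∧
  H K L (fun _ => 1) = 1 ∧
  (∀ r : ℕ, H K L (fun j => (j.choose r : ℝ)) =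
    (K.choose r : ℝ) * (L.choose r : ℝ) / gb (K + L + 1/2) r) ∧
  (∀ r : ℕ, H K L (fun j => ((K - j).choose r : ℝ)) =
    gb (K + 1/2) r * (K.choose r : ℝ) / gb (K + L + 1/2) r) ∧
  H K L (fun j => (j:ℝ)) = hm K L ∧
  H K L (fun j => ((j:ℝ) - hm K L) ^ 2) = hv K L ∧
  H K L (fun j => ((j:ℝ) - hm K L) ^ 3) = h3 K L

/-- Job HYP2: exponential moments and the eighth moment. -/
def P_HYP2 : Prop := ∀ K L : ℕ,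
  (∀ u : ℝ, 0 ≤ u → H K L (fun j => (1 + u) ^ j) ≤ Real.exp (u * hm K L)) ∧
  (∀ u : ℝ, 0 ≤ u → H K L (fun j => (1 + u) ^ (K - j)) ≤ Real.exp (u * (K - hm K L))) ∧
  H K L (fun j => ((j:ℝ) - hm K L) ^ 8) ≤ 110000 * ((K:ℝ) + 1) ^ 4

/-- Job RHO: the function `I` near `2 μ`. -/
def P_RHO : Prop := ∃ D : ℝ, 0 < D ∧ ∀ μ : ℝ, 10 ≤ μ → ∃ I0 c0 : ℝ, 0 < I0 ∧ |c0| ≤ D / μ ∧
  (∀ n : ℕ, I n / I0 ≤ D * μ ^ 2) ∧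
  (∀ n : ℕ, 3 / 4 * μ ≤ n → I n / I0 ≤ 9 / 2 ∧
    |I n / I0 - (1 + c0 - 3 / 4 * (((n:ℝ) - 2 * μ) / μ) + 15 / 32 * (((n:ℝ) - 2 * μ) / μ) ^ 2)|
      ≤ D * (|(n:ℝ) - 2 * μ| ^ 3 / μ ^ 3 + |(n:ℝ) - 2 * μ| / μ ^ 2 + 1 / μ ^ 2))

/-- Job TLAW. -/
def P_TLAW : Prop := ∀ a : ℕ → ℝ, AM a → AM (T a) ∧ ∀ φ : ℕ → ℝ, PB φ →
  PB2 (fun K L => H K L φ) ∧ E (T a) φ = Ew a (fun K L => H K L φ)

/-- Job SLAW. -/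
def P_SLAW : Prop := ∀ a : ℕ → ℝ, AM a → AM (S a) ∧ ∀ φ : ℕ → ℝ, PB φ →
  PB2 (fun K L => φ (K + L)) ∧ E (S a) φ = E2 a (fun K L => φ (K + L))

/-- Job CHEB. -/
def P_CHEB : Prop := ∀ a : ℕ → ℝ, AM a →
  (∀ φ : ℕ → ℝ, PB φ → Monotone φ → E a (fun k => I k * φ k) ≤ E a I * E a φ) ∧
  (∀ φ : ℕ → ℕ → ℝ, PB2 φ → (∀ L, Monotone fun K => φ K L) → (∀ K, Monotone fun L => φ K L) →
    Ew a φ ≤ E2 a φ)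

/-- Job CRUDE. -/
def P_CRUDE : Prop := ∀ a : ℕ → ℝ, AM a →
  0 ≤ mean a ∧ 0 ≤ q2 a ∧ mean a ^ 2 ≤ (1 - a 0) * q2 a ∧
  mean (T a) ≤ mean a / 2 - (1 - a 0) / 12 ∧ mean (T a) ≤ 2 / 5 * mean a ^ 2 ∧
  q2 (T a) ≤ (q2 a + mean a ^ 2) / 8 + mean a / 3 ∧
  mean (S a) = 2 * mean a ∧ q2 (S a) = 2 * q2 a + 2 * mean a ^ 2

/-- Job EXP: expansions of weighted expectations at weak coupling. -/
def P_EXP : Prop := ∀ C8 : ℝ, 1 ≤ C8 → ∃ D8 : ℝ, 0 < D8 ∧ ∀ C3 : ℝ, 1 ≤ C3 →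
  ∃ D M : ℝ, 0 < D ∧ 10 ≤ M ∧ ∀ a : ℕ → ℝ, Cls C3 C8 a → M ≤ mean a →
  |Ew a (fun K L => (K:ℝ) + L - 2 * mean a) + 3 / 2 * (vr a / mean a)| ≤ D / mean a ∧
  |Ew a (fun K L => ((K:ℝ) + L - 2 * mean a) ^ 2) - 2 * vr a| ≤ D ∧
  |Ew a (fun K L => ((K:ℝ) + L - 2 * mean a) ^ 3) - 2 * k3 a| ≤ D8 * mean a ∧
  Ew a (fun K L => ((K:ℝ) + L - 2 * mean a) ^ 4) ≤ D8 * mean a ^ 2 ∧
  |Ew a (fun K L => ((K:ℝ) - L) ^ 2 / (K + L + 1/2)) - vr a / mean a| ≤ D / mean a ∧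
  Ew a (fun K L => (((K:ℝ) - L) ^ 2 / (K + L + 1/2)) ^ 2) ≤ D8 ∧
  Ew a (fun K L => (((K:ℝ) - L) ^ 2 / (K + L + 1/2)) ^ 3) ≤ D8 ∧
  |Ew a (fun K L => ((K:ℝ) + L - 2 * mean a) * (((K:ℝ) - L) ^ 2 / (K + L + 1/2)))| ≤ D ∧
  Ew a (fun K L => ((K:ℝ) + L - 2 * mean a) ^ 2 * (((K:ℝ) - L) ^ 2 / (K + L + 1/2)))
    ≤ D8 * mean a ∧
  Ew a (fun K L => 1 / ((K:ℝ) + L + 1/2)) ≤ D8 / mean a ∧
  Ew a (fun K L => ((K:ℝ) - mean a) ^ 4 + ((L:ℝ) - mean a) ^ 4) ≤ D8 * mean a ^ 2 ∧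
  Ew a (fun K L => ((K:ℝ) - mean a) ^ 8 + ((L:ℝ) - mean a) ^ 8) ≤ 10 * m8 a + mean a ^ 4

/-- Job TM: mean and variance of `T a`. -/
def P_TM : Prop := ∀ C3 C8 : ℝ, 1 ≤ C3 → 1 ≤ C8 → ∃ D M : ℝ, 0 < D ∧ 10 ≤ M ∧
  ∀ a : ℕ → ℝ, Cls C3 C8 a → M ≤ mean a →
  |mean (T a) - (mean a / 2 - 1 / 8 - 5 / 8 * (vr a / mean a))| ≤ D / mean a ∧
  |vr (T a) - (mean a / 8 + vr a / 8)| ≤ D

/-- Job T3: third central moment of `T a`. -/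
def P_T3 : Prop := ∀ C8 : ℝ, 1 ≤ C8 → ∃ B3 : ℝ, 1 ≤ B3 ∧ ∀ C3 : ℝ, B3 ≤ C3 →
  ∃ M : ℝ, 10 ≤ M ∧ ∀ a : ℕ → ℝ, Cls C3 C8 a → M ≤ mean a → |k3 (T a)| ≤ C3 * mean (T a)

/-- Job T8: eighth central moment of `T a`. -/
def P_T8 : Prop := ∃ B8 : ℝ, 1 ≤ B8 ∧ ∀ C8 : ℝ, B8 ≤ C8 → ∀ C3 : ℝ, 1 ≤ C3 →
  ∃ M : ℝ, 10 ≤ M ∧ ∀ a : ℕ → ℝ, Cls C3 C8 a → M ≤ mean a → m8 (T a) ≤ C8 * mean (T a) ^ 4

/-- Job SM. -/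
def P_SM : Prop := ∀ a : ℕ → ℝ, AM a →
  mean (S a) = 2 * mean a ∧ vr (S a) = 2 * vr a ∧ k3 (S a) = 2 * k3 a

/-- Job S8. -/
def P_S8 : Prop := ∃ B8 : ℝ, 1 ≤ B8 ∧ ∀ C8 : ℝ, B8 ≤ C8 → ∀ C3 : ℝ, ∀ a : ℕ → ℝ,
  Cls C3 C8 a → 1 ≤ mean a → m8 (S a) ≤ C8 * mean (S a) ^ 4

/-- The Poisson law. -/
noncomputable def pois (m : ℝ) (k : ℕ) : ℝ := Real.exp (-m) * m ^ k / k.factorial

/-- Job POIS. -/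
def P_POIS : Prop := ∀ m : ℝ, 0 ≤ m → AM (pois m) ∧ mean (pois m) = m ∧ vr (pois m) = m ∧
  k3 (pois m) = m ∧ (1 ≤ m → m8 (pois m) ≤ 110000 * m ^ 4) ∧
  ∀ t : ℝ, E (pois m) (fun k => t ^ k) = Real.exp (m * (t - 1))

/-- Job WEAK: one full step at weak coupling. -/
def P_WEAK : Prop := ∃ C3 C8 M D : ℝ, 1 ≤ C3 ∧ 110000 ≤ C8 ∧ 10 ≤ M ∧ 0 < D ∧ ∀ a : ℕ → ℝ,
  Cls C3 C8 a → M ≤ mean a → Cls C3 C8 (R a) ∧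
  |(mean (R a) - 2 * (vr (R a) / mean (R a))) - (mean a - 2 * (vr a / mean a)) + 2| ≤ D / mean a

/-- The group of unit quaternions, `SU(2)`. -/
abbrev G : Type := Metric.sphere (0 : ℍ[ℝ]) 1

noncomputable instance : MeasurableSpace G := borel G
instance : BorelSpace G := ⟨rfl⟩

/-- The normalised Haar measure of `SU(2)`. -/
noncomputable def haar : Measure G := Measure.haarMeasure ⊤

instance : IsProbabilityMeasure haar :=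
  ⟨by unfold haar; simpa using
    Measure.haarMeasure_self (K₀ := (⊤ : TopologicalSpace.PositiveCompacts G))⟩
instance : haar.IsHaarMeasure := by unfold haar; infer_instance

/-- The variable `(1 + Re x) / 2`. -/
noncomputable def tt (x : G) : ℝ := (1 + (x : ℍ[ℝ]).re) / 2

/-- Job GRP: convolution of powers. -/
def P_GRP : Prop := ∀ (K L : ℕ) (x : G),
    ∫ y, tt y ^ K * tt (y⁻¹ * x) ^ L ∂haar = I (K + L) * H K L (fun j => tt x ^ j)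

/-- Job HI: two more identities. -/
def P_HI : Prop := ∀ K L : ℕ,
  I (K + L) * H K L I = I K * I L ∧
  I (K + L) * H K L (fun j => I j * ((j:ℝ) / (j + 3))) =
    (I K * ((K:ℝ) / (K + 3))) * (I L * ((L:ℝ) / (L + 3)))

/-- Job WL: the Wilson loop. -/
def P_WL : Prop := ∀ a : ℕ → ℝ, AM a →
  0 ≤ W a ∧ W a < 1 ∧ W a ≤ mean a / 3 ∧ W (T a) = W a ^ 2 ∧ W a ≤ W (S a) ∧
  (a 0 < 1 → 0 < W a)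

/-- Job WW: the Wilson loop at weak coupling. -/
def P_WW : Prop := ∀ C3 C8 : ℝ, ∃ D M : ℝ, 0 < D ∧ 10 ≤ M ∧ ∀ a : ℕ → ℝ, Cls C3 C8 a →
  M ≤ mean a → 1 - D / mean a ≤ W a

end Pool.Agent.Q291.MK
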