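import Pool.Agent.Q291.MK.Stm

/-!
# Statements of the lemmas, second part
-/

namespace Pool.Agent.Q291.MK

open Filter Topology MeasureTheory Quaternion

/-- Job EXPM: moments at weak coupling. -/
def P_EXPM : Prop := ∀ C3 C8 : ℝ, ∀ a : ℕ → ℝ, Cls C3 C8 a → 1 ≤ mean a →
  (∀ p : ℕ, p ≤ 8 → E2 a (fun K L => (|(K:ℝ) - mean a| + |(L:ℝ) - mean a|) ^ p) ≤
    512 * (C8 + 1) * (√(mean a)) ^ p) ∧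
  (∀ (φ : ℕ → ℕ → ℝ) (B : ℝ), PB2 φ → 0 ≤ B →
    (∀ K L : ℕ, (K:ℝ) + L < 3 / 4 * mean a → |φ K L| ≤ B) →
    E2 a (fun K L => if (K:ℝ) + L < 3 / 4 * mean a then |φ K L| else 0) ≤
      4 ^ 16 * B * C8 ^ 2 / mean a ^ 8) ∧
  E2 a (fun K L => (K:ℝ) + L - 2 * mean a) = 0 ∧
  E2 a (fun K L => ((K:ℝ) + L - 2 * mean a) ^ 2) = 2 * vr a ∧
  E2 a (fun K L => ((K:ℝ) + L - 2 * mean a) ^ 3) = 2 * k3 a ∧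
  E2 a (fun K L => ((K:ℝ) - L) ^ 2) = 2 * vr a ∧
  E2 a (fun K L => ((K:ℝ) + L - 2 * mean a) * ((K:ℝ) - L) ^ 2) = 2 * k3 a

/-- Job EXPA: the expansion of a weighted expectation. -/
def P_EXPA : Prop := ∃ D0 : ℝ, 0 < D0 ∧ ∀ C3 C8 : ℝ, 1 ≤ C8 → ∀ a : ℕ → ℝ, Cls C3 C8 a →
  10 ≤ mean a → ∃ Z0 c0 : ℝ, 0 < Z0 ∧ |c0| ≤ D0 / mean a ∧
  ∀ (φ : ℕ → ℕ → ℝ) (B : ℝ), PB2 φ → 0 ≤ B →
    (∀ K L : ℕ, (K:ℝ) + L < 3 / 4 * mean a → |φ K L| ≤ B) →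
    |E2 a (fun K L => I (K + L) * φ K L) / Z0 -
      E2 a (fun K L => (1 + c0 - 3 / 4 * (((K:ℝ) + L - 2 * mean a) / mean a) +
        15 / 32 * (((K:ℝ) + L - 2 * mean a) / mean a) ^ 2) * φ K L)| ≤
      D0 * E2 a (fun K L => |φ K L| * (|(K:ℝ) + L - 2 * mean a| ^ 3 / mean a ^ 3 +
        |(K:ℝ) + L - 2 * mean a| / mean a ^ 2 + 1 / mean a ^ 2)) + D0 * B * C8 ^ 2 / mean a ^ 6 ∧
    E2 a (fun K L => I (K + L) * |φ K L|) / Z0 ≤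
      9 / 2 * E2 a (fun K L => |φ K L|) + D0 * B * C8 ^ 2 / mean a ^ 6

/-- Job EXP1. -/
def P_EXP1 : Prop := ∀ C8 : ℝ, 1 ≤ C8 → ∃ D8 : ℝ, 0 < D8 ∧ ∀ C3 : ℝ, 1 ≤ C3 →
  ∃ D M : ℝ, 0 < D ∧ 10 ≤ M ∧ ∀ a : ℕ → ℝ, Cls C3 C8 a → M ≤ mean a →
  |Ew a (fun K L => (K:ℝ) + L - 2 * mean a) + 3 / 2 * (vr a / mean a)| ≤ D / mean a ∧
  |Ew a (fun K L => ((K:ℝ) + L - 2 * mean a) ^ 2) - 2 * vr a| ≤ D ∧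
  |Ew a (fun K L => ((K:ℝ) + L - 2 * mean a) ^ 3) - 2 * k3 a| ≤ D8 * mean a ∧
  Ew a (fun K L => ((K:ℝ) + L - 2 * mean a) ^ 4) ≤ D8 * mean a ^ 2

/-- Job EXP2. -/
def P_EXP2 : Prop := ∀ C8 : ℝ, 1 ≤ C8 → ∃ D8 : ℝ, 0 < D8 ∧ ∀ C3 : ℝ, 1 ≤ C3 →
  ∃ D M : ℝ, 0 < D ∧ 10 ≤ M ∧ ∀ a : ℕ → ℝ, Cls C3 C8 a → M ≤ mean a →
  |Ew a (fun K L => ((K:ℝ) - L) ^ 2 / (K + L + 1/2)) - vr a / mean a| ≤ D / mean a ∧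
  |Ew a (fun K L => ((K:ℝ) + L - 2 * mean a) * (((K:ℝ) - L) ^ 2 / (K + L + 1/2)))| ≤ D

/-- Job EXP3. -/
def P_EXP3 : Prop := ∀ C8 : ℝ, 1 ≤ C8 → ∃ D8 : ℝ, 0 < D8 ∧ ∀ C3 : ℝ, 1 ≤ C3 →
  ∃ D M : ℝ, 0 < D ∧ 10 ≤ M ∧ ∀ a : ℕ → ℝ, Cls C3 C8 a → M ≤ mean a →
  Ew a (fun K L => (((K:ℝ) - L) ^ 2 / (K + L + 1/2)) ^ 2) ≤ D8 ∧
  Ew a (fun K L => (((K:ℝ) - L) ^ 2 / (K + L + 1/2)) ^ 3) ≤ D8 ∧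
  Ew a (fun K L => ((K:ℝ) + L - 2 * mean a) ^ 2 * (((K:ℝ) - L) ^ 2 / (K + L + 1/2)))
    ≤ D8 * mean a ∧
  Ew a (fun K L => 1 / ((K:ℝ) + L + 1/2)) ≤ D8 / mean a ∧
  Ew a (fun K L => ((K:ℝ) - mean a) ^ 4 + ((L:ℝ) - mean a) ^ 4) ≤ D8 * mean a ^ 2 ∧
  Ew a (fun K L => ((K:ℝ) - mean a) ^ 8 + ((L:ℝ) - mean a) ^ 8) ≤ 10 * m8 a + mean a ^ 4

/-- Job CONT: continuity. -/
def P_CONT : Prop := ∀ (a : ℕ → ℕ → ℝ) (b : ℕ → ℝ), (∀ n, Law (a n)) → Law b →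
  (∀ k, Tendsto (fun n => a n k) atTop (𝓝 (b k))) →
  Tendsto (fun n => ∑' k, |a n k - b k|) atTop (𝓝 0) ∧
  (∀ φ : ℕ → ℝ, (∃ C, ∀ k, |φ k| ≤ C) → Tendsto (fun n => E (a n) φ) atTop (𝓝 (E b φ))) ∧
  (∀ k, Tendsto (fun n => T (a n) k) atTop (𝓝 (T b k))) ∧
  (∀ k, Tendsto (fun n => S (a n) k) atTop (𝓝 (S b k))) ∧
  Law (T b) ∧ Law (S b) ∧ Tendsto (fun n => W (a n)) atTop (𝓝 (W b))

/-- Job TIGHT. -/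
def P_TIGHT : Prop := ∀ (a : ℕ → ℕ → ℝ) (b : ℕ → ℝ) (Q : ℝ), (∀ n, AM (a n)) →
  (∀ n, q2 (a n) ≤ Q) → (∀ k, Tendsto (fun n => a n k) atTop (𝓝 (b k))) →
  Law b ∧ Summable (fun k => b k * (k:ℝ) ^ 2) ∧ q2 b ≤ Q ∧
  Tendsto (fun n => mean (a n)) atTop (𝓝 (mean b))

/-- Job SEQ: the flow of the inverse coupling. -/
def P_SEQ : Prop := ∀ D M : ℝ, 0 ≤ D → 10 + 2 * D ≤ M → ∀ m : ℕ, 1 ≤ m → ∀ μ s : ℕ → ℝ,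
  (∀ n ≤ m, 0 ≤ s n ∧ s n ≤ 1) → (∀ n < m, M ≤ μ n) → 0 ≤ μ m →
  (∀ n < m, |(μ (n + 1) - 2 * s (n + 1)) - (μ n - 2 * s n) + 2| ≤ D / μ n) →
  |μ 0 - μ m - 2 * m| ≤ 2 + D * (1 + Real.log m)

/-- Job RB: one step, crude bounds. -/
def P_RB : Prop := ∀ a : ℕ → ℝ, AM a → AM (R a) ∧ mean (R a) ≤ mean a - (1 - a 0) / 6 ∧
  mean (R a) ≤ 32 / 125 * mean a ^ 4 ∧
  q2 (R a) ≤ q2 a / 16 + 15 / 16 * mean a ^ 2 + 5 / 6 * mean a ∧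
  W a ^ 4 ≤ W (R a) ∧ (a 0 < 1 → (R a) 0 < 1)

/-- Job ST: iterates, at every coupling. -/
def P_ST : Prop := ∀ a : ℕ → ℝ, AM a → a 0 < 1 →
  (∀ n, AM (R^[n] a)) ∧ (∀ n, (R^[n] a) 0 < 1) ∧
  (∀ n, mean (R^[n + 1] a) ≤ mean (R^[n] a)) ∧
  (∀ n, q2 (R^[n] a) ≤ q2 a + mean a ^ 2 + mean a) ∧
  (∀ n, 0 < W (R^[n] a) ∧ W (R^[n] a) < 1) ∧
  Tendsto (fun n => mean (R^[n] a)) atTop (𝓝 0) ∧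
  (∀ Q : ℝ, 1 ≤ Q → q2 a + mean a ^ 2 + mean a ≤ Q → ∀ n : ℕ, 24 * Q * mean a ≤ n →
    mean (R^[n] a) ≤ 1 / 2) ∧
  ∃ σ : ℝ, 0 < σ ∧ Tendsto (fun n : ℕ => -Real.log (W (R^[n] a)) / 4 ^ n) atTop (𝓝 σ) ∧
    (∀ n : ℕ, σ ≤ -Real.log (W (R^[n] a)) / 4 ^ n) ∧
    (∀ n : ℕ, mean (R^[n] a) ≤ 1 / 2 → Real.log 2 / 4 ^ n ≤ σ)

/-- Job ORB: the orbit of the Wilson action. -/
def P_ORB : Prop := ∃ C3 C8 M D Q : ℝ, 1 ≤ C3 ∧ 1 ≤ C8 ∧ 0 < D ∧ 10 + 2 * D ≤ M ∧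
  M ^ 2 + M ≤ Q ∧ ∀ m : ℝ, 0 < m → ∀ n : ℕ,
  (M ≤ mean (R^[n] (pois m)) → Cls C3 C8 (R^[n] (pois m)) ∧
    1 - D / mean (R^[n] (pois m)) ≤ W (R^[n] (pois m)) ∧
    ∀ j : ℕ, j ≤ n → |mean (R^[j] (pois m)) - mean (R^[n + 1] (pois m)) - 2 * (n + 1 - j)| ≤
      2 + D * (1 + Real.log (n + 1 - j))) ∧
  (mean (R^[n] (pois m)) < M → q2 (R^[n] (pois m)) ≤ Q)

/-- Job SIG: the string tension at weak coupling. -/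
def P_SIG : Prop := ∃ C : ℝ, ∀ β σ : ℝ, 2 ≤ β →
  Tendsto (fun n : ℕ => -Real.log (W (R^[n] (pois (2 * β)))) / 4 ^ n) atTop (𝓝 σ) →
  |Real.log σ + 2 * Real.log 2 * β| ≤ C * Real.log β

/-- Job BETA: the bare coupling as a function of the number of scales. -/
def P_BETA : Prop := ∀ w : ℝ, 0 < w → w < 1 → ∃ C : ℝ, 0 < C ∧ ∀ N : ℕ,
  (∃ β : ℝ, 0 < β ∧ W (R^[N] (pois (2 * β))) = w) ∧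
  ∀ β : ℝ, 0 < β → W (R^[N] (pois (2 * β))) = w →
    |β - N| ≤ C * (1 + Real.log (N + 1)) ∧
    (∀ j : ℕ, j ≤ N → |mean (R^[N - j] (pois (2 * β))) - 2 * j| ≤ C * (1 + Real.log (j + 1))) ∧
    (∀ j : ℕ, j ≤ N → q2 (R^[N - j] (pois (2 * β))) ≤ C * (1 + (j:ℝ)) ^ 2) ∧
    (∀ j : ℕ, j ≤ N → C ≤ j → vr (R^[N - j] (pois (2 * β))) ≤ mean (R^[N - j] (pois (2 * β)))) ∧
    (∀ j : ℕ, q2 (R^[N + j] (pois (2 * β))) ≤ C)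

/-- Job LIM: the scaling limit, at the level of laws. -/
def P_LIM : Prop := ∀ w : ℝ, 0 < w → w < 1 → ∃ (C : ℝ) (β : ℕ → ℝ) (ν : ℕ → ℕ)
  (b : ℤ → ℕ → ℝ), 0 < C ∧ (∀ N, 0 < β N) ∧ (∀ N, W (R^[N] (pois (2 * β N))) = w) ∧
  (∀ N : ℕ, |β N - N| ≤ C * (1 + Real.log (N + 1))) ∧ StrictMono ν ∧
  (∀ k : ℤ, Law (b k)) ∧ (∀ k : ℤ, Summable fun i => b k i * (i:ℝ) ^ 2) ∧
  (∀ k i, Tendsto (fun l : ℕ => (R^[((ν l : ℤ) + k).toNat] (pois (2 * β (ν l)))) i) atTop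
    (𝓝 (b k i))) ∧
  (∀ k, b (k + 1) = R (b k)) ∧ W (b 0) = w ∧
  (∀ j : ℕ, |mean (b (-j)) - 2 * j| ≤ C * (1 + Real.log (j + 1))) ∧
  (∀ j : ℕ, C ≤ j → ∀ t : ℝ, 0 < t → t ≤ 1 →
    |E (b (-j)) (fun k => t ^ k) - t ^ (mean (b (-j)))| ≤ √(mean (b (-j))) * |Real.log t|) ∧
  (∀ k : ℕ, 1 - b k 0 ≤ mean (b k)) ∧ (∃ c : ℝ, 0 < c ∧ ∀ k : ℕ,
    mean (b k) ≤ C * Real.exp (-c * 4 ^ k)) ∧
  ∃ σ : ℝ, 0 < σ ∧ Tendsto (fun n : ℕ => -Real.log (W (b n)) / 4 ^ n) atTop (𝓝 σ)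

/-- The class function attached to a law. -/
noncomputable def fn (a : ℕ → ℝ) (x : G) : ℝ := E a (fun k => tt x ^ k)

/-- Convolution on `SU(2)`. -/
noncomputable def conv (f g : G → ℝ) (x : G) : ℝ := ∫ y, f y * g (y⁻¹ * x) ∂haar

/-- One Migdal-Kadanoff step for densities. -/
noncomputable def step (f : G → ℝ) (x : G) : ℝ := (conv (conv f f) (conv f f) x) ^ 4

/-- The Wilson loop of a density. -/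
noncomputable def wil (f : G → ℝ) : ℝ :=
  (∫ x, ((x : ℍ[ℝ]).re) * f x ∂haar) / ∫ x, f x ∂haar

/-- Job LINK: densities and laws. -/
def P_LINK : Prop := ∀ a : ℕ → ℝ, Law a →
  (∀ x, conv (fn a) (fn a) x = E2 a (fun K L => I (K + L)) * fn (T a) x) ∧
  (∀ x, fn a x ^ 2 = fn (S a) x) ∧ wil (fn a) = W a ∧ 0 < E2 a (fun K L => I (K + L)) ∧
  Continuous (fn a) ∧ (∀ x, a 0 ≤ fn a x ∧ fn a x ≤ 1) ∧ fn a 1 = 1 ∧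
  (Summable (fun k => a k * (k:ℝ) ^ 2) →
    Tendsto (fun x : G => (1 - fn a x) / (1 - (x : ℍ[ℝ]).re)) (𝓝[≠] 1) (𝓝 (mean a / 2)))

/-- Conditional expectation of an observable of one cell given the boundary holonomy of the block
of four cells which contains it. -/
noncomputable def Qop (f φ : G → ℝ) (x : G) : ℝ :=
  conv (fun y => φ y * f y) (conv f (conv f f)) x / conv f (conv f (conv f f)) x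

/-- Job GAP: contraction of the conditional expectation. -/
def P_GAP : Prop := ∀ f : G → ℝ, Continuous f → (∀ x, 0 ≤ f x) → (∀ x, 0 < tt x → 0 < f x) →
  ∀ (φ : G → ℝ) (δ : ℝ), Continuous φ → (∀ x y, |φ x - φ y| ≤ δ) →
  Continuous (Qop f φ) ∧ (∀ x y, |Qop f φ x - Qop f φ y| ≤ δ) ∧
  ∀ ε : ℝ, 0 ≤ ε → (∀ x, 1 - ε ≤ f x ∧ f x ≤ 1) → ∀ x y, |Qop f φ x - Qop f φ y| ≤ 4 * ε * δ

end Pool.Agent.Q291.MK
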