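import Pool.Agent.Q291.MK.Stm3

/-!
# Statements of the fourth part: mass gap, assembly of the scaling limit
-/

namespace Pool.Agent.Q291.MK

open Filter Topology

/-- Job MG: decay of the non-constant part, uniformly in the coupling in units of the string
tension. -/
def P_MG : Prop :=
  (∀ a : ℕ → ℝ, AM a → a 0 < 1 → ∃ C c : ℝ, 0 < C ∧ 0 < c ∧ ∀ n : ℕ,
    1 - (R^[n] a) 0 ≤ C * Real.exp (-c * 4 ^ n)) ∧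
  ∃ C c : ℝ, 0 < C ∧ 0 < c ∧ ∀ β σ : ℝ, 2 ≤ β →
    Tendsto (fun n : ℕ => -Real.log (W (R^[n] (pois (2 * β)))) / 4 ^ n) atTop (𝓝 σ) →
    σ ≤ C ∧ ∀ n : ℕ, 1 - (R^[n] (pois (2 * β))) 0 ≤ C * Real.exp (-c * σ * 4 ^ n)

/-- All constants of the weak coupling analysis. -/
structure Cst (C3 C8 C12 M e C : ℝ) : Prop where
  h3 : 1 ≤ C3
  h8 : 1 ≤ C8
  h12 : 1 ≤ C12
  hM : 10 ≤ M
  he : 0 < e
  hC : 1 ≤ C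
  hMC : 100 * C ≤ M
  pois : ∀ m : ℝ, M ≤ m → Cl C3 C8 C12 (pois m)
  step : ∀ a : ℕ → ℝ, Cl C3 C8 C12 a → M ≤ mean a → Cl C3 C8 C12 (R a)
  stepP : ∀ a : ℕ → ℝ, Cl (C3 + 3) (C8 + 1) (C12 + 1) a → M ≤ mean a →
    Cl (C3 + 3) (C8 + 1) (C12 + 1) (R a) ∧ mean a - 4 ≤ mean (R a) ∧
    mean (R a) ≤ mean a - 1 ∧ |vr (R a) / mean (R a) - (5 / 16 + vr a / mean a / 16)| ≤
      C / mean a ∧
    |(mean (R a) - 2 * (vr (R a) / mean (R a))) - (mean a - 2 * (vr a / mean a)) + 2| ≤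
      C / mean a
  mix : ∀ a b : ℕ → ℝ, Cl C3 C8 C12 a → Cl C3 C8 C12 b → M ≤ mean a →
    |mean b - mean a| ≤ 3 → vr a ≤ 3 / 4 * mean a → vr b ≤ 3 / 4 * mean b →
    ∀ s : ℝ, 0 ≤ s → s ≤ 1 → Cl (C3 + 3) (C8 + 1) (C12 + 1) (fun k => (1 - s) * a k + s * b k)
  resp : ∀ (a h : ℕ → ℝ) (c ρ : ℝ) (N : ℕ), Cl (C3 + 3) (C8 + 1) (C12 + 1) a →
    (∀ n < N, M ≤ mean (R^[n] a)) → Nr e a h c ρ → ∀ n ≤ N,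
    Cl (C3 + 3) (C8 + 1) (C12 + 1) (R^[n] a) ∧ ∃ c' ρ' : ℝ,
      Nr e (R^[n] a) (hit a h n) c' ρ' ∧ |c'| ≤ 2 * |c| + C * ((|c| + ρ) / mean a) ∧
      ρ' ≤ ρ / 2 ^ n + C * (|c| + (|c| + ρ) / mean a) ∧
      (ρ = 0 → dv a h = vr a / mean a * c → |c' - c| ≤ |c| / 4)

/-- Job CST. -/
def P_CST : Prop := ∃ C3 C8 C12 M e C : ℝ, Cst C3 C8 C12 M e C

/-- Finite difference form of the response. -/
def Fd (e : ℝ) (a b : ℕ → ℝ) (r : ℝ) : Prop := ∀ φ : ℕ → ℝ, Tst e (mean a) φ →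
  |E b φ - E a φ - (mean b - mean a) * E a (dl φ)| ≤ r

/-- Job CRN: crude bounds for segments. -/
def P_CRN : Prop := ∀ C3 C8 C12 M e C : ℝ, Cst C3 C8 C12 M e C → ∃ D : ℝ, 0 < D ∧
  (∀ a : ℕ → ℝ, Cl (C3 + 3) (C8 + 1) (C12 + 1) a → M ≤ mean a → ∀ φ : ℕ → ℝ,
    Tst e (mean a) φ → E a (fun k => |dl φ k - E a (dl φ)|) ≤ D * √(mean a)) ∧
  (∀ a b : ℕ → ℝ, Cl C3 C8 C12 a → Cl C3 C8 C12 b → M ≤ mean a →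
    |mean b - mean a| ≤ 3 → vr a ≤ 3 / 4 * mean a → vr b ≤ 3 / 4 * mean b →
    ∀ s : ℝ, 0 ≤ s → s ≤ 1 → Nr e (fun k => (1 - s) * a k + s * b k) (fun k => b k - a k)
      (mean b - mean a) (D * mean a)) ∧
  (∀ a b : ℕ → ℝ, Cl C3 C8 C12 a → Cl C3 C8 C12 b → M ≤ mean a → mean b = mean a →
    ∀ r : ℝ, Fd e a b r → ∀ s : ℝ, 0 ≤ s → s ≤ 1 →
    Nr e (fun k => (1 - s) * a k + s * b k) (fun k => b k - a k) 0 r) ∧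
  (∀ a b : ℕ → ℝ, Cl (C3 + 3) (C8 + 1) (C12 + 1) a → Cl (C3 + 3) (C8 + 1) (C12 + 1) b →
    M ≤ mean a → |mean b - mean a| ≤ √(mean a) / D → ∀ φ : ℕ → ℝ, Tst e (mean a) φ →
    Tst e (mean b) (fun k => φ k / 2) ∧ |E b (dl φ) - E a (dl φ)| ≤ D * √(mean a))

/-- Job DIFF: from the response to finite differences, for two nearby laws. -/
def P_DIFF : Prop := ∀ C3 C8 C12 M e C : ℝ, Cst C3 C8 C12 M e C → ∃ D : ℝ, 1 ≤ D ∧ ∀ (a b : ℕ → ℝ)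
  (ρ K : ℝ) (N : ℕ), Cl C3 C8 C12 a → Cl C3 C8 C12 b → M ≤ mean a → |mean b - mean a| ≤ 3 →
  vr a ≤ 3 / 4 * mean a → vr b ≤ 3 / 4 * mean b →
  (∀ s : ℝ, 0 ≤ s → s ≤ 1 → Nr e (fun k => (1 - s) * a k + s * b k) (fun k => b k - a k)
    (mean b - mean a) ρ) →
  K = 2 * |mean b - mean a| + 2 * C * ((|mean b - mean a| + ρ) / mean a) →
  (∀ n < N, M + D * (1 + K) ^ 2 ≤ mean (R^[n] a)) → ∀ n ≤ N,
  |mean (R^[n] b) - mean (R^[n] a)| ≤ K ∧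
  (M + D * (1 + K) ^ 2 ≤ mean (R^[n] a) →
    Fd e (R^[n] a) (R^[n] b) (D * (ρ / 2 ^ n + K * √(mean (R^[n] a)))))

/-- Job BMON: dependence on the bare coupling. -/
def P_BMON : Prop := ∀ C3 C8 C12 M e C : ℝ, Cst C3 C8 C12 M e C → ∃ D : ℝ, 1 ≤ D ∧ ∀ (m1 m2 : ℝ)
  (N : ℕ), m1 ≤ m2 → (∀ n < N, M ≤ mean (R^[n] (pois m1))) → 0 < m1 → ∀ n ≤ N,
  3 / 4 * (m2 - m1) ≤ mean (R^[n] (pois m2)) - mean (R^[n] (pois m1)) ∧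
  mean (R^[n] (pois m2)) - mean (R^[n] (pois m1)) ≤ 5 / 4 * (m2 - m1) ∧
  (m2 - m1 ≤ 1 → M + D ≤ mean (R^[n] (pois m1)) →
    Fd e (R^[n] (pois m1)) (R^[n] (pois m2)) (D * (m2 - m1) * √(mean (R^[n] (pois m1)))))

/-- Job BEX: the bare coupling as a function of the renormalised one. -/
def P_BEX : Prop := ∀ C3 C8 C12 M e C : ℝ, Cst C3 C8 C12 M e C → ∀ (m : ℝ) (N : ℕ),
  M + 1 ≤ m → ∃ x : ℝ, m ≤ x ∧ mean (R^[N] (pois x)) = m ∧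
    ∀ y : ℝ, 0 < y → mean (R^[N] (pois y)) = m → y = x

/-- Job MEM: loss of memory. Two orbits of length at least `i + j` with equal mean after `i`
steps are close after `i + j` steps. -/
def P_MEM : Prop := ∀ C3 C8 C12 M e C : ℝ, Cst C3 C8 C12 M e C → ∃ D : ℝ, 1 ≤ D ∧ ∀ (a b : ℕ → ℝ)
  (i j : ℕ), Cl C3 C8 C12 a → Cl C3 C8 C12 b → vr a ≤ 2 / 5 * mean a → vr b ≤ 2 / 5 * mean b →
  mean (R^[i] b) = mean (R^[i] a) → M + D ≤ mean (R^[i + j] a) →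
  mean (R^[i] a) ≤ 2 ^ i → (i:ℝ) * D ≤ mean (R^[i] a) →
  |mean (R^[i + j] b) - mean (R^[i + j] a)| ≤ D / √(mean (R^[i] a)) ∧
  Fd e (R^[i + j] a) (R^[i + j] b) (D * (√(mean (R^[i] a)) / 2 ^ j +
    √(mean (R^[i + j] a)) / √(mean (R^[i] a))))

/-- Job CMP: two long orbits of the Wilson action with nearly equal final mean are close. -/
def P_CMP : Prop := ∀ C3 C8 C12 M e C : ℝ, Cst C3 C8 C12 M e C → ∃ D : ℝ, 1 ≤ D ∧ ∀ m : ℝ,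
  M + D ≤ m → ∀ (κ : ℕ) (ε : ℝ), 0 < ε → ∃ (N0 : ℕ) (δ : ℝ), 0 < δ ∧ ∀ (N1 N2 : ℕ)
  (x1 x2 : ℝ), N0 ≤ N1 → N1 ≤ N2 → 0 < x1 → 0 < x2 →
  |mean (R^[N1] (pois x1)) - m| ≤ δ → |mean (R^[N2] (pois x2)) - m| ≤ δ → ∀ l : ℕ,
  |(R^[N1 - κ] (pois x1)) l - (R^[N2 - κ] (pois x2)) l| ≤ ε

/-- Job CAU: full convergence to a unique scaling limit. -/
def P_CAU : Prop := ∃ M1 : ℝ, 10 ≤ M1 ∧ ∀ m : ℝ, M1 ≤ m →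
  (∀ N : ℕ, ∃ x : ℝ, 0 < x ∧ mean (R^[N] (pois x)) = m ∧
    ∀ y : ℝ, 0 < y → mean (R^[N] (pois y)) = m → y = x) ∧
  ∃ b : ℤ → ℕ → ℝ, ∀ (ν : ℕ → ℕ) (x : ℕ → ℝ), Tendsto ν atTop atTop → (∀ l, 0 < x l) →
    Tendsto (fun l => mean (R^[ν l] (pois (x l)))) atTop (𝓝 m) → ∀ (k : ℤ) (i : ℕ),
    Tendsto (fun l => (R^[((ν l : ℤ) + k).toNat] (pois (x l))) i) atTop (𝓝 (b k i))

/-- Job PROP: properties of every scaling limit. -/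
def P_PROP : Prop := ∀ (m : ℝ) (ν : ℕ → ℕ) (x : ℕ → ℝ) (b : ℤ → ℕ → ℝ), 0 < m →
  Tendsto ν atTop atTop → (∀ l, 0 < x l) →
  Tendsto (fun l => mean (R^[ν l] (pois (x l)))) atTop (𝓝 m) →
  (∀ (k : ℤ) (i : ℕ),
    Tendsto (fun l => (R^[((ν l : ℤ) + k).toNat] (pois (x l))) i) atTop (𝓝 (b k i))) →
  ∃ C : ℝ, 0 < C ∧ (∀ᶠ l in atTop, |x l / 2 - ν l| ≤ C * (1 + Real.log (ν l + 1))) ∧
  (∀ k : ℤ, Law (b k)) ∧ (∀ k : ℤ, Summable fun i => b k i * (i:ℝ) ^ 2) ∧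
  (∀ k : ℤ, Tendsto (fun l => mean (R^[((ν l : ℤ) + k).toNat] (pois (x l)))) atTop
    (𝓝 (mean (b k)))) ∧
  (∀ k, b (k + 1) = R (b k)) ∧ mean (b 0) = m ∧ (∀ k, 0 < W (b k) ∧ W (b k) < 1) ∧
  (∀ j : ℕ, |mean (b (-j)) - 2 * j| ≤ C * (1 + Real.log (j + 1))) ∧
  (∀ j : ℕ, C ≤ j → ∀ t : ℝ, 0 < t → t ≤ 1 →
    |E (b (-j)) (fun k => t ^ k) - t ^ (mean (b (-j)))| ≤ √(mean (b (-j))) * |Real.log t|) ∧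
  (∀ k : ℤ, 1 - b k 0 ≤ mean (b k)) ∧ (∀ k : ℤ, b k 0 < 1) ∧ (∃ c : ℝ, 0 < c ∧ ∀ k : ℕ,
    mean (b k) ≤ C * Real.exp (-c * 4 ^ k)) ∧
  ∃ σ : ℝ, 0 < σ ∧ Tendsto (fun n : ℕ => -Real.log (W (b n)) / 4 ^ n) atTop (𝓝 σ)

end Pool.Agent.Q291.MK
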