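import Pool.Agent.Q291.MK.Stm5

/-!
# Statements of the sixth part: short distance Wilson loops, universality, gauge blocks
-/

namespace Pool.Agent.Q291.MK

open Filter Topology MeasureTheory Quaternion

/-- Job WA: the Wilson loop at weak coupling. -/
def P_WA : Prop := ∀ C3 C8 : ℝ, ∃ D M : ℝ, 0 < D ∧ 10 ≤ M ∧ ∀ a : ℕ → ℝ, Cls C3 C8 a →
  M ≤ mean a → |1 - W a - 3 / mean a| ≤ D / (mean a * √(mean a))

/-- The law concentrated at `K`. -/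
def pw (K : ℕ) (k : ℕ) : ℝ := if k = K then 1 else 0

/-- Job CMU: comparison of a long orbit of any regular bare law with a Wilson orbit. -/
def P_CMU : Prop := ∀ C3 C8 C12 M e C : ℝ, Cst C3 C8 C12 M e C →
  (∀ K : ℕ, M ≤ K → Cl C3 C8 C12 (pw K)) ∧ ∃ D : ℝ, 1 ≤ D ∧ ∀ m : ℝ,
  M + D ≤ m → ∀ (κ : ℕ) (ε : ℝ), 0 < ε → ∃ (N0 : ℕ) (δ : ℝ), 0 < δ ∧ ∀ (N1 N2 : ℕ)
  (x : ℝ) (a : ℕ → ℝ), N0 ≤ N1 → N1 ≤ N2 → 0 < x → Cl C3 C8 C12 a →
  |mean (R^[N1] (pois x)) - m| ≤ δ → |mean (R^[N2] a) - m| ≤ δ → ∀ l : ℕ,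
  |(R^[N1 - κ] (pois x)) l - (R^[N2 - κ] a) l| ≤ ε

/-- Job CA2: full convergence to a unique scaling limit, for two bare actions. -/
def P_CA2 : Prop := ∃ M1 : ℝ, 10 ≤ M1 ∧ ∀ m : ℝ, M1 ≤ m →
  (∀ N : ℕ, ∃ x : ℝ, 0 < x ∧ mean (R^[N] (pois x)) = m ∧
    ∀ y : ℝ, 0 < y → mean (R^[N] (pois y)) = m → y = x) ∧
  ∃ b : ℤ → ℕ → ℝ, (∀ (ν : ℕ → ℕ) (x : ℕ → ℝ), Tendsto ν atTop atTop → (∀ l, 0 < x l) →
    Tendsto (fun l => mean (R^[ν l] (pois (x l)))) atTop (𝓝 m) → ∀ (k : ℤ) (i : ℕ),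
    Tendsto (fun l => (R^[((ν l : ℤ) + k).toNat] (pois (x l))) i) atTop (𝓝 (b k i))) ∧
  ∀ (ν K : ℕ → ℕ), Tendsto ν atTop atTop →
    Tendsto (fun l => mean (R^[ν l] (pw (K l)))) atTop (𝓝 m) → ∀ (k : ℤ) (i : ℕ),
    Tendsto (fun l => (R^[((ν l : ℤ) + k).toNat] (pw (K l))) i) atTop (𝓝 (b k i))

/-- Job BLK: integration over the four interior links of a block of four plaquettes. The
boundary of the block consists of the four products `a1, ..., a4` of link variables between the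
midpoints of its sides, and `v1, ..., v4` are the variables of the links from the centre to these
midpoints. -/
def P_BLK : Prop := ∀ f : G → ℝ, Continuous f → (∀ x y, f (x * y) = f (y * x)) →
  ∀ a1 a2 a3 a4 : G,
  ∫ v1, ∫ v2, ∫ v3, ∫ v4, f (v1 * a1 * v2⁻¹) * f (v2 * a2 * v3⁻¹) * f (v3 * a3 * v4⁻¹) *
    f (v4 * a4 * v1⁻¹) ∂haar ∂haar ∂haar ∂haar = conv (conv f f) (conv f f) (a1 * a2 * a3 * a4)

end Pool.Agent.Q291.MK
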