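import Pool.Agent.Q291.MK.Fin
import Pool.Agent.Q291.MK.Stm7

/-!
# Statements of the eighth part: correlations, blocks of the lattice, scaling of the tension
-/

namespace Pool.Agent.Q291.MK

open Filter Topology MeasureTheory Quaternion

/-- Job BLK4: integration over the four interior links of a block of four cells, for four class
functions. -/
def P_BLK4 : Prop := ∀ f1 f2 f3 f4 : G → ℝ, Continuous f1 → Continuous f2 → Continuous f3 →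
  Continuous f4 → (∀ x y, f1 (x * y) = f1 (y * x)) → (∀ x y, f2 (x * y) = f2 (y * x)) →
  (∀ x y, f3 (x * y) = f3 (y * x)) → (∀ x y, f4 (x * y) = f4 (y * x)) → ∀ a1 a2 a3 a4 : G,
  ∫ v1, ∫ v2, ∫ v3, ∫ v4, f1 (v1 * a1 * v2⁻¹) * f2 (v2 * a2 * v3⁻¹) * f3 (v3 * a3 * v4⁻¹) *
    f4 (v4 * a4 * v1⁻¹) ∂haar ∂haar ∂haar ∂haar =
      conv f1 (conv f2 (conv f3 f4)) (a1 * a2 * a3 * a4)

/-- Job AV: conditional expectations are averages. -/
def P_AV : Prop := ∀ f : G → ℝ, Continuous f → (∀ x, 0 ≤ f x) → (∀ x, 0 < tt x → 0 < f x) →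
  ∀ (φ : G → ℝ) (u v : ℝ), Continuous φ → (∀ x, u ≤ φ x ∧ φ x ≤ v) →
  ∀ x, u ≤ Qop f φ x ∧ Qop f φ x ≤ v

/-- Conditional expectation of the product of two observables of two cells of the same sheet,
given the boundary holonomy of the block of four cells which contains them. -/
noncomputable def Q2 (f φ ψ : G → ℝ) (x : G) : ℝ :=
  conv (fun y => φ y * f y) (conv (fun y => ψ y * f y) (conv f f)) x /
    conv f (conv f (conv f f)) x

/-- Job COR: truncated correlations. -/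
def P_COR : Prop := ∀ f : ℕ → G → ℝ, (∀ n, Continuous (f n)) → (∀ n x, 0 ≤ f n x) →
  (∀ n x, 0 < tt x → 0 < f n x) → (∀ n x y, f n (x * y) = f n (y * x)) →
  ∀ φ ψ : G → ℝ, Continuous φ → Continuous ψ → ∀ (n : ℕ) (ε δ : ℝ), 0 ≤ ε →
  (∀ x, 1 - ε ≤ f n x ∧ f n x ≤ 1) → (∀ x y, |cnd f φ n x - cnd f φ n y| ≤ δ) →
  (∀ x y, |cnd f ψ n x - cnd f ψ n y| ≤ δ) → ∀ (N : ℕ) (x : G),
  |cnd (fun i => f (n + 1 + i)) (Q2 (f n) (cnd f φ n) (cnd f ψ n)) N x -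
    cnd f φ (n + 1 + N) x * cnd f ψ (n + 1 + N) x| ≤ 70 * ε * δ ^ 2 ∧
  |cnd (fun i => f (n + 1 + i)) (fun y => cnd f φ (n + 1) y * cnd f ψ (n + 1) y) N x -
    cnd f φ (n + 1 + N) x * cnd f ψ (n + 1 + N) x| ≤ 70 * ε * δ ^ 2

/-- Job SG3: the tension of the scaling limit as a function of the renormalised coupling. -/
def P_SG3 : Prop := ∃ C M2 : ℝ, ∀ (m σ : ℝ) (ν : ℕ → ℕ) (x : ℕ → ℝ) (b : ℤ → ℕ → ℝ), M2 ≤ m →
  Tendsto ν atTop atTop → (∀ l, 0 < x l) →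
  Tendsto (fun l => mean (R^[ν l] (pois (x l)))) atTop (𝓝 m) →
  (∀ (k : ℤ) (i : ℕ),
    Tendsto (fun l => (R^[((ν l : ℤ) + k).toNat] (pois (x l))) i) atTop (𝓝 (b k i))) →
  Tendsto (fun n : ℕ => -Real.log (W (b n)) / 4 ^ n) atTop (𝓝 σ) →
  |Real.log σ + Real.log 2 * m - 8 / 15 * Real.log 2 * Real.log m| ≤ C

/-- Job MG3: decay of the non-constant part of the scaling limit, in units of the tension, with
absolute constants. -/
def P_MG3 : Prop := ∃ C c M2 : ℝ, 0 < C ∧ 0 < c ∧ ∀ (m σ : ℝ) (ν : ℕ → ℕ) (x : ℕ → ℝ)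
  (b : ℤ → ℕ → ℝ), M2 ≤ m → Tendsto ν atTop atTop → (∀ l, 0 < x l) →
  Tendsto (fun l => mean (R^[ν l] (pois (x l)))) atTop (𝓝 m) →
  (∀ (k : ℤ) (i : ℕ),
    Tendsto (fun l => (R^[((ν l : ℤ) + k).toNat] (pois (x l))) i) atTop (𝓝 (b k i))) →
  Tendsto (fun n : ℕ => -Real.log (W (b n)) / 4 ^ n) atTop (𝓝 σ) →
  σ ≤ C ∧ ∀ k : ℤ, 1 - b k 0 ≤ C * Real.exp (-c * σ * (4:ℝ) ^ k)

end Pool.Agent.Q291.MK
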