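import Pool.Agent.Q291.MK.Thm
import Pool.Agent.Q291.MK.Fin7

/-!
# The scaling limit of the hierarchical lattice gauge theory
-/

namespace Pool.Agent.Q291.MK

open Filter Topology MeasureTheory Quaternion

lemma part_Zq (p : ℕ → ℝ) (n N : ℕ) :
    part (fun x => ∏ i ∈ Finset.range n, (1 - p i + p i * tt x)) N = Zq p n N := by
  refine (part_step ?_ (fun x y => ?_) N).1
  · refine continuous_finset_prod _ fun i _ => ?_
    have := (ttp_ct 1)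
    simp only [pow_one] at this
    exact (this.const_mul (p i)).const_add (1 - p i) |>.congr fun _ => rfl
  · show ∏ i ∈ _, _ = ∏ i ∈ _, _
    rw [tt_class]

theorem thmD (hCA : P_CA3) (hPROP : P_PROP) (hPR : P_PR2) (hPKG : P_PKG) (hSG3 : P_SG3)
    (hMG3 : P_MG3) (hAV : P_AV) (hONE : P_ONE) (hRE : P_RE0) (hCOR : P_COR) (hPB : P_PB)
    (hCC : P_CC) (hCW : P_CW) :
    ∃ (M C0 c0 : ℝ) (F : ℝ → ℤ → G → ℝ) (σ : ℝ → ℝ), 0 < M ∧ 0 < C0 ∧ 0 < c0 ∧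
  (∀ m : ℝ, M ≤ m →
    (∀ N : ℕ, ∃ β : ℝ, 0 < β ∧ Ren (part (bare β) N) m ∧
      ∀ β' : ℝ, 0 < β' → Ren (part (bare β') N) m → β' = β) ∧
    (∀ (ν : ℕ → ℕ) (β b : ℕ → ℝ), Tendsto ν atTop atTop → (∀ l, 0 < β l) →
      (∀ l, Ren (part (bare (β l)) (ν l)) (b l)) → Tendsto b atTop (𝓝 m) → ∀ k : ℤ,
      TendstoUniformly (fun l x => part (bare (β l)) ((ν l + k).toNat) x /
        part (bare (β l)) ((ν l + k).toNat) 1) (F m k) atTop) ∧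
    (∀ (ν : ℕ → ℕ) (β b : ℕ → ℝ), Tendsto ν atTop atTop → (∀ l, 0 < β l) →
      (∀ l, Ren (part (bare (β l)) (ν l)) (b l)) → Tendsto b atTop (𝓝 m) →
      ∀ φ : G → ℝ, Continuous φ → Cf φ → ∀ (k : ℤ) (n : ℕ),
      TendstoUniformly (fun l => cex (fun i => part (bare (β l)) ((ν l + (k + i)).toNat)) φ n)
        (cex (fun i => F m (k + i)) φ n) atTop) ∧
    (∀ (ν n : ℕ → ℕ) (p : ℕ → ℕ → ℝ) (b : ℕ → ℝ), Tendsto ν atTop atTop →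
      (∀ l i, 0 ≤ p l i ∧ p l i ≤ 1) →
      (∀ l, Ren (part (fun x => ∏ i ∈ Finset.range (n l), (1 - p l i + p l i * tt x)) (ν l))
        (b l)) → Tendsto b atTop (𝓝 m) → ∀ k : ℤ,
      TendstoUniformly (fun l x =>
        part (fun x => ∏ i ∈ Finset.range (n l), (1 - p l i + p l i * tt x))
          ((ν l + k).toNat) x /
        part (fun x => ∏ i ∈ Finset.range (n l), (1 - p l i + p l i * tt x))
          ((ν l + k).toNat) 1) (F m k) atTop) ∧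
    (∀ k : ℤ, Continuous (F m k) ∧ Cf (F m k) ∧ F m k 1 = 1 ∧
      (∀ x, 0 ≤ F m k x ∧ F m k x ≤ 1) ∧ (∀ x, 0 < tt x → 0 < F m k x) ∧
      (∀ x, F m (k + 1) x = sheet (F m k) (F m k) (F m k) (F m k) x 1 1 1 ^ 4 /
        sheet (F m k) (F m k) (F m k) (F m k) 1 1 1 1 ^ 4) ∧
      0 < wil (F m k) ∧ wil (F m k) < 1) ∧
    (0 < σ m ∧ Tendsto (fun n : ℕ => -Real.log (wil (F m n)) / 4 ^ n) atTop (𝓝 (σ m)) ∧
      |Real.log (σ m) + 2 * Real.log 2 * m - 8 / 15 * Real.log 2 * Real.log m| ≤ C0) ∧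
    (∀ (k : ℤ) (N : ℕ) (x : G),
      |cex (fun i => F m (k + i)) (fun y => (y : ℍ[ℝ]).re) (N + 1) x| ≤
        C0 * Real.exp (-c0 * σ m * (4:ℝ) ^ k)) ∧
    (∀ φ : G → ℝ, Continuous φ → Cf φ → (∀ x, |φ x| ≤ 1) → ∀ k : ℤ, ∃ e : ℝ,
      ∀ (n : ℕ) (x : G), |cex (fun i => F m (k + i)) φ (n + 1) x - e| ≤
        C0 * Real.exp (-c0 * σ m * (4:ℝ) ^ (k + n))) ∧
    (∀ φ ψ : G → ℝ, Continuous φ → Continuous ψ → Cf φ → Cf ψ → (∀ x, |φ x| ≤ 1) →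
      (∀ x, |ψ x| ≤ 1) → ∀ (k : ℤ) (n N : ℕ) (x : G),
      |tr1 (fun i => F m (k + i)) φ ψ n N x| ≤ C0 * Real.exp (-c0 * σ m * (4:ℝ) ^ (k + n)) ∧
      |tr2 (fun i => F m (k + i)) φ ψ n N x| ≤ C0 * Real.exp (-c0 * σ m * (4:ℝ) ^ (k + n))) ∧
    ∃ (C : ℝ) (b : ℤ → ℝ), 0 < C ∧ b 0 = m ∧ (∀ k, Ren (F m k) (b k)) ∧
      (∀ (N : ℕ) (β : ℝ), 0 < β → Ren (part (bare β) N) m →
        |β - N - 4 / 15 * Real.log (N + 1)| ≤ C) ∧
      (∀ j : ℕ, |b (-j) - j - 4 / 15 * Real.log (j + 1)| ≤ C) ∧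
      (∀ k j : ℤ, k ≤ 0 → F (b k) j = F m (j + k)) ∧
      (∀ (j : ℕ) (x : G), |F m (-j) x - tt x ^ (2 * b (-j))| ≤
        C * (1 + Real.log (j + 1)) / √((j:ℝ) + 1)) ∧
      (∀ j : ℕ, |1 - wil (F m (-j)) - 3 / (2 * b (-j))| ≤ C / (((j:ℝ) + 1) * √((j:ℝ) + 1)))) ∧
  (∀ w : ℝ, 0 < w → w < 1 → (∀ N : ℕ, ∃ β : ℝ, 0 < β ∧ wil (part (bare β) N) = w) ∧
    ∀ (ν : ℕ → ℕ) (β : ℕ → ℝ), Tendsto ν atTop atTop → (∀ l, 0 < β l) →
    (∀ l, wil (part (bare (β l)) (ν l)) = w) → ∃ (θ : ℕ → ℕ) (m : ℝ) (k0 : ℤ), StrictMono θ ∧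
    M ≤ m ∧ wil (F m k0) = w ∧ ∀ k : ℤ,
      TendstoUniformly (fun l x => part (bare (β (θ l))) ((ν (θ l) + k).toNat) x /
        part (bare (β (θ l))) ((ν (θ l) + k).toNat) 1) (F m (k + k0)) atTop) ∧
  (∃ w0 : ℝ, w0 < 1 ∧ ∀ w : ℝ, w0 < w → w < 1 → ∃ m : ℝ, M ≤ m ∧ wil (F m 0) = w ∧
    ∀ (ν : ℕ → ℕ) (β : ℕ → ℝ), Tendsto ν atTop atTop → (∀ l, 0 < β l) →
    Tendsto (fun l => wil (part (bare (β l)) (ν l))) atTop (𝓝 w) → ∀ k : ℤ,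
      TendstoUniformly (fun l x => part (bare (β l)) ((ν l + k).toNat) x /
        part (bare (β l)) ((ν l + k).toNat) 1) (F m k) atTop) := by
  obtain ⟨M, C0, c0, F, σ, hM, hC0, hc0, h1, h2⟩ :=
    finD hCA hPROP hPR hPKG hSG3 hMG3 hAV hONE hRE hCOR hPB hCC hCW
  have e : ∀ β, part (bare β) = Z β := fun β => funext (part_Z β)
  have e' : ∀ (p : ℕ → ℝ) (n : ℕ), part (fun x => ∏ i ∈ Finset.range n, (1 - p i + p i * tt x)) =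
      Zq p n := fun p n => funext (part_Zq p n)
  have hre : Continuous (fun y : G => (y : ℍ[ℝ]).re) :=
    Quaternion.continuous_re.comp continuous_subtype_val
  have hrc : Cf (fun y : G => (y : ℍ[ℝ]).re) := fun x y => re_class x y
  simp only [e, e']
  refine ⟨M, C0, c0, F, σ, hM, hC0, hc0, fun m hm => ?_, h2⟩
  obtain ⟨k1, k2, kc, k3, k4, k5, k6, k7, k8, k9⟩ := h1 m hm
  have hW : ∀ k : ℤ, Wt (F m k) := fun k =>
    ⟨(k4 k).1, fun x => ((k4 k).2.2.2.1 x).1, (k4 k).2.2.2.2.1, (k4 k).2.1⟩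
  refine ⟨k1, k2, fun ν β b hν hβ hR hb φ hφ cφ k n => ?_, k3, fun k => ?_, k5,
    fun k N x => ?_, fun φ hφ cφ hb k => ?_, fun φ ψ hφ hψ cφ cψ hb1 hb2 k n N x => ?_, k9⟩
  · have h3 := kc ν β b hν hβ hR hb φ hφ k n
    have e1 : (fun l => cex (fun i => Z (β l) ((ν l + (k + i)).toNat)) φ n) =
        fun l => cnd (fun i => Z (β l) ((ν l + (k + i)).toNat)) φ n := by
      funext l
      exact (cex_cnd (f := fun i => Z (β l) ((ν l + (k + i)).toNat)) (fun i => Wt.Z (hβ l).le _)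
        hφ cφ n).1
    rw [e1, (cex_cnd (f := fun i => F m (k + i)) (fun i => hW _) hφ cφ n).1]
    exact h3
  · obtain ⟨p1, p2, p3, p4, p5, p6, p7⟩ := k4 k
    refine ⟨p1, p2, p3, p4, p5, fun x => ?_, p7⟩
    rw [p6 x]
    have hs : ∀ x, sheet (F m k) (F m k) (F m k) (F m k) x 1 1 1 ^ 4 = step (F m k) x := by
      intro x
      have g2 := conv_ct p1 p1
      unfold step
      rw [sheet_conv p1 p1 p1 p1 p2 p2 p2 p2, Pool.Agent.Q224.MK.conv_assoc p1 p1 g2]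
      simp
    rw [hs x, hs 1]
  · rw [(cex_cnd (f := fun i => F m (k + i)) (fun i => hW _) hre hrc (N + 1)).1]
    exact k6 k N x
  · obtain ⟨v, hv⟩ := k7 φ hφ hb k
    refine ⟨v, fun n x => ?_⟩
    rw [(cex_cnd (f := fun i => F m (k + i)) (fun i => hW _) hφ cφ (n + 1)).1]
    exact hv n x
  · have q := tr1_cor (f := fun i => F m (k + i)) (fun i => hW _) hφ cφ hψ cψ n N x
    rw [q.1, q.2]
    exact k8 φ ψ hφ hψ hb1 hb2 k n N x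

end Pool.Agent.Q291.MK
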